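import Pool.Agent.W_4b1b5d_h63.FinalII
import Pool.Agent.W_4b1b5d_h3.FinalG

/-!
# Parts (i) and (ii) for every metric, `U` not constant on any nonempty open set
-/

set_option autoImplicit false

open Filter Topology MvPolynomial
open Pool.W4b1b5d.H3 Pool.W4b1b5d.H34 Pool.Agent.U4b Pool.W4b1b5d.E

namespace Pool.W4b1b5d.H63

/-- The local structure theorem (helper78). -/
def LocalGC : Prop := ∀ (I : ID) (N : ℕ), I.n = 2 * N →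
      (∃ (h : ℝ) (s : ℤ) (x : V2), 1 ≤ s ∧ I.beta h s x ≠ 0) →
      ∃ V : Uni I, ∀ x, fderiv ℝ I.U x ≠ 0 → ∃ c : ℂ, ‖c‖ = 1 ∧ AF I V x c

theorem partII_all (hGC : LocalGC) (ginv : V2 → Matrix (Fin 2) (Fin 2) ℝ) (U : V2 → ℝ)
    (hpos : ∀ x, (ginv x).PosDef) (hsm : ∀ i j, ContDiff ℝ (⊤ : ℕ∞) (fun x => ginv x i j))
    (hper : ∀ (x : V2) (k : Fin 2 → ℤ), ginv (x + fun i => (k i : ℝ)) = ginv x)
    (hU : ContDiff ℝ (⊤ : ℕ∞) U)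
    (hUp : ∀ (x : V2) (k : Fin 2 → ℤ), U (x + fun i => (k i : ℝ)) = U x)
    (hUn : ∃ x y, U x ≠ U y)
    (hd : ∀ O : Set V2, IsOpen O → O.Nonempty → ∃ x ∈ O, ∃ y ∈ O, U x ≠ U y) :
    PartII (Ham ginv U) := by
  obtain ⟨Φ, Ψ, μ, G, U', hdf, h1, h2, h3, h4, h5, h6, h7, hUU, h8, h9, h10⟩ :=
    uniformisation hpos hsm hper hU hUp hUn
  refine hdf.partII h8 h9 h10 (partII_of hGC μ G U' h1 h2 h3 h4 h5 h6 ?_)
  intro x
  refine closure_univ U' h5 ?_ x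
  intro O hO hne
  have hΦc : Continuous Φ := (hdf.sm.differentiable (by simp)).continuous
  obtain ⟨y, hy⟩ := hne
  obtain ⟨a, ha, b, hb, hab⟩ := hd (Φ ⁻¹' O) (hO.preimage hΦc) ⟨Ψ y, by
    show Φ (Ψ y) ∈ O
    rw [hdf.right]
    exact hy⟩
  exact ⟨Φ a, ha, Φ b, hb, by rw [hUU, hUU]; exact hab⟩

theorem partI_all (ginv : V2 → Matrix (Fin 2) (Fin 2) ℝ) (U : V2 → ℝ)
    (hpos : ∀ x, (ginv x).PosDef) (hsm : ∀ i j, ContDiff ℝ (⊤ : ℕ∞) (fun x => ginv x i j))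
    (hper : ∀ (x : V2) (k : Fin 2 → ℤ), ginv (x + fun i => (k i : ℝ)) = ginv x)
    (hU : ContDiff ℝ (⊤ : ℕ∞) U)
    (hUp : ∀ (x : V2) (k : Fin 2 → ℤ), U (x + fun i => (k i : ℝ)) = U x)
    (hUn : ∃ x y, U x ≠ U y)
    (hd : ∀ O : Set V2, IsOpen O → O.Nonempty → ∃ x ∈ O, ∃ y ∈ O, U x ≠ U y) :
    PartI (Ham ginv U) := by
  rintro hodd
  obtain ⟨V, hV, hVper, hV0, hbr⟩ := finalG ginv U hpos hsm hper hU hUp hUn hodd
  refine ⟨fun x => ∑ j, MvPolynomial.C (V x j) * MvPolynomial.X j, ⟨?_, ?_,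
    ⟨1, fun x => (deg_lin _ (hV0 x)).le⟩, ?_⟩, fun x => (deg_lin _ (hV0 x)).le, 0,
    deg_lin _ (hV0 0)⟩
  · exact CoefSm.sum (fun j _ => (CoefSm.C ((contDiff_apply ℝ ℝ j).comp hV)).mul
      (CoefSm.const (MvPolynomial.X j)))
  · intro x k
    simp only [hVper]
  · intro x p
    have h1 := hbr x (closure_univ U hU hd x) p
    simp only [PB, dP, dX, dP_lin] at h1
    simp only [eval_lin, dP_lin]
    exact h1

end Pool.W4b1b5d.H63
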