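import Pool.Agent.W_4b1b5d_h63.DTheta

/-!
# From the formulas for `A₀, A₁, A₂` to the two identities for `dθ`

`l` stands for `ℓ_h` (`h` fixed), `z = b₀`, `b₁`, `b₂` are the first coefficients of the universal series:
`db z = -2 dd l`, `db b₁ = -l dd z`, `db b₂ = -l dd b₁ + 2 (dd l) b₁`; and `dd z = A₀ = -2 θ db l`,
`dd b₁ = A₁ = 2 θ l dd l`, `dd b₂ = A₂ - b₁ dd z`, `A₂ = -2 θ² l² db l`.
-/

set_option autoImplicit false

open Filter Topology
open Pool.W4b1b5d.H3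

namespace Pool.W4b1b5d.H63

theorem wedge (al : Fin 2 → ℂ) (x : V2) (θ l z b1 b2 : V2 → ℂ) (hθ : Sm θ x) (hl : Sm l x)
    (hz : Sm z x) (hb1 : Sm b1 x) (hb2 : Sm b2 x)
    (z1 : ∀ᶠ y in 𝓝 x, dd al z y = -2 * θ y * dd (cj al) l y)
    (z2 : ∀ᶠ y in 𝓝 x, dd (cj al) z y = -2 * dd al l y)
    (e1 : ∀ᶠ y in 𝓝 x, dd al b1 y = 2 * θ y * l y * dd al l y)
    (e2 : ∀ᶠ y in 𝓝 x, dd (cj al) b1 y = -l y * dd al z y)
    (e3 : ∀ᶠ y in 𝓝 x, dd al b2 y + b1 y * dd al z y = -2 * θ y ^ 2 * l y ^ 2 * dd (cj al) l y)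
    (e4 : ∀ᶠ y in 𝓝 x, dd (cj al) b2 y = -l y * dd al b1 y + 2 * dd al l y * b1 y)
    (hl0 : l x ≠ 0) :
    dd (cj al) θ x * dd al l x = dd al θ x * dd (cj al) l x ∧
      dd al θ x * dd al l x = θ x * dd (cj al) θ x * dd (cj al) l x := by
  obtain ⟨u, hu⟩ : ∃ u, u = dd al l := ⟨_, rfl⟩
  obtain ⟨v, hv⟩ : ∃ v, v = dd (cj al) l := ⟨_, rfl⟩
  rw [← hu] at z2 e1 e4 ⊢
  rw [← hv] at z1 e3 ⊢
  have hus : Sm u x := hu ▸ hl.dd al
  have hvs : Sm v x := hv ▸ hl.dd (cj al)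
  have huv : dd (cj al) u x = dd al v x := by
    rw [hu, hv]
    exact dd_comm _ _ hl
  have hux : dd al l x = u x := by rw [hu]
  have hvx : dd (cj al) l x = v x := by rw [hv]
  -- `db (θ v) = dd u`
  have k0 : dd (cj al) θ x * v x + θ x * dd (cj al) v x = dd al u x := by
    have f1 : dd (cj al) (dd al z) x = dd (cj al) (fun y => -2 * (θ y * v y)) x :=
      dd_congr (by filter_upwards [z1] with y hy; rw [hy]; ring)
    have f2 : dd al (dd (cj al) z) x = dd al (fun y => -2 * u y) x := dd_congr z2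
    rw [dd_const_mul _ _ (hθ.mul hvs).diff, dd_mul _ hθ.diff hvs.diff] at f1
    rw [dd_const_mul _ _ hus.diff] at f2
    have f3 := dd_comm al (cj al) hz
    rw [f1, f2] at f3
    linear_combination (1 / 2 : ℂ) * f3
  -- `b₁`
  have k1 : dd (cj al) θ x * u x = dd al θ x * v x := by
    have f1 : dd (cj al) (dd al b1) x = dd (cj al) (fun y => 2 * (θ y * (l y * u y))) x :=
      dd_congr (by filter_upwards [e1] with y hy; rw [hy]; ring)
    have f2 : dd al (dd (cj al) b1) x = dd al (fun y => 2 * (θ y * (l y * v y))) x :=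
      dd_congr (by filter_upwards [e2, z1] with y hy hy'; rw [hy, hy']; ring)
    rw [dd_const_mul _ _ (hθ.mul (hl.mul hus)).diff, dd_mul _ hθ.diff (hl.mul hus).diff,
      dd_mul _ hl.diff hus.diff, hvx] at f1
    rw [dd_const_mul _ _ (hθ.mul (hl.mul hvs)).diff, dd_mul _ hθ.diff (hl.mul hvs).diff,
      dd_mul _ hl.diff hvs.diff, hux] at f2
    have f3 := dd_comm al (cj al) hb1
    rw [f1, f2, huv] at f3
    have f4 : l x * (dd (cj al) θ x * u x - dd al θ x * v x) = 0 := by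
      linear_combination (-1 / 2 : ℂ) * f3
    exact sub_eq_zero.1 ((mul_eq_zero.1 f4).resolve_left hl0)
  refine ⟨k1, ?_⟩
  have g1 : dd (cj al) b1 x = 2 * θ x * l x * v x := by
    rw [e2.self_of_nhds, z1.self_of_nhds]
    ring
  have g2 : dd al b1 x = 2 * θ x * l x * u x := e1.self_of_nhds
  have f1 : dd (cj al) (dd al b2) x = dd (cj al)
      (fun y => 2 * ((θ y * v y) * b1 y) - 2 * ((θ y * (l y * l y)) * (θ y * v y))) x :=
    dd_congr (by filter_upwards [e3, z1] with y hy hy'; rw [hy'] at hy; linear_combination hy)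
  have f2 : dd al (dd (cj al) b2) x = dd al
      (fun y => 2 * (u y * b1 y) - 2 * ((θ y * (l y * l y)) * u y)) x :=
    dd_congr (by filter_upwards [e4, e1] with y hy hy'; rw [hy, hy']; ring)
  have s1 := hθ.mul hvs
  have s2 := hθ.mul (hl.mul hl)
  rw [dd_sub _ ((Sm.const 2 x).mul (s1.mul hb1)).diff ((Sm.const 2 x).mul (s2.mul s1)).diff,
    dd_const_mul _ _ (s1.mul hb1).diff, dd_const_mul _ _ (s2.mul s1).diff,
    dd_mul _ s1.diff hb1.diff, dd_mul _ s2.diff s1.diff, dd_mul _ hθ.diff (hl.mul hl).diff,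
    dd_mul _ hl.diff hl.diff, dd_mul _ hθ.diff hvs.diff, hvx, g1] at f1
  rw [dd_sub _ ((Sm.const 2 x).mul (hus.mul hb1)).diff ((Sm.const 2 x).mul (s2.mul hus)).diff,
    dd_const_mul _ _ (hus.mul hb1).diff, dd_const_mul _ _ (s2.mul hus).diff,
    dd_mul _ hus.diff hb1.diff, dd_mul _ s2.diff hus.diff, dd_mul _ hθ.diff (hl.mul hl).diff,
    dd_mul _ hl.diff hl.diff, hux, g2] at f2
  have f3 := dd_comm al (cj al) hb2
  rw [f1, f2] at f3
  have f4 : l x ^ 2 * (dd al θ x * u x - θ x * dd (cj al) θ x * v x) = 0 := by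
    linear_combination (-1 / 2 : ℂ) * f3 - (b1 x - θ x * l x ^ 2) * k0
  exact sub_eq_zero.1 ((mul_eq_zero.1 f4).resolve_left (pow_ne_zero 2 hl0))

/-- The identities at two values of `h` give them for `U`. -/
theorem wedge_affine (al : Fin 2 → ℂ) (x : V2) (U rho : V2 → ℝ) (hU : ContDiff ℝ (⊤ : ℕ∞) U)
    (hrho : ContDiff ℝ (⊤ : ℕ∞) rho) (hr0 : rho x ≠ 0) (p q θ : ℂ) (h1 h2 : ℝ) (hne : h1 ≠ h2)
    (e1 : ∀ h : ℝ, h = h1 ∨ h = h2 →
      q * ddr al (fun y => (h - U y) * rho y) x = p * ddr (cj al) (fun y => (h - U y) * rho y) x ∧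
      p * ddr al (fun y => (h - U y) * rho y) x = θ * q * ddr (cj al) (fun y => (h - U y) * rho y) x) :
    q * ddr al U x = p * ddr (cj al) U x ∧ p * ddr al U x = θ * q * ddr (cj al) U x := by
  have hUd : DifferentiableAt ℝ (fun y => (U y : ℂ)) x := BetaA_diff hU x
  have hrd : DifferentiableAt ℝ (fun y => (rho y : ℂ)) x := BetaA_diff hrho x
  have key : ∀ (a : Fin 2 → ℂ) (h : ℝ), ddr a (fun y => (h - U y) * rho y) x =
      ((h : ℂ) - U x) * ddr a rho x - rho x * ddr a U x := by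
    intro a h
    unfold ddr
    have f1 : (fun y => (((h - U y) * rho y : ℝ) : ℂ)) =
        fun y => ((h : ℂ) - (U y : ℂ)) * (rho y : ℂ) := by
      funext y
      push_cast
      ring
    rw [f1, dd_mul a ((differentiableAt_const _).fun_sub hUd) hrd,
      dd_sub a (differentiableAt_const _) hUd, dd_const]
    ring
  have hr : (rho x : ℂ) ≠ 0 := by exact_mod_cast hr0
  have hn : (h1 : ℂ) - h2 ≠ 0 := by
    rw [sub_ne_zero]
    exact_mod_cast hne
  obtain ⟨a1, a2⟩ := e1 h1 (Or.inl rfl)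
  obtain ⟨b1, b2⟩ := e1 h2 (Or.inr rfl)
  rw [key, key] at a1 a2 b1 b2
  constructor
  · have h3 : ((h1 : ℂ) - h2) * (rho x : ℂ) * (q * ddr al U x - p * ddr (cj al) U x) = 0 := by
      linear_combination ((h2 : ℂ) - U x) * a1 - ((h1 : ℂ) - U x) * b1
    exact sub_eq_zero.1 ((mul_eq_zero.1 h3).resolve_left (mul_ne_zero hn hr))
  · have h3 : ((h1 : ℂ) - h2) * (rho x : ℂ) * (p * ddr al U x - θ * q * ddr (cj al) U x) = 0 := by
      linear_combination ((h2 : ℂ) - U x) * a2 - ((h1 : ℂ) - U x) * b2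
    exact sub_eq_zero.1 ((mul_eq_zero.1 h3).resolve_left (mul_ne_zero hn hr))

end Pool.W4b1b5d.H63
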