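import Pool.Agent.W_4b1b5d_h63.FinalQuad
import Pool.Agent.W_4b1b5d_h63.Wedge
import Pool.Agent.W_4b1b5d_h78.Defs

/-!
# From the local formulas for `A₀, A₁, A₂` to the quadratic integral

`AF I D x c` : the formulas for `A₀, A₁, A₂` at `x` with `θ = c`.
-/

set_option autoImplicit false

open Filter Topology
open Pool.W4b1b5d.H3 Pool.W4b1b5d.E

namespace Pool.W4b1b5d.H63

/-- The formulas for `A₀, A₁, A₂` at `x`, `θ = c`. -/
def AF (I : ID) (D : Uni I) (x : V2) (c : ℂ) : Prop :=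
  ∀ h : ℝ, D.A 0 h x = -2 * c * ddr (cj I.al) (I.ell h) x ∧
    D.A 1 h x = 2 * c * (I.ell h x : ℂ) * ddr I.al (I.ell h) x ∧
    D.A 2 h x = c * (I.ell h x : ℂ) ^ 2 * D.A 0 h x

/-- `ell h = h * rho - rho * U`. -/
theorem ell_eq (I : ID) (h : ℝ) : I.ell h = fun y => (h - I.U y) * (I.mu y)⁻¹ := by
  funext y
  unfold ID.ell
  rw [div_eq_mul_inv]

theorem ddr_ell_lin (I : ID) (h : ℝ) (a : Fin 2 → ℂ) (x : V2) :
    ddr a (I.ell h) x = (h : ℂ) * ddr a (fun y => (I.mu y)⁻¹) x -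
      ddr a (fun y => (I.mu y)⁻¹ * I.U y) x := by
  have hinv : ContDiff ℝ (⊤ : ℕ∞) (fun y => (I.mu y)⁻¹) := I.musm.inv fun x => (I.mupos x).ne'
  have h1 : DifferentiableAt ℝ (fun y => (((I.mu y)⁻¹ : ℝ) : ℂ)) x := BetaA_diff hinv x
  have h2 : DifferentiableAt ℝ (fun y => (((I.mu y)⁻¹ * I.U y : ℝ) : ℂ)) x :=
    BetaA_diff (hinv.mul I.Usm) x
  unfold ddr
  have h3 : (fun y => ((I.ell h y : ℝ) : ℂ)) = fun y => (h : ℂ) * (((I.mu y)⁻¹ : ℝ) : ℂ) -
      (((I.mu y)⁻¹ * I.U y : ℝ) : ℂ) := by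
    funext y
    rw [ell_eq]
    push_cast
    ring
  rw [h3, dd_sub a (h1.const_mul _) h2, dd_const_mul a _ h1]

/-- `db ell ≠ 0` at `h = U x`. -/
theorem ddr_ell_U (I : ID) (a : Fin 2 → ℂ) (x : V2) :
    (I.mu x : ℂ) * ddr a (I.ell (I.U x)) x = - ddr a I.U x := by
  rw [I.ddr_ell]
  have : I.ell (I.U x) x = 0 := by
    unfold ID.ell
    simp
  rw [this]
  simp

theorem ddr_cj_ell_U_ne (I : ID) (x : V2) (hx : fderiv ℝ I.U x ≠ 0) :
    ddr (cj I.al) (I.ell (I.U x)) x ≠ 0 := by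
  intro h0
  have h1 := ddr_ell_U I (cj I.al) x
  rw [h0, mul_zero, ddr_conj I.al (I.Usm.differentiable (by simp) x)] at h1
  have h2 := ddr_ne_zero I.al I.hal (I.Usm.differentiable (by simp) x) hx
  apply h2
  have h3 : (starRingEnd ℂ) (ddr I.al I.U x) = 0 := by linear_combination h1
  simpa using h3

/-- `z₁`, `z₀`. -/
theorem exists_z (I : ID) (D : Uni I) : ∃ z1 z0 : V2 → ℂ, ContDiff ℝ (⊤ : ℕ∞) z1 ∧
    ContDiff ℝ (⊤ : ℕ∞) z0 ∧ Per z1 ∧ Per z0 ∧ (∀ h x, D.b 0 h x = z0 x + h * z1 x) ∧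
    (∀ x, dd (cj I.al) z1 x = -2 * ddr I.al (fun y => (I.mu y)⁻¹) x) ∧
    (∀ x, dd (cj I.al) z0 x = 2 * ddr I.al (fun y => (I.mu y)⁻¹ * I.U y) x) := by
  obtain ⟨c, hc, hp, hb⟩ := D.bHP 0
  have hb' : ∀ h x, D.b 0 h x = c 0 x + h * c 1 x := by
    intro h x
    rw [hb]
    simp [Finset.sum_range_succ]
    ring
  have hdd : ∀ (h : ℝ) (x : V2), dd (cj I.al) (D.b 0 h) x =
      dd (cj I.al) (c 0) x + h * dd (cj I.al) (c 1) x := by
    intro h x
    have h1 : D.b 0 h = fun y => c 0 y + (h : ℂ) * c 1 y := by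
      funext y
      rw [hb']
    rw [h1, dd_add _ ((hc 0).differentiable (by simp) x)
      (((hc 1).differentiable (by simp) x).const_mul _),
      dd_const_mul _ _ ((hc 1).differentiable (by simp) x)]
  have h0 : ∀ x, dd (cj I.al) (c 0) x = 2 * ddr I.al (fun y => (I.mu y)⁻¹ * I.U y) x := by
    intro x
    have h1 := hdd 0 x
    rw [D.db0, ddr_ell_lin] at h1
    push_cast at h1
    linear_combination -h1
  refine ⟨c 1, c 0, hc 1, hc 0, hp 1, hp 0, hb', ?_, h0⟩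
  intro x
  have h1 := hdd 1 x
  rw [D.db0, ddr_ell_lin, h0] at h1
  push_cast at h1
  linear_combination -h1

theorem AF_ev (I : ID) (D : Uni I) (c : V2 → ℂ)
    (hc : ∀ x, fderiv ℝ I.U x ≠ 0 → AF I D x (c x)) (x : V2) (hx : fderiv ℝ I.U x ≠ 0) :
    ∀ᶠ y in 𝓝 x, AF I D y (c y) := by
  have h1 : IsOpen {y : V2 | fderiv ℝ I.U y ≠ 0} :=
    isOpen_ne_fun (I.Usm.continuous_fderiv (by simp)) continuous_const
  filter_upwards [h1.mem_nhds hx] with y hy
  exact hc y hy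

/-- `θ` is smooth and periodic on `O`. -/
theorem theta_smooth (I : ID) (D : Uni I) (c : V2 → ℂ)
    (hc : ∀ x, fderiv ℝ I.U x ≠ 0 → AF I D x (c x)) (x : V2) (hx : fderiv ℝ I.U x ≠ 0) :
    Sm c x := by
  obtain ⟨h, hh⟩ : ∃ h, h = I.U x := ⟨_, rfl⟩
  have hne : ddr (cj I.al) (I.ell h) x ≠ 0 := by
    rw [hh]
    exact ddr_cj_ell_U_ne I x hx
  have hA : Sm (D.A 0 h) x := by
    obtain ⟨a, ha, -, hb⟩ := D.AHP 0
    have h1 : D.A 0 h = fun y => ∑ k ∈ Finset.range (0 + 1 + 1), a k y * (h : ℂ) ^ k := by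
      funext y
      exact hb h y
    rw [h1]
    exact Sm.of (ContDiff.sum fun k _ => (ha k).mul contDiff_const) x
  have hE : Sm (ddr (cj I.al) (I.ell h)) x := Sm.of (ddr_smooth _ (I.ell_smooth h)) x
  have h2 : Sm (fun y => D.A 0 h y / (-2 * ddr (cj I.al) (I.ell h) y)) x :=
    hA.div ((Sm.const (-2) x).mul hE) (mul_ne_zero (by norm_num) hne)
  refine h2.congr ?_
  filter_upwards [AF_ev I D c hc x hx, hE.cd.continuousAt.eventually_ne hne] with y h3 h4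
  show c y = D.A 0 h y / (-2 * ddr (cj I.al) (I.ell h) y)
  rw [(h3 h).1, eq_div_iff (mul_ne_zero (by norm_num) h4)]
  ring

theorem theta_per (I : ID) (D : Uni I) (c : V2 → ℂ)
    (hc : ∀ x, fderiv ℝ I.U x ≠ 0 → AF I D x (c x)) (x : V2) (hx : fderiv ℝ I.U x ≠ 0)
    (k : Fin 2 → ℤ) : c (x + fun i => (k i : ℝ)) = c x := by
  have hx' : fderiv ℝ I.U (x + fun i => (k i : ℝ)) ≠ 0 := by
    rw [EndE_fderiv_shift I.U _ (fun y => I.Uper y k)]
    exact hx
  have h1 := (hc _ hx' (I.U x)).1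
  have h2 := (hc x hx (I.U x)).1
  have h3 : D.A 0 (I.U x) (x + fun i => (k i : ℝ)) = D.A 0 (I.U x) x := by
    obtain ⟨a, -, hp, hb⟩ := D.AHP 0
    rw [hb, hb]
    exact Finset.sum_congr rfl fun j _ => by rw [hp j x k]
  have h4 : ddr (cj I.al) (I.ell (I.U x)) (x + fun i => (k i : ℝ)) =
      ddr (cj I.al) (I.ell (I.U x)) x := ddr_per _ (I.ell_per _) x k
  rw [h3, h4, h2] at h1
  have hne := ddr_cj_ell_U_ne I x hx
  have h5 : (-2 : ℂ) * ddr (cj I.al) (I.ell (I.U x)) x * (c (x + fun i => (k i : ℝ)) - c x) = 0 := by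
    linear_combination -h1
  exact sub_eq_zero.1 ((mul_eq_zero.1 h5).resolve_left (mul_ne_zero (by norm_num) hne))

/-- **`dθ = 0` on `O`.** -/
theorem theta_const (I : ID) (D : Uni I) (c : V2 → ℂ)
    (hc : ∀ x, fderiv ℝ I.U x ≠ 0 → AF I D x (c x)) (x : V2) (hx : fderiv ℝ I.U x ≠ 0) :
    ∀ᶠ y in 𝓝 x, c y = c x := by
  have hrho : ContDiff ℝ (⊤ : ℕ∞) (fun y => (I.mu y)⁻¹) := I.musm.inv fun x => (I.mupos x).ne'
  have key : ∀ y, fderiv ℝ I.U y ≠ 0 →
      dd (cj I.al) c y * ddr I.al I.U y = dd I.al c y * ddr (cj I.al) I.U y ∧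
      dd I.al c y * ddr I.al I.U y = c y * dd (cj I.al) c y * ddr (cj I.al) I.U y := by
    intro y hy
    have hθ := theta_smooth I D c hc y hy
    refine wedge_affine I.al y I.U (fun y => (I.mu y)⁻¹) I.Usm hrho
      (inv_ne_zero (I.mupos y).ne') (dd I.al c y) (dd (cj I.al) c y) (c y) (I.U y + 1) (I.U y + 2)
      (by linarith) ?_
    intro h hh
    have hl0 : (I.ell h y : ℂ) ≠ 0 := by
      have : I.ell h y ≠ 0 := by
        unfold ID.ell
        apply div_ne_zero _ (I.mupos y).ne'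
        rcases hh with hh | hh <;> rw [hh] <;> norm_num
      exact_mod_cast this
    rw [← ell_eq I h]
    have hbs : ∀ j, Sm (D.b j h) y := by
      intro j
      obtain ⟨a, ha, -, hb⟩ := D.bHP j
      have h1 : D.b j h = fun y => ∑ k ∈ Finset.range (j + 1 + 1), a k y * (h : ℂ) ^ k := by
        funext y
        exact hb h y
      rw [h1]
      exact Sm.of (ContDiff.sum fun k _ => (ha k).mul contDiff_const) y
    have hl : Sm (fun z => (I.ell h z : ℂ)) y :=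
      Sm.of (Complex.ofRealCLM.contDiff.comp (I.ell_smooth h)) y
    have hev := AF_ev I D c hc y hy
    refine wedge I.al y c (fun z => (I.ell h z : ℂ)) (D.b 0 h) (D.b 1 h) (D.b 2 h) hθ hl (hbs 0)
      (hbs 1) (hbs 2) ?_ ?_ ?_ ?_ ?_ ?_ hl0
    · filter_upwards [hev] with z hz
      rw [← D.A0]
      exact (hz h).1
    · exact Eventually.of_forall fun z => D.db0 h z
    · filter_upwards [hev] with z hz
      rw [← D.A1]
      exact (hz h).2.1
    · refine Eventually.of_forall fun z => ?_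
      have h1 := D.dbs 0 h z
      simp only [Nat.cast_zero, mul_zero, zero_mul, add_zero] at h1
      exact h1
    · filter_upwards [hev] with z hz
      rw [← D.A0, ← D.A2, (hz h).2.2, (hz h).1]
      show c z * (I.ell h z : ℂ) ^ 2 * (-2 * c z * ddr (cj I.al) (I.ell h) z) =
        -2 * c z ^ 2 * (I.ell h z : ℂ) ^ 2 * ddr (cj I.al) (I.ell h) z
      ring
    · refine Eventually.of_forall fun z => ?_
      have h1 := D.dbs 1 h z
      simp only [Nat.cast_one, mul_one] at h1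
      exact h1
  have hO : IsOpen {y : V2 | fderiv ℝ I.U y ≠ 0} :=
    isOpen_ne_fun (I.Usm.continuous_fderiv (by simp)) continuous_const
  have hz := dtheta_zero I.al I.hal I.U I.Usm I.Uper c (theta_smooth I D c hc)
    (theta_per I D c hc) (fun y hy => (key y hy).1) (fun y hy => (key y hy).2)
  obtain ⟨r, hr, hball⟩ := Metric.isOpen_iff.1 hO x hx
  filter_upwards [Metric.ball_mem_nhds x hr] with y hy
  exact Metric.isOpen_ball.is_const_of_fderiv_eq_zero (𝕜 := ℝ)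
    (convex_ball x r).isPreconnected
    (fun s hs => (theta_smooth I D c hc s (hball hs)).diff.differentiableWithinAt)
    (fun s hs => hz s (hball hs)) hy (Metric.mem_ball_self hr)

/-- The local constants. -/
theorem local_FF (I : ID) (D : Uni I)
    (hA : ∀ x, fderiv ℝ I.U x ≠ 0 → ∃ c : ℂ, ‖c‖ = 1 ∧ AF I D x c) (z1 z0 : V2 → ℂ)
    (hz1 : ContDiff ℝ (⊤ : ℕ∞) z1) (hz0 : ContDiff ℝ (⊤ : ℕ∞) z0)
    (hb : ∀ h x, D.b 0 h x = z0 x + h * z1 x) (x : V2) (hx : fderiv ℝ I.U x ≠ 0) :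
    ∃ c : ℂ, ‖c‖ = 1 ∧ ∀ᶠ y in 𝓝 x, AF I D y c ∧
      FF I.al (fun y => (I.mu y)⁻¹) (fun y => (I.mu y)⁻¹ * I.U y) z1 z0 c y := by
  classical
  obtain ⟨c, hcdef⟩ : ∃ c : V2 → ℂ, ∀ x, (h : fderiv ℝ I.U x ≠ 0) → ‖c x‖ = 1 ∧ AF I D x (c x) := by
    refine ⟨fun x => if h : fderiv ℝ I.U x ≠ 0 then (hA x h).choose else 1, fun x h => ?_⟩
    simp only [h, ne_eq, not_false_eq_true, dite_true]
    exact (hA x h).choose_spec
  have hc : ∀ x, fderiv ℝ I.U x ≠ 0 → AF I D x (c x) := fun x h => (hcdef x h).2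
  refine ⟨c x, (hcdef x hx).1, ?_⟩
  filter_upwards [theta_const I D c hc x hx, AF_ev I D c hc x hx] with y h1 h2
  rw [h1] at h2
  refine ⟨h2, ?_⟩
  have hdd : ∀ h : ℝ, dd I.al z0 y + h * dd I.al z1 y = -2 * c x *
      ((h : ℂ) * ddr (cj I.al) (fun y => (I.mu y)⁻¹) y -
        ddr (cj I.al) (fun y => (I.mu y)⁻¹ * I.U y) y) := by
    intro h
    have h3 := (h2 h).1
    rw [D.A0, ddr_ell_lin] at h3
    rw [← h3]
    have h4 : D.b 0 h = fun y => z0 y + (h : ℂ) * z1 y := by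
      funext y
      rw [hb]
    rw [h4, dd_add _ (hz0.differentiable (by simp) y)
      ((hz1.differentiable (by simp) y).const_mul _),
      dd_const_mul _ _ (hz1.differentiable (by simp) y)]
  have k0 := hdd 0
  have k1 := hdd 1
  push_cast at k0 k1
  constructor
  · linear_combination k1 - k0
  · linear_combination k0

/-- **Part (ii) for dense `{dU ≠ 0}`** from the local formulas. -/
theorem quad_of_AF (I : ID) (D : Uni I) (G : Matrix (Fin 2) (Fin 2) ℝ) (hG : G.PosDef)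
    (hal2 : ∀ i j, ((G i j : ℝ) : ℂ)
      = I.al i * (starRingEnd ℂ) (I.al j) + I.al j * (starRingEnd ℂ) (I.al i))
    (hA : ∀ x, fderiv ℝ I.U x ≠ 0 → ∃ c : ℂ, ‖c‖ = 1 ∧ AF I D x c)
    (hdense : Dense {x | fderiv ℝ I.U x ≠ 0}) :
    ∃ F : (Fin 2 → ℝ) → MvPolynomial (Fin 2) ℝ,
      Pool.Agent.U4b.IsInt (Pool.Agent.U4b.Ham (fun x => I.mu x • G) I.U) F ∧
      (∀ x, (F x).totalDegree ≤ 2) ∧
      ¬ ∃ q : Polynomial ℝ, ∀ x p, MvPolynomial.eval p (F x) =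
        q.eval (Pool.Agent.U4b.Ham (fun x => I.mu x • G) I.U x p) := by
  obtain ⟨z1, z0, hz1, hz0, hp1, hp0, hb, e1, e0⟩ := exists_z I D
  have hrho : ContDiff ℝ (⊤ : ℕ∞) (fun y => (I.mu y)⁻¹) := I.musm.inv fun x => (I.mupos x).ne'
  obtain ⟨c, hc1, hc⟩ := glue I.al I.hal hrho (fun x => inv_ne_zero (I.mupos x).ne') I.Usm hz1 hz0
    e1 e0 (fun x hx => by
      obtain ⟨c, hc1, hc⟩ := local_FF I D hA z1 z0 hz1 hz0 hb x hx
      exact ⟨c, hc1, hc.mono fun y hy => hy.2⟩) hdense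
  exact final_quad G hG I.al I.hal hal2 I.musm (fun x => (I.mupos x).ne') I.Usm I.muper I.Uper
    hz1 hz0 hp1 hp0 e1 e0 c hc1 hc

end Pool.W4b1b5d.H63
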