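import Pool.Agent.W_4b1b5d_h3.BetaA
import Pool.Agent.W_4b1b5d_h3.Lines
import Pool.Agent.W_4b1b5d_h3.Liou

/-!
# Calculus of the operators `dd`

Local versions (at a point) of the rules for `dd a`, for functions smooth near the point.
-/

set_option autoImplicit false

open Filter Topology
open Pool.W4b1b5d.H3

namespace Pool.W4b1b5d.H63

/-- smoothness near a point -/
def Sm (f : V2 → ℂ) (x : V2) : Prop := ∀ᶠ y in 𝓝 x, ContDiffAt ℝ (⊤ : ℕ∞) f y

theorem Sm.cd {f : V2 → ℂ} {x : V2} (h : Sm f x) : ContDiffAt ℝ (⊤ : ℕ∞) f x := h.self_of_nhds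

theorem Sm.diff {f : V2 → ℂ} {x : V2} (h : Sm f x) : DifferentiableAt ℝ f x :=
  h.cd.differentiableAt (by simp)

theorem Sm.ev {f : V2 → ℂ} {x : V2} (h : Sm f x) : ∀ᶠ y in 𝓝 x, Sm f y :=
  h.eventually_nhds

theorem Sm.of {f : V2 → ℂ} (h : ContDiff ℝ (⊤ : ℕ∞) f) (x : V2) : Sm f x :=
  Eventually.of_forall fun _ => h.contDiffAt

theorem Sm.of_on {f : V2 → ℂ} {S : Set V2} (hS : IsOpen S) (h : ContDiffOn ℝ (⊤ : ℕ∞) f S) {x : V2}
    (hx : x ∈ S) : Sm f x := by
  filter_upwards [hS.mem_nhds hx] with y hy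
  exact h.contDiffAt (hS.mem_nhds hy)

theorem Sm.dd {f : V2 → ℂ} {x : V2} (h : Sm f x) (a : Fin 2 → ℂ) : Sm (dd a f) x := by
  unfold Sm H3.dd
  filter_upwards [h] with y hy
  refine ContDiffAt.sum fun i _ => contDiffAt_const.mul ?_
  exact ContDiffAt.clm_apply (hy.fderiv_right (m := (⊤ : ℕ∞)) (by simp)) contDiffAt_const

theorem Sm.mul {f g : V2 → ℂ} {x : V2} (hf : Sm f x) (hg : Sm g x) :
    Sm (fun y => f y * g y) x := by
  filter_upwards [hf, hg] with y h1 h2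
  exact ContDiffAt.mul h1 h2

theorem Sm.add {f g : V2 → ℂ} {x : V2} (hf : Sm f x) (hg : Sm g x) :
    Sm (fun y => f y + g y) x := by
  filter_upwards [hf, hg] with y h1 h2
  exact ContDiffAt.add h1 h2

theorem Sm.neg {f : V2 → ℂ} {x : V2} (hf : Sm f x) : Sm (fun y => -f y) x := by
  filter_upwards [hf] with y h1
  exact ContDiffAt.neg h1

theorem Sm.sub {f g : V2 → ℂ} {x : V2} (hf : Sm f x) (hg : Sm g x) :
    Sm (fun y => f y - g y) x := by
  filter_upwards [hf, hg] with y h1 h2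
  exact ContDiffAt.sub h1 h2

theorem Sm.const (c : ℂ) (x : V2) : Sm (fun _ => c) x := Sm.of contDiff_const x

theorem Sm.pow {f : V2 → ℂ} {x : V2} (hf : Sm f x) (k : ℕ) : Sm (fun y => f y ^ k) x := by
  filter_upwards [hf] with y h1
  exact ContDiffAt.pow h1 k

theorem Sm.conj {f : V2 → ℂ} {x : V2} (hf : Sm f x) :
    Sm (fun y => (starRingEnd ℂ) (f y)) x := by
  filter_upwards [hf] with y h1
  exact (Complex.conjCLE : ℂ →L[ℝ] ℂ).contDiff.contDiffAt.comp y h1

theorem Sm.inv {f : V2 → ℂ} {x : V2} (hf : Sm f x) (h : f x ≠ 0) : Sm (fun y => (f y)⁻¹) x := by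
  filter_upwards [hf, hf.cd.continuousAt.eventually_ne h] with y h1 h2
  exact ContDiffAt.inv h1 h2

theorem Sm.div {f g : V2 → ℂ} {x : V2} (hf : Sm f x) (hg : Sm g x) (h : g x ≠ 0) :
    Sm (fun y => f y / g y) x := by
  have h1 : (fun y => f y / g y) = fun y => f y * (g y)⁻¹ := by
    funext y
    exact div_eq_mul_inv _ _
  rw [h1]
  exact hf.mul (hg.inv h)

theorem Sm.congr {f g : V2 → ℂ} {x : V2} (hf : Sm f x) (h : g =ᶠ[𝓝 x] f) : Sm g x := by
  filter_upwards [hf, h.eventuallyEq_nhds] with y h1 h2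
  exact h1.congr_of_eventuallyEq h2

theorem dd_congr {a : Fin 2 → ℂ} {f g : V2 → ℂ} {x : V2} (h : f =ᶠ[𝓝 x] g) :
    dd a f x = dd a g x := by
  unfold H3.dd
  rw [h.fderiv_eq]

theorem dd_congr' {a : Fin 2 → ℂ} {f g : V2 → ℂ} {x : V2} (h : f =ᶠ[𝓝 x] g) :
    dd a f =ᶠ[𝓝 x] dd a g := by
  filter_upwards [h.eventuallyEq_nhds] with y hy
  exact dd_congr hy

theorem dd_const (a : Fin 2 → ℂ) (c : ℂ) (x : V2) : dd a (fun _ => c) x = 0 := BetaA_const a c x

theorem dd_neg (a : Fin 2 → ℂ) (f : V2 → ℂ) (x : V2) :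
    dd a (fun y => -f y) x = -dd a f x := by
  unfold H3.dd
  rw [show (fun y => -f y) = -f from rfl, fderiv_neg, ← Finset.sum_neg_distrib]
  exact Finset.sum_congr rfl fun i _ => by simp

theorem dd_sub (a : Fin 2 → ℂ) {f g : V2 → ℂ} {x : V2} (hf : DifferentiableAt ℝ f x)
    (hg : DifferentiableAt ℝ g x) : dd a (fun y => f y - g y) x = dd a f x - dd a g x := by
  have h1 : (fun y => f y - g y) = fun y => f y + -g y := by
    funext y
    exact sub_eq_add_neg _ _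
  rw [h1, dd_add a hf hg.fun_neg, dd_neg, sub_eq_add_neg]

theorem dd_const_mul (a : Fin 2 → ℂ) (c : ℂ) {f : V2 → ℂ} {x : V2} (hf : DifferentiableAt ℝ f x) :
    dd a (fun y => c * f y) x = c * dd a f x := by
  rw [dd_mul a (differentiableAt_const c) hf, dd_const]
  ring

/-- The operators `dd a`, `dd b` commute. -/
theorem dd_comm (a b : Fin 2 → ℂ) {f : V2 → ℂ} {x : V2} (hf : Sm f x) :
    dd a (dd b f) x = dd b (dd a f) x := by
  have hd : DifferentiableAt ℝ (fderiv ℝ f) x :=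
    (hf.cd.fderiv_right (m := (⊤ : ℕ∞)) (by simp)).differentiableAt (by simp)
  have hs := hf.cd.isSymmSndFDerivAt (by simpa using Lines_two_le)
  have key : ∀ (c : Fin 2 → ℂ) (v : V2), fderiv ℝ (dd c f) x v =
      ∑ i, c i * fderiv ℝ (fderiv ℝ f) x v (Pi.single i 1) := by
    intro c v
    have h1 : HasFDerivAt (dd c f)
        (∑ i, c i • (fderiv ℝ (fderiv ℝ f) x).flip (Pi.single i 1)) x := by
      unfold H3.dd
      refine HasFDerivAt.fun_sum fun i _ => ?_
      have h2 : HasFDerivAt (fun y => fderiv ℝ f y (Pi.single i 1))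
          ((fderiv ℝ (fderiv ℝ f) x).flip (Pi.single i 1)) x := by
        simpa using hd.hasFDerivAt.clm_apply (hasFDerivAt_const (Pi.single i (1 : ℝ) : V2) x)
      exact h2.const_mul (c i)
    rw [h1.fderiv]
    simp
  have h1 : ∀ c e : Fin 2 → ℂ, dd c (dd e f) x =
      ∑ i, ∑ j, c i * e j * fderiv ℝ (fderiv ℝ f) x (Pi.single i 1) (Pi.single j 1) := by
    intro c e
    rw [show dd c (dd e f) x = ∑ i, c i * fderiv ℝ (dd e f) x (Pi.single i 1) from rfl]
    refine Finset.sum_congr rfl fun i _ => ?_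
    rw [key, Finset.mul_sum]
    exact Finset.sum_congr rfl fun j _ => by ring
  rw [h1, h1, Finset.sum_comm]
  refine Finset.sum_congr rfl fun j _ => Finset.sum_congr rfl fun i _ => ?_
  rw [hs.eq]
  ring

/-- The derivative of a complex function in terms of `dd al` and `dd (cj al)`. -/
theorem fderiv_zero_of_dd (al : Fin 2 → ℂ) (hal : ((starRingEnd ℂ) (al 0) * al 1).im ≠ 0)
    {f : V2 → ℂ} {x : V2} (hf : DifferentiableAt ℝ f x) (h1 : dd al f x = 0)
    (h2 : dd (cj al) f x = 0) : fderiv ℝ f x = 0 := by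
  ext1 v
  obtain ⟨lam, -, hlam⟩ := dir_decomp al hal v
  rw [hlam f x hf, h1, h2]
  simp

/-- A real function whose `ddr al` derivative vanishes at `x` is critical at `x`. -/
theorem fderiv_zero_of_ddr (al : Fin 2 → ℂ) (hal : ((starRingEnd ℂ) (al 0) * al 1).im ≠ 0)
    {g : V2 → ℝ} {x : V2} (hg : DifferentiableAt ℝ g x) (h1 : ddr al g x = 0) :
    fderiv ℝ g x = 0 := by
  have h2 : ddr (cj al) g x = 0 := by
    rw [ddr_conj al hg, h1, map_zero]
  have h3 : fderiv ℝ (fun y => (g y : ℂ)) x = 0 :=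
    fderiv_zero_of_dd al hal ((Complex.ofRealCLM.differentiableAt).comp x hg) h1 h2
  ext1 v
  have h4 := BetaA_ofReal hg v
  rw [h3] at h4
  simpa using h4.symm

theorem ddr_ne_zero (al : Fin 2 → ℂ) (hal : ((starRingEnd ℂ) (al 0) * al 1).im ≠ 0)
    {g : V2 → ℝ} {x : V2} (hg : DifferentiableAt ℝ g x) (h : fderiv ℝ g x ≠ 0) :
    ddr al g x ≠ 0 := fun h1 => h (fderiv_zero_of_ddr al hal hg h1)

/-- `dd` of a function at a shifted point. -/
theorem dd_per (a : Fin 2 → ℂ) {f : V2 → ℂ} (k : V2) (x : V2)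
    (h : ∀ᶠ y in 𝓝 x, f (y + k) = f y) : dd a f (x + k) = dd a f x := by
  unfold H3.dd
  have h1 : fderiv ℝ f (x + k) = fderiv ℝ (fun y => f (y + k)) x :=
    (fderiv_comp_add_right k).symm
  have h2 : (fun y => f (y + k)) =ᶠ[𝓝 x] f := h
  rw [h1, h2.fderiv_eq]

end Pool.W4b1b5d.H63
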