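import Pool.Agent.W_4b1b5d_h63.Calc

/-!
# `dθ = 0` on `O = {dU ≠ 0}`

Let `|θ| = 1` on `O`, `db θ * dd U = dd θ * db U`, `dd θ * dd U = θ * db θ * db U` on `O`, everything
periodic.  Then `dθ = 0` on `O`.

Proof.  Put `w = dd U`, `wb = db U = conj w`, `τ = dd θ / w` on `O`, so `dd θ = τ w`, `db θ = τ wb`, and
`dd τ * wb = db τ * w` (`dd`, `db` commute).  The function
`Φ = |w|² |τ|² / (1 + |τ|²) = |w|² |dd θ|² / (|w|² + |dd θ|²)` on `O`, `Φ = 0` outside of `O`, is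
continuous and periodic, so it has a maximum at a point `x`.  If `dθ ≠ 0` somewhere, `Φ(x) > 0`, hence
`x ∈ O`, `τ(x) ≠ 0`.  The derivation `D = wb dd - w db` (the derivative along the level line of `U`)
kills `τ` and `conj τ`, so `0 = DΦ = |τ|²/(1+|τ|²) D(w wb)` at `x`, i.e. with `a = dd w`:
`a wb² = conj a w²`.  But near `x`, `θ = (w/wb)²`, and `db θ * w = dd θ * wb` gives
`a wb² + conj a w² = 2 (dd wb) w wb`; so `a wb = (dd wb) w` and `dd θ = 2 w (a wb - (dd wb) w)/wb³ = 0` at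
`x`, a contradiction.
-/

set_option autoImplicit false

open Filter Topology
open Pool.W4b1b5d.H3

namespace Pool.W4b1b5d.H63

/-- A continuous periodic real function has a maximum. -/
theorem exists_max {g : V2 → ℝ} (hg : Continuous g) (hper : Per g) : ∃ x, ∀ y, g y ≤ g x := by
  have hK : IsCompact (Set.Icc (0 : V2) 1) := isCompact_Icc
  obtain ⟨x, -, hx⟩ := hK.exists_isMaxOn ⟨0, by simp⟩ hg.continuousOn
  refine ⟨x, fun y => ?_⟩
  have h1 : g y = g (fun i => Int.fract (y i)) := by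
    have h2 := hper (fun i => Int.fract (y i)) (fun i => ⌊y i⌋)
    rw [← h2]
    congr 1
    funext i
    exact (Int.fract_add_floor (y i)).symm
  rw [h1]
  exact hx ⟨fun i => Int.fract_nonneg _, fun i => (Int.fract_lt_one _).le⟩

theorem ddr_smooth (a : Fin 2 → ℂ) {g : V2 → ℝ} (hg : ContDiff ℝ (⊤ : ℕ∞) g) :
    ContDiff ℝ (⊤ : ℕ∞) (ddr a g) := by
  have h1 : ContDiff ℝ (⊤ : ℕ∞) (fun y => (g y : ℂ)) := Complex.ofRealCLM.contDiff.comp hg
  show ContDiff ℝ (⊤ : ℕ∞) (dd a fun y => (g y : ℂ))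
  unfold H3.dd
  refine ContDiff.sum fun i _ => contDiff_const.mul ?_
  exact (h1.fderiv_right (m := (⊤ : ℕ∞)) (by simp)).clm_apply contDiff_const

theorem dd_per' (a : Fin 2 → ℂ) {f : V2 → ℂ} (h : Per f) : Per (dd a f) := fun x k =>
  dd_per a _ x (Eventually.of_forall fun y => h y k)

theorem ddr_per (a : Fin 2 → ℂ) {g : V2 → ℝ} (h : Per g) : Per (ddr a g) :=
  dd_per' a (f := fun y => (g y : ℂ)) fun x k => by
    show ((g _ : ℝ) : ℂ) = _
    rw [h x k]

/-- The algebra at the maximum. -/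
theorem DTheta_alg (w wb a a' b p : ℂ) (hw : w ≠ 0) (hwb : wb ≠ 0)
    (h1 : a * wb ^ 2 = a' * w ^ 2) (h2 : p * wb ^ 3 = 2 * w * (a * wb - w * b))
    (h3 : p * wb ^ 5 = 2 * w ^ 2 * (b * wb - w * a') * wb) : p = 0 := by
  have e1 : 2 * w * wb ^ 2 * (a * wb - w * b) = 2 * w ^ 2 * wb * (b * wb - w * a') := by
    linear_combination h3 - wb ^ 2 * h2
  have e2 : 4 * w * wb ^ 2 * (a * wb - w * b) = 0 := by
    linear_combination e1 + 2 * w * wb * h1
  have e3 : a * wb - w * b = 0 := by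
    have : (4 : ℂ) * w * wb ^ 2 ≠ 0 := by
      simp [hw, hwb]
    exact (mul_eq_zero.1 e2).resolve_left this
  rw [e3, mul_zero] at h2
  exact (mul_eq_zero.1 h2).resolve_right (pow_ne_zero 3 hwb)

theorem dtheta_zero (al : Fin 2 → ℂ) (hal : ((starRingEnd ℂ) (al 0) * al 1).im ≠ 0) (U : V2 → ℝ)
    (hU : ContDiff ℝ (⊤ : ℕ∞) U) (hUper : Per U) (θ : V2 → ℂ)
    (hθ : ∀ x, fderiv ℝ U x ≠ 0 → Sm θ x)
    (hθper : ∀ x, fderiv ℝ U x ≠ 0 → ∀ k : Fin 2 → ℤ, θ (x + fun i => (k i : ℝ)) = θ x)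
    (h1 : ∀ x, fderiv ℝ U x ≠ 0 →
      dd (cj al) θ x * ddr al U x = dd al θ x * ddr (cj al) U x)
    (h2 : ∀ x, fderiv ℝ U x ≠ 0 →
      dd al θ x * ddr al U x = θ x * dd (cj al) θ x * ddr (cj al) U x) :
    ∀ x, fderiv ℝ U x ≠ 0 → fderiv ℝ θ x = 0 := by
  obtain ⟨w, hw⟩ : ∃ w, w = ddr al U := ⟨_, rfl⟩
  obtain ⟨wb, hwb⟩ : ∃ wb, wb = ddr (cj al) U := ⟨_, rfl⟩
  have hUd : Differentiable ℝ U := hU.differentiable (by simp)
  have hwsm : ContDiff ℝ (⊤ : ℕ∞) w := hw ▸ ddr_smooth al hU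
  have hwbsm : ContDiff ℝ (⊤ : ℕ∞) wb := hwb ▸ ddr_smooth (cj al) hU
  have hconj : ∀ x, wb x = (starRingEnd ℂ) (w x) := fun x => by
    rw [hw, hwb]
    exact ddr_conj al (hUd x)
  have hwne : ∀ x, fderiv ℝ U x ≠ 0 → w x ≠ 0 := fun x hx => by
    rw [hw]
    exact ddr_ne_zero al hal (hUd x) hx
  have hOiff : ∀ x, fderiv ℝ U x ≠ 0 ↔ w x ≠ 0 := fun x => by
    refine ⟨hwne x, fun h h' => h ?_⟩
    rw [hw]
    unfold ddr H3.dd
    simp only [BetaA_ofReal (hUd x), h']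
    simp
  have hOopen : IsOpen {x | w x ≠ 0} := isOpen_ne_fun hwsm.continuous continuous_const
  have hOev : ∀ x, w x ≠ 0 → ∀ᶠ y in 𝓝 x, w y ≠ 0 := fun x hx => hOopen.mem_nhds hx
  simp only [hOiff, ← hw, ← hwb] at hθ hθper h1 h2 ⊢
  have hwb0 : ∀ x, w x ≠ 0 → wb x ≠ 0 := fun x hx => by
    rw [hconj]
    simpa using hx
  -- mixed derivative
  have hUs : ∀ x, Sm (fun y => (U y : ℂ)) x := fun x =>
    Sm.of (Complex.ofRealCLM.contDiff.comp hU) x
  have hmix : ∀ x, dd al wb x = dd (cj al) w x := fun x => by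
    rw [hw, hwb]
    exact dd_comm al (cj al) (hUs x)
  obtain ⟨p, hp⟩ : ∃ p, p = dd al θ := ⟨_, rfl⟩
  rw [← hp] at h1 h2
  by_contra hcon
  push Not at hcon
  obtain ⟨x1, hx1, hx1'⟩ := hcon
  have hpx1 : p x1 ≠ 0 := by
    intro h0
    apply hx1'
    apply fderiv_zero_of_dd al hal (hθ x1 hx1).diff
    · rw [← hp]
      exact h0
    · have h3 := h1 x1 hx1
      rw [h0, zero_mul] at h3
      exact (mul_eq_zero.1 h3).resolve_right hx1
  -- the function `Φ`
  obtain ⟨Φ, hΦ⟩ : ∃ Φ : V2 → ℝ, Φ = fun x => if w x ≠ 0 then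
      ‖w x‖ ^ 2 * ‖p x‖ ^ 2 / (‖w x‖ ^ 2 + ‖p x‖ ^ 2) else 0 := ⟨_, rfl⟩
  have hΦ1 : ∀ x, w x ≠ 0 → Φ x = ‖w x‖ ^ 2 * ‖p x‖ ^ 2 / (‖w x‖ ^ 2 + ‖p x‖ ^ 2) := fun x hx => by
    rw [hΦ]
    exact if_pos hx
  have hΦ0 : ∀ x, 0 ≤ Φ x := fun x => by
    by_cases hx : w x ≠ 0
    · rw [hΦ1 x hx]
      positivity
    · rw [hΦ]
      exact (if_neg hx).ge
  have hΦb : ∀ x, Φ x ≤ ‖w x‖ ^ 2 := fun x => by
    by_cases hx : w x ≠ 0
    · rw [hΦ1 x hx]
      have h3 : 0 < ‖w x‖ := norm_pos_iff.2 hx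
      rw [div_le_iff₀ (by positivity)]
      nlinarith [sq_nonneg (‖w x‖), sq_nonneg (‖p x‖), sq_nonneg (‖w x‖ ^ 2)]
    · rw [hΦ]
      show (if w x ≠ 0 then _ else 0) ≤ _
      rw [if_neg hx]
      positivity
  have hpcont : ∀ x, w x ≠ 0 → ContinuousAt p x := fun x hx => by
    rw [hp]
    exact ((hθ x hx).dd al).cd.continuousAt
  have hΦcont : Continuous Φ := by
    rw [continuous_iff_continuousAt]
    intro x
    by_cases hx : w x ≠ 0
    · have h3 : ContinuousAt (fun x => ‖w x‖ ^ 2 * ‖p x‖ ^ 2 / (‖w x‖ ^ 2 + ‖p x‖ ^ 2)) x := by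
        have h4 := (hpcont x hx).norm.pow 2
        have h5 := hwsm.continuous.continuousAt (x := x) |>.norm.pow 2
        refine (h5.mul h4).div (h5.add h4) ?_
        have h3 : 0 < ‖w x‖ := norm_pos_iff.2 hx
        positivity
      refine h3.congr ?_
      filter_upwards [hOev x hx] with y hy
      exact (hΦ1 y hy).symm
    · have hx0 : w x = 0 := not_not.1 hx
      have h4 : Φ x = 0 := le_antisymm (by simpa [hx0] using hΦb x) (hΦ0 x)
      rw [ContinuousAt, h4]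
      have h5 : Tendsto (fun y => ‖w y‖ ^ 2) (𝓝 x) (𝓝 0) := by
        have h6 : Tendsto (fun y => ‖w y‖ ^ 2) (𝓝 x) (𝓝 (‖w x‖ ^ 2)) :=
          (hwsm.continuous.norm.pow 2).tendsto x
        rw [hx0] at h6
        simpa using h6
      exact squeeze_zero hΦ0 hΦb h5
  have hwper : Per w := hw ▸ ddr_per al hUper
  have hΦper : Per Φ := by
    intro x k
    by_cases hx : w x ≠ 0
    · have hx' : w (x + fun i => (k i : ℝ)) ≠ 0 := by
        rw [hwper x k]
        exact hx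
      rw [hΦ1 x hx, hΦ1 _ hx', hwper x k]
      have h3 : p (x + fun i => (k i : ℝ)) = p x := by
        rw [hp]
        apply dd_per
        filter_upwards [hOev x hx] with y hy
        exact hθper y hy k
      rw [h3]
    · have hx' : ¬ w (x + fun i => (k i : ℝ)) ≠ 0 := by
        rw [hwper x k]
        exact hx
      rw [hΦ]
      show (if w _ ≠ 0 then _ else 0) = (if w x ≠ 0 then _ else 0)
      rw [if_neg hx, if_neg hx']
  obtain ⟨x, hx⟩ := exists_max hΦcont hΦper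
  have hpos : 0 < Φ x := by
    refine lt_of_lt_of_le ?_ (hx x1)
    rw [hΦ1 x1 hx1]
    have h3 : 0 < ‖w x1‖ := norm_pos_iff.2 hx1
    have h4 : 0 < ‖p x1‖ := norm_pos_iff.2 hpx1
    positivity
  have hwx : w x ≠ 0 := by
    intro h0
    have := hΦb x
    rw [h0] at this
    simp at this
    linarith
  have hpx : p x ≠ 0 := by
    intro h0
    rw [hΦ1 x hwx, h0] at hpos
    simp at hpos
  -- `τ`
  obtain ⟨τ, hτ⟩ : ∃ τ : V2 → ℂ, τ = fun y => p y / w y := ⟨_, rfl⟩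
  have hws : ∀ y, Sm w y := Sm.of hwsm
  have hwbs : ∀ y, Sm wb y := Sm.of hwbsm
  have hps : ∀ y, w y ≠ 0 → Sm p y := fun y hy => by
    rw [hp]
    exact (hθ y hy).dd al
  have hτs : ∀ y, w y ≠ 0 → Sm τ y := fun y hy => by
    rw [hτ]
    exact (hps y hy).div (hws y) hy
  have hp1 : ∀ y, w y ≠ 0 → dd al θ y = τ y * w y := fun y hy => by
    rw [hτ, ← hp]
    show p y = p y / w y * w y
    field_simp
  have hp2 : ∀ y, w y ≠ 0 → dd (cj al) θ y = τ y * wb y := fun y hy => by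
    have h3 := h1 y hy
    rw [hp, hp1 y hy] at h3
    have h4 : (dd (cj al) θ y - τ y * wb y) * w y = 0 := by linear_combination h3
    exact sub_eq_zero.1 ((mul_eq_zero.1 h4).resolve_right hy)
  -- `D τ = 0`
  have hDτ : dd (cj al) τ x * w x = dd al τ x * wb x := by
    have e1 : dd (cj al) (dd al θ) x = dd (cj al) (fun y => τ y * w y) x :=
      dd_congr (by filter_upwards [hOev x hwx] with y hy; exact hp1 y hy)
    have e2 : dd al (dd (cj al) θ) x = dd al (fun y => τ y * wb y) x :=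
      dd_congr (by filter_upwards [hOev x hwx] with y hy; exact hp2 y hy)
    rw [dd_mul _ (hτs x hwx).diff (hws x).diff] at e1
    rw [dd_mul _ (hτs x hwx).diff (hwbs x).diff] at e2
    have e3 := dd_comm al (cj al) (hθ x hwx)
    rw [e1, e2, hmix x] at e3
    linear_combination -e3
  have hτc1 : dd al (fun y => (starRingEnd ℂ) (τ y)) x = (starRingEnd ℂ) (dd (cj al) τ x) := by
    have h3 := dd_conj (cj al) (hτs x hwx).diff
    have h4 : cj (cj al) = al := by
      funext i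
      simp [cj]
    rwa [h4] at h3
  have hτc2 : dd (cj al) (fun y => (starRingEnd ℂ) (τ y)) x = (starRingEnd ℂ) (dd al τ x) :=
    dd_conj al (hτs x hwx).diff
  have hwc : (starRingEnd ℂ) (wb x) = w x := by
    rw [hconj, Complex.conj_conj]
  have hDτc : dd (cj al) (fun y => (starRingEnd ℂ) (τ y)) x * w x =
      dd al (fun y => (starRingEnd ℂ) (τ y)) x * wb x := by
    rw [hτc1, hτc2]
    have h3 := congrArg (starRingEnd ℂ) hDτ
    rw [map_mul, map_mul, ← hconj, hwc] at h3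
    exact h3.symm
  -- the derivative of `Φ` at the maximum
  have hΦe : (fun y => (Φ y : ℂ) * (1 + τ y * (starRingEnd ℂ) (τ y))) =ᶠ[𝓝 x]
      fun y => (w y * wb y) * (τ y * (starRingEnd ℂ) (τ y)) := by
    filter_upwards [hOev x hwx] with y hy
    have h3 : 0 < ‖w y‖ := norm_pos_iff.2 hy
    have e1 : w y * wb y = ((‖w y‖ ^ 2 : ℝ) : ℂ) := by
      rw [hconj, Complex.mul_conj, Complex.normSq_eq_norm_sq]
    have e2 : τ y * (starRingEnd ℂ) (τ y) = ((‖p y‖ ^ 2 / ‖w y‖ ^ 2 : ℝ) : ℂ) := by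
      rw [Complex.mul_conj, Complex.normSq_eq_norm_sq, hτ]
      show (((‖p y / w y‖ ^ 2 : ℝ)) : ℂ) = _
      rw [norm_div, div_pow]
    rw [hΦ1 y hy, e1, e2]
    norm_cast
    field_simp
  have hΦd : DifferentiableAt ℝ (fun y => (Φ y : ℂ)) x := by
    have h3 : Sm (fun y => (w y * wb y) * (τ y * (starRingEnd ℂ) (τ y)) /
        (1 + τ y * (starRingEnd ℂ) (τ y))) x := by
      have h4 := (hτs x hwx).mul (hτs x hwx).conj
      refine (((hws x).mul (hwbs x)).mul h4).div ((Sm.const 1 x).add h4) ?_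
      show (1 : ℂ) + τ x * (starRingEnd ℂ) (τ x) ≠ 0
      rw [Complex.mul_conj]
      have h5 : (0 : ℝ) < 1 + Complex.normSq (τ x) := by
        have := Complex.normSq_nonneg (τ x)
        linarith
      exact_mod_cast h5.ne'
    refine (h3.congr ?_).diff
    filter_upwards [hΦe] with y hy
    have h5 : (1 : ℂ) + τ y * (starRingEnd ℂ) (τ y) ≠ 0 := by
      rw [Complex.mul_conj]
      have h5 : (0 : ℝ) < 1 + Complex.normSq (τ y) := by
        have := Complex.normSq_nonneg (τ y)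
        linarith
      exact_mod_cast h5.ne'
    rw [eq_div_iff h5]
    exact hy
  have hΦz : ∀ a : Fin 2 → ℂ, dd a (fun y => (Φ y : ℂ)) x = 0 := by
    have h3 : DifferentiableAt ℝ Φ x := by
      have := Complex.reCLM.differentiableAt.comp x hΦd
      exact this
    have h4 : fderiv ℝ Φ x = 0 := by
      have h5 : IsLocalMax Φ x := Eventually.of_forall hx
      exact h5.fderiv_eq_zero
    intro a
    unfold H3.dd
    simp only [BetaA_ofReal h3, h4]
    simp
  have hT := (hτs x hwx).mul (hτs x hwx).conj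
  have hT1 := (Sm.const 1 x).add hT
  have hW := (hws x).mul (hwbs x)
  have key : ∀ a : Fin 2 → ℂ,
      (Φ x : ℂ) * (dd a τ x * (starRingEnd ℂ) (τ x) +
        τ x * dd a (fun y => (starRingEnd ℂ) (τ y)) x) =
      (dd a w x * wb x + w x * dd a wb x) * (τ x * (starRingEnd ℂ) (τ x)) +
      (w x * wb x) * (dd a τ x * (starRingEnd ℂ) (τ x) +
        τ x * dd a (fun y => (starRingEnd ℂ) (τ y)) x) := by
    intro a
    have h3 := dd_congr (a := a) hΦe
    rw [dd_mul a hΦd hT1.diff, dd_mul a hW.diff hT.diff, hΦz, dd_add a (Sm.const 1 x).diff hT.diff,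
      dd_const, dd_mul a (hws x).diff (hwbs x).diff,
      dd_mul a (hτs x hwx).diff (hτs x hwx).conj.diff] at h3
    linear_combination h3
  have k1 := key al
  have k2 := key (cj al)
  have hττ : τ x * (starRingEnd ℂ) (τ x) ≠ 0 := by
    have : τ x ≠ 0 := by
      rw [hτ]
      exact div_ne_zero hpx hwx
    simp [this]
  have hfin : (dd al w x * wb x + w x * dd al wb x) * wb x =
      (dd (cj al) w x * wb x + w x * dd (cj al) wb x) * w x := by
    apply mul_right_cancel₀ hττ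
    linear_combination (-wb x) * k1 + (w x) * k2 + ((w x * wb x) - (Φ x : ℂ)) *
      ((starRingEnd ℂ) (τ x) * hDτ + τ x * hDτc)
  have ha : dd al w x * wb x ^ 2 = dd (cj al) wb x * w x ^ 2 := by
    rw [← hmix x] at hfin
    linear_combination hfin
  -- near `x`, `θ = w² / wb²`
  have hθe : (fun y => θ y * wb y ^ 2) =ᶠ[𝓝 x] fun y => w y ^ 2 := by
    have h3 : ∀ᶠ y in 𝓝 x, p y ≠ 0 := (hpcont x hwx).eventually_ne hpx
    filter_upwards [hOev x hwx, h3] with y hy hpy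
    have e1 := h1 y hy
    have e2 := h2 y hy
    have e3 : p y * (w y ^ 2 - θ y * wb y ^ 2) = 0 := by
      linear_combination w y * e2 + θ y * wb y * e1
    exact (sub_eq_zero.1 ((mul_eq_zero.1 e3).resolve_left hpy)).symm
  have hθx : θ x * wb x ^ 2 = w x ^ 2 := hθe.self_of_nhds
  have key2 : ∀ a : Fin 2 → ℂ, dd a θ x * wb x ^ 2 + θ x * (2 * wb x * dd a wb x) =
      2 * w x * dd a w x := by
    intro a
    have h3 := dd_congr (a := a) hθe
    rw [dd_mul a (hθ x hwx).diff ((hwbs x).pow 2).diff, dd_pow a (hwbs x).diff 2,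
      dd_pow a (hws x).diff 2] at h3
    simp only [Nat.cast_ofNat, Nat.add_one_sub_one, pow_one] at h3
    linear_combination h3
  apply hpx
  have m1 := key2 al
  have m2 := key2 (cj al)
  have h3 := h1 x hwx
  rw [← hp] at m1
  refine DTheta_alg (w x) (wb x) (dd al w x) (dd (cj al) wb x) (dd al wb x) (p x) hwx (hwb0 x hwx)
    ha ?_ ?_
  · linear_combination wb x * m1 - 2 * dd al wb x * hθx
  · rw [hmix x]
    linear_combination (-wb x ^ 4) * h3 + wb x ^ 2 * w x * m2 -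
      2 * (w x) * wb x * dd (cj al) wb x * hθx

end Pool.W4b1b5d.H63
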