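import Pool.Agent.W_4b1b5d_h63.DenseCase

set_option autoImplicit false

/-!
# MP_4b1b5d_an, both parts for every metric and every potential that is not locally constant

Let `H = ½ g^{ij}(x) p_i p_j + U(x)` be a natural system on the 2-torus, `g` any smooth metric, `U`
a smooth potential which is not constant on any nonempty open set (for instance a nonconstant real
analytic one, or a Morse function).  Then Q1 has a positive answer for `H`: an integral of odd
degree forces a linear integral, and an integral of even degree which is not a polynomial in `H`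
forces an integral of degree at most 2 which is not a polynomial in `H`.
-/

namespace Pool.Agent.Results.MP_4b1b5d_an.DenseAllMetrics

open Pool.W4b1b5d.H63 Pool.W4b1b5d.H3 Pool.Agent Pool.Agent.U4b

theorem result :
  ∀ (ginv : (Fin 2 → ℝ) → Matrix (Fin 2) (Fin 2) ℝ) (U : (Fin 2 → ℝ) → ℝ)
    (H : (Fin 2 → ℝ) → (Fin 2 → ℝ) → ℝ)
    (IsInt : ((Fin 2 → ℝ) → MvPolynomial (Fin 2) ℝ) → Prop),
    (∀ x, (ginv x).PosDef) →
    (∀ i j, ContDiff ℝ (⊤ : ℕ∞) (fun x => ginv x i j)) →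
    (∀ (x : Fin 2 → ℝ) (k : Fin 2 → ℤ), ginv (x + fun i => (k i : ℝ)) = ginv x) →
    ContDiff ℝ (⊤ : ℕ∞) U →
    (∀ (x : Fin 2 → ℝ) (k : Fin 2 → ℤ), U (x + fun i => (k i : ℝ)) = U x) →
    (∃ x y, U x ≠ U y) →
    (∀ x p, H x p = (1 / 2 : ℝ) * ∑ i, ∑ j, ginv x i j * p i * p j + U x) →
    (∀ F : (Fin 2 → ℝ) → MvPolynomial (Fin 2) ℝ, IsInt F ↔
      ((∀ m, ContDiff ℝ (⊤ : ℕ∞) (fun x => (F x).coeff m)) ∧
       (∀ (x : Fin 2 → ℝ) (k : Fin 2 → ℤ), F (x + fun i => (k i : ℝ)) = F x) ∧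
       (∃ N : ℕ, ∀ x, (F x).totalDegree ≤ N) ∧
       (∀ x p : Fin 2 → ℝ, ∑ i : Fin 2,
          (deriv (fun t => H x (Function.update p i t)) (p i) *
              deriv (fun t => MvPolynomial.eval p (F (Function.update x i t))) (x i) -
            deriv (fun t => H (Function.update x i t) p) (x i) *
              deriv (fun t => MvPolynomial.eval (Function.update p i t) (F x)) (p i)) = 0))) →
    (∀ O : Set (Fin 2 → ℝ), IsOpen O → O.Nonempty → ∃ x ∈ O, ∃ y ∈ O, U x ≠ U y) →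
    (((∃ (F : (Fin 2 → ℝ) → MvPolynomial (Fin 2) ℝ) (n : ℕ), IsInt F ∧ Odd n ∧
          (∀ x, (F x).totalDegree ≤ n) ∧ (∃ x, (F x).totalDegree = n)) →
        ∃ F : (Fin 2 → ℝ) → MvPolynomial (Fin 2) ℝ, IsInt F ∧
          (∀ x, (F x).totalDegree ≤ 1) ∧ ∃ x, (F x).totalDegree = 1) ∧
     ((∃ (F : (Fin 2 → ℝ) → MvPolynomial (Fin 2) ℝ) (n : ℕ), IsInt F ∧ Even n ∧
          (∀ x, (F x).totalDegree ≤ n) ∧ (∃ x, (F x).totalDegree = n) ∧
          ¬ ∃ q : Polynomial ℝ, ∀ x p, MvPolynomial.eval p (F x) = q.eval (H x p)) →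
        ∃ F : (Fin 2 → ℝ) → MvPolynomial (Fin 2) ℝ, IsInt F ∧
          (∀ x, (F x).totalDegree ≤ 2) ∧
          ¬ ∃ q : Polynomial ℝ, ∀ x p, MvPolynomial.eval p (F x) = q.eval (H x p))) := by
  intro ginv U H IsInt hpos hgs hgper hU hUper hUn hH hInt hd
  have hHe : H = Ham ginv U := by
    funext x p
    exact hH x p
  have hIe : IsInt = U4b.IsInt (Ham ginv U) := by
    funext F
    apply propext
    rw [hInt F, hHe]
    rfl
  subst hHe
  subst hIe
  exact ⟨partI_all ginv U hpos hgs hgper hU hUper hUn hd,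
    partII_all localGC ginv U hpos hgs hgper hU hUper hUn hd⟩

end Pool.Agent.Results.MP_4b1b5d_an.DenseAllMetrics
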