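import Pool.Agent.W_4b1b5d_h63.Asm

/-!
# The region `S` around a component of `{dU ≠ 0}` (for the plateau case)

`GA I V θ x`: at `x` the function `A = dd R / R_Y` is `2 θ Y (l u - ub Y) / (Y² - θ l²)` for every
energy (`l = ell h x`, `u = dd l`, `ub = db l`).  `SS I V θ x0` is the connected component of `x0` in the
interior of this set.  `S` is open and connected, `dU = 0` on its boundary, and on `S` the wave
equations for `ρ` and `ρ U` hold with the constant `θ`.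
-/

set_option autoImplicit false

open Filter Topology
open Pool.W4b1b5d.H3 Pool.W4b1b5d.E

namespace Pool.W4b1b5d.H63

/-- The complete structure of `A` at `x`. -/
def GA (I : ID) (V : Uni I) (θ : ℂ) (x : V2) : Prop :=
  ∀ h : ℝ, V.A 0 h x = -2 * θ * ddr (cj I.al) (I.ell h) x ∧
    V.A 1 h x = 2 * θ * (I.ell h x : ℂ) * ddr I.al (I.ell h) x ∧
    ∀ j, V.A (j + 2) h x = θ * (I.ell h x : ℂ) ^ 2 * V.A j h x

theorem GA.AF {I : ID} {V : Uni I} {θ : ℂ} {x : V2} (h : GA I V θ x) : AF I V x θ := fun e =>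
  ⟨(h e).1, (h e).2.1, (h e).2.2 0⟩

theorem A_cont (I : ID) (V : Uni I) (j : ℕ) (h : ℝ) : Continuous (V.A j h) := by
  obtain ⟨a, ha, -, hb⟩ := V.AHP j
  have h1 : V.A j h = fun y => ∑ k ∈ Finset.range (j + 1 + 1), a k y * (h : ℂ) ^ k := by
    funext y
    exact hb h y
  rw [h1]
  exact continuous_finsetSum _ fun k _ => ((ha k).continuous).mul continuous_const

theorem ell_cont (I : ID) (h : ℝ) : Continuous fun x => (I.ell h x : ℂ) :=
  Complex.continuous_ofReal.comp (I.ell_smooth h).continuous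

theorem GA_closed (I : ID) (V : Uni I) (θ : ℂ) : IsClosed {x | GA I V θ x} := by
  have h1 : {x | GA I V θ x} = ⋂ h : ℝ, ({x | V.A 0 h x = -2 * θ * ddr (cj I.al) (I.ell h) x} ∩
      ({x | V.A 1 h x = 2 * θ * (I.ell h x : ℂ) * ddr I.al (I.ell h) x} ∩
        ⋂ j : ℕ, {x | V.A (j + 2) h x = θ * (I.ell h x : ℂ) ^ 2 * V.A j h x})) := by
    ext x
    simp only [GA, Set.mem_ofPred_eq, Set.mem_iInter, Set.mem_inter_iff]
  rw [h1]
  refine isClosed_iInter fun h => IsClosed.inter ?_ (IsClosed.inter ?_ (isClosed_iInter fun j => ?_))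
  · exact isClosed_eq (A_cont I V 0 h) (continuous_const.mul (ddr_smooth _ (I.ell_smooth h)).continuous)
  · exact isClosed_eq (A_cont I V 1 h) ((continuous_const.mul (ell_cont I h)).mul
      (ddr_smooth _ (I.ell_smooth h)).continuous)
  · exact isClosed_eq (A_cont I V (j + 2) h) ((continuous_const.mul ((ell_cont I h).pow 2)).mul
      (A_cont I V j h))

/-- `θ` is unique where `dU ≠ 0`. -/
theorem AF_unique (I : ID) (V : Uni I) {θ θ' : ℂ} {x : V2} (hx : fderiv ℝ I.U x ≠ 0)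
    (h : AF I V x θ) (h' : AF I V x θ') : θ = θ' := by
  have h1 := (h (I.U x)).1
  rw [(h' (I.U x)).1] at h1
  have hne := ddr_cj_ell_U_ne I x hx
  have h2 : (2 : ℂ) * ddr (cj I.al) (I.ell (I.U x)) x * (θ - θ') = 0 := by linear_combination h1
  exact sub_eq_zero.1 ((mul_eq_zero.1 h2).resolve_left (mul_ne_zero (by norm_num) hne))

/-- Near a point with `dU ≠ 0` the structure holds with one constant. -/
theorem GA_nhds (I : ID) (V : Uni I)
    (hGA : ∀ x, fderiv ℝ I.U x ≠ 0 → ∃ θ : ℂ, ‖θ‖ = 1 ∧ GA I V θ x) {x : V2}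
    (hx : fderiv ℝ I.U x ≠ 0) {θ : ℂ} (hθ : GA I V θ x) : ∀ᶠ y in 𝓝 x, GA I V θ y := by
  classical
  obtain ⟨c, hcdef⟩ : ∃ c : V2 → ℂ, ∀ x, (h : fderiv ℝ I.U x ≠ 0) → ‖c x‖ = 1 ∧ GA I V (c x) x := by
    refine ⟨fun x => if h : fderiv ℝ I.U x ≠ 0 then (hGA x h).choose else 1, fun x h => ?_⟩
    simp only [h, ne_eq, not_false_eq_true, dite_true]
    exact (hGA x h).choose_spec
  have hc : ∀ x, fderiv ℝ I.U x ≠ 0 → AF I V x (c x) := fun x h => (hcdef x h).2.AF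
  have h1 : c x = θ := AF_unique I V hx (hc x hx) hθ.AF
  have hO : IsOpen {y : V2 | fderiv ℝ I.U y ≠ 0} :=
    isOpen_ne_fun (I.Usm.continuous_fderiv (by simp)) continuous_const
  filter_upwards [theta_const I V c hc x hx, hO.mem_nhds hx] with y hy hy'
  rw [← h1, ← hy]
  exact (hcdef y hy').2

/-- The region `S`. -/
def SS (I : ID) (V : Uni I) (θ : ℂ) (x0 : V2) : Set V2 :=
  connectedComponentIn (interior {x | GA I V θ x}) x0

theorem SS_open (I : ID) (V : Uni I) (θ : ℂ) (x0 : V2) : IsOpen (SS I V θ x0) :=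
  isOpen_interior.connectedComponentIn

theorem SS_preconnected (I : ID) (V : Uni I) (θ : ℂ) (x0 : V2) : IsPreconnected (SS I V θ x0) :=
  isPreconnected_connectedComponentIn

theorem SS_mem (I : ID) (V : Uni I)
    (hGA : ∀ x, fderiv ℝ I.U x ≠ 0 → ∃ θ : ℂ, ‖θ‖ = 1 ∧ GA I V θ x) {x0 : V2}
    (hx0 : fderiv ℝ I.U x0 ≠ 0) {θ : ℂ} (hθ : GA I V θ x0) : x0 ∈ SS I V θ x0 :=
  mem_connectedComponentIn (mem_interior_iff_mem_nhds.2 (GA_nhds I V hGA hx0 hθ))

theorem SS_GA (I : ID) (V : Uni I) (θ : ℂ) (x0 : V2) {x : V2} (hx : x ∈ SS I V θ x0) :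
    GA I V θ x := interior_subset (connectedComponentIn_subset _ _ hx)

theorem SS_GA_closure (I : ID) (V : Uni I) (θ : ℂ) (x0 : V2) {x : V2}
    (hx : x ∈ closure (SS I V θ x0)) : GA I V θ x :=
  closure_minimal (fun _ hy => SS_GA I V θ x0 hy) (GA_closed I V θ) hx

/-- **`dU = 0` on the boundary of `S`.** -/
theorem SS_frontier (I : ID) (V : Uni I)
    (hGA : ∀ x, fderiv ℝ I.U x ≠ 0 → ∃ θ : ℂ, ‖θ‖ = 1 ∧ GA I V θ x) (θ : ℂ) (x0 : V2) {x : V2}
    (hx : x ∈ frontier (SS I V θ x0)) : fderiv ℝ I.U x = 0 := by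
  by_contra hne
  have h1 : x ∈ closure (SS I V θ x0) := frontier_subset_closure hx
  have h2 := GA_nhds I V hGA hne (SS_GA_closure I V θ x0 h1)
  obtain ⟨r, hr, hball⟩ := Metric.eventually_nhds_iff_ball.1 h2
  obtain ⟨y, hy1, hy2⟩ := mem_closure_iff_nhds.1 h1 _ (Metric.ball_mem_nhds x hr)
  have h3 : Metric.ball x r ⊆ interior {x | GA I V θ x} :=
    interior_maximal (fun z hz => hball z hz) Metric.isOpen_ball
  have h4 : Metric.ball x r ⊆ connectedComponentIn (interior {x | GA I V θ x}) y :=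
    (convex_ball x r).isPreconnected.subset_connectedComponentIn hy1 h3
  have h5 : connectedComponentIn (interior {x | GA I V θ x}) y =
      connectedComponentIn (interior {x | GA I V θ x}) x0 :=
    (connectedComponentIn_eq hy2).symm
  rw [h5] at h4
  have h6 : x ∈ SS I V θ x0 := h4 (Metric.mem_ball_self hr)
  rw [(SS_open I V θ x0).frontier_eq] at hx
  exact hx.2 h6

/-- The two formulas on `S` (on the closed set `GA`). -/
theorem FF_of_GA (I : ID) (V : Uni I) (z1 z0 : V2 → ℂ)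
    (hz1 : ContDiff ℝ (⊤ : ℕ∞) z1) (hz0 : ContDiff ℝ (⊤ : ℕ∞) z0)
    (hb : ∀ h x, V.b 0 h x = z0 x + h * z1 x) {θ : ℂ} {x : V2} (h : GA I V θ x) :
    FF I.al (fun y => (I.mu y)⁻¹) (fun y => (I.mu y)⁻¹ * I.U y) z1 z0 θ x := by
  have hdd : ∀ e : ℝ, dd I.al z0 x + e * dd I.al z1 x = -2 * θ *
      ((e : ℂ) * ddr (cj I.al) (fun y => (I.mu y)⁻¹) x -
        ddr (cj I.al) (fun y => (I.mu y)⁻¹ * I.U y) x) := by
    intro e
    have h3 := (h e).1
    rw [V.A0, ddr_ell_lin] at h3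
    rw [← h3]
    have h4 : V.b 0 e = fun y => z0 y + (e : ℂ) * z1 y := by
      funext y
      rw [hb]
    rw [h4, dd_add _ (hz0.differentiable (by simp) x)
      ((hz1.differentiable (by simp) x).const_mul _),
      dd_const_mul _ _ (hz1.differentiable (by simp) x)]
  have k0 := hdd 0
  have k1 := hdd 1
  push_cast at k0 k1
  constructor
  · linear_combination k1 - k0
  · linear_combination k0

/-- The wave equations on `S`: for `w = ρ` and `w = ρ U`, `dd dd w = θ db db w`. -/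
theorem SS_wave (I : ID) (V : Uni I) (θ : ℂ) (x0 : V2) {x : V2} (hx : x ∈ SS I V θ x0) :
    dd I.al (ddr I.al (fun y => (I.mu y)⁻¹)) x =
        θ * dd (cj I.al) (ddr (cj I.al) (fun y => (I.mu y)⁻¹)) x ∧
      dd I.al (ddr I.al (fun y => (I.mu y)⁻¹ * I.U y)) x =
        θ * dd (cj I.al) (ddr (cj I.al) (fun y => (I.mu y)⁻¹ * I.U y)) x := by
  obtain ⟨z1, z0, hz1, hz0, hp1, hp0, hb, e1, e0⟩ := exists_z I V
  have hrho : ContDiff ℝ (⊤ : ℕ∞) (fun y => (I.mu y)⁻¹) := I.musm.inv fun x => (I.mupos x).ne'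
  have hRU := hrho.mul I.Usm
  have hF : ∀ᶠ y in 𝓝 x, FF I.al (fun y => (I.mu y)⁻¹) (fun y => (I.mu y)⁻¹ * I.U y) z1 z0 θ y := by
    filter_upwards [(SS_open I V θ x0).mem_nhds hx] with y hy
    exact FF_of_GA I V z1 z0 hz1 hz0 hb (SS_GA I V θ x0 hy)
  constructor
  · exact wave_of I.al θ (-2) (by norm_num)
      (w := fun y => (((I.mu y)⁻¹ : ℝ) : ℂ)) (z := z1)
      (Sm.of (Complex.ofRealCLM.contDiff.comp hrho) x) (Sm.of hz1 x)
      (Eventually.of_forall e1) (hF.mono fun y hy => hy.1)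
  · exact wave_of I.al θ 2 (by norm_num)
      (w := fun y => (((I.mu y)⁻¹ * I.U y : ℝ) : ℂ)) (z := z0)
      (Sm.of (Complex.ofRealCLM.contDiff.comp hRU) x) (Sm.of hz0 x)
      (Eventually.of_forall e0) (hF.mono fun y hy => hy.2)

/-- `J(R, κ) = 0` in terms of coefficients: `dd R (Y² - θ l²) = R_Y (A₀ Y² + A₁ Y)`. -/
theorem J_rel (I : ID) (V : Uni I) {θ : ℂ} {x : V2} (h : GA I V θ x) (e : ℝ) (m : ℤ) :
    dd I.al (Bt I e m) x - θ * (I.ell e x : ℂ) ^ 2 * dd I.al (Bt I e (m + 2)) x =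
      ((m : ℂ) + 1) * Bt I e (m + 1) x * V.A 0 e x +
        ((m : ℂ) + 2) * Bt I e (m + 2) x * V.A 1 e x := by
  obtain ⟨K, hK⟩ : ∃ K : ℕ, (I.n : ℤ) ≤ m + K := ⟨(I.n - m).toNat, by omega⟩
  have h1 := V.rel e m x (K + 2) (by push_cast; omega)
  have h2 := V.rel e (m + 2) x K (by omega)
  rw [h1, h2, Finset.sum_range_succ', Finset.sum_range_succ', Finset.mul_sum]
  have h3 : ∀ j ∈ Finset.range K, ((m : ℂ) + (↑(j + 1 + 1) : ℂ) + 1) *
      Bt I e (m + (↑(j + 1 + 1) : ℤ) + 1) x * V.A (j + 1 + 1) e x =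
      θ * (I.ell e x : ℂ) ^ 2 * ((((m + 2 : ℤ) : ℂ) + (j : ℂ) + 1) * Bt I e (m + 2 + j + 1) x *
        V.A j e x) := by
    intro j _
    rw [(h e).2.2 j, show m + (↑(j + 1 + 1) : ℤ) + 1 = m + 2 + j + 1 by push_cast; ring]
    push_cast
    ring
  rw [Finset.sum_congr rfl h3]
  simp only [Nat.cast_zero, add_zero, zero_add, Nat.cast_one]
  rw [show m + 1 + 1 = m + 2 by ring]
  ring

/-- **End of the plateau case.**  If at two energies `A₀ = -2 θ db l` on the whole plane, then there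
is a quadratic integral. -/
theorem quad_of_two (I : ID) (V : Uni I) (G : Matrix (Fin 2) (Fin 2) ℝ) (hG : G.PosDef)
    (hal2 : ∀ i j, ((G i j : ℝ) : ℂ)
      = I.al i * (starRingEnd ℂ) (I.al j) + I.al j * (starRingEnd ℂ) (I.al i))
    (θ : ℂ) (hθ : ‖θ‖ = 1) (h1 h2 : ℝ) (hne : h1 ≠ h2)
    (e1 : ∀ x, V.A 0 h1 x = -2 * θ * ddr (cj I.al) (I.ell h1) x)
    (e2 : ∀ x, V.A 0 h2 x = -2 * θ * ddr (cj I.al) (I.ell h2) x) :
    ∃ F : (Fin 2 → ℝ) → MvPolynomial (Fin 2) ℝ,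
      Pool.Agent.U4b.IsInt (Pool.Agent.U4b.Ham (fun x => I.mu x • G) I.U) F ∧
      (∀ x, (F x).totalDegree ≤ 2) ∧
      ¬ ∃ q : Polynomial ℝ, ∀ x p, MvPolynomial.eval p (F x) =
        q.eval (Pool.Agent.U4b.Ham (fun x => I.mu x • G) I.U x p) := by
  obtain ⟨z1, z0, hz1, hz0, hp1, hp0, hb, f1, f0⟩ := exists_z I V
  refine final_quad G hG I.al I.hal hal2 I.musm (fun x => (I.mupos x).ne') I.Usm I.muper I.Uper
    hz1 hz0 hp1 hp0 f1 f0 θ hθ ?_
  intro x
  have hdd : ∀ e : ℝ, V.A 0 e x = -2 * θ * ddr (cj I.al) (I.ell e) x →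
      dd I.al z0 x + e * dd I.al z1 x = -2 * θ *
      ((e : ℂ) * ddr (cj I.al) (fun y => (I.mu y)⁻¹) x -
        ddr (cj I.al) (fun y => (I.mu y)⁻¹ * I.U y) x) := by
    intro e he
    rw [V.A0, ddr_ell_lin] at he
    rw [← he]
    have h4 : V.b 0 e = fun y => z0 y + (e : ℂ) * z1 y := by
      funext y
      rw [hb]
    rw [h4, dd_add _ (hz0.differentiable (by simp) x)
      ((hz1.differentiable (by simp) x).const_mul _),
      dd_const_mul _ _ (hz1.differentiable (by simp) x)]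
  have k1 := hdd h1 (e1 x)
  have k2 := hdd h2 (e2 x)
  have hn : (h1 : ℂ) - h2 ≠ 0 := by
    rw [sub_ne_zero]
    exact_mod_cast hne
  constructor
  · have h3 : ((h1 : ℂ) - h2) * (dd I.al z1 x - -2 * θ * ddr (cj I.al) (fun y => (I.mu y)⁻¹) x) = 0 := by
      linear_combination k1 - k2
    exact sub_eq_zero.1 ((mul_eq_zero.1 h3).resolve_left hn)
  · have h3 : ((h1 : ℂ) - h2) * (dd I.al z0 x -
        2 * θ * ddr (cj I.al) (fun y => (I.mu y)⁻¹ * I.U y) x) = 0 := by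
      linear_combination (-(h2 : ℂ)) * k1 + (h1 : ℂ) * k2
    exact sub_eq_zero.1 ((mul_eq_zero.1 h3).resolve_left hn)

end Pool.W4b1b5d.H63
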