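import Pool.Agent.W_4b1b5d_h63.AllMetrics
import Pool.Agent.W_4b1b5d_h63.PlS
import Pool.Agent.W_4b1b5d_h78.GoodC
import Pool.Agent.W_4b1b5d_h78.UniA

/-!
# The local structure theorem `LocalGC` (helper78's chain)
-/

set_option autoImplicit false

open Filter Topology MvPolynomial
open Pool.W4b1b5d.H3 Pool.W4b1b5d.H34 Pool.Agent.U4b Pool.W4b1b5d.E

namespace Pool.W4b1b5d.H63

/-- **The complete local structure** on the closure of `{dU ≠ 0}`. -/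
theorem exists_GA (I : ID) (N : ℕ) (hN : I.n = 2 * N)
    (hF : ∃ (h : ℝ) (s : ℤ) (x : V2), 1 ≤ s ∧ I.beta h s x ≠ 0) (V : Uni I)
    (x : V2) (hx : x ∈ closure {y : V2 | fderiv ℝ I.U y ≠ 0}) : ∃ θ : ℂ, ‖θ‖ = 1 ∧ GA I V θ x := by
  obtain ⟨θ, hθ, h⟩ := GC_of_closure I N hN hF V x hx
  exact ⟨θ, hθ, h⟩

theorem localGC : LocalGC := by
  intro I N hN hF
  obtain ⟨V⟩ := exists_uni I N hN hF
  refine ⟨V, fun x hx => ?_⟩
  obtain ⟨θ, hθ, h⟩ := exists_GA I N hN hF V x (subset_closure hx)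
  exact ⟨θ, hθ, h.AF⟩

end Pool.W4b1b5d.H63
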