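import Pool.Agent.W_4b1b5d_h63.NotFun
import Pool.Agent.W_4b1b5d_h63.Asm

/-!
# Part (ii) for `μ(x) • G`, `{dU ≠ 0}` dense
-/

set_option autoImplicit false

open Filter Topology MvPolynomial
open Pool.W4b1b5d.H3 Pool.W4b1b5d.H34 Pool.Agent.U4b Pool.W4b1b5d.E

namespace Pool.W4b1b5d.H63

/-- The data of part (ii): an even integral `ID` with a nonzero `β_s`, `s ≥ 1`, and the metric
constants. -/
theorem evenID (μ : V2 → ℝ) (G : Matrix (Fin 2) (Fin 2) ℝ) (U : V2 → ℝ)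
    (hμ : ContDiff ℝ (⊤ : ℕ∞) μ) (hμ0 : ∀ x, 0 < μ x) (hμper : Per μ) (hG : G.PosDef)
    (hU : ContDiff ℝ (⊤ : ℕ∞) U) (hUper : Per U) (F : V2 → RP) (n : ℕ) (hn : Even n)
    (hF : IsInt (Ham (fun x => μ x • G) U) F) (hle : ∀ x, (F x).totalDegree ≤ n)
    (heven : ∀ x, ∀ m : Fin 2 →₀ ℕ, Odd (m 0 + m 1) → (F x).coeff m = 0)
    (hnf : ¬ ∃ q : Polynomial ℝ, ∀ x p, MvPolynomial.eval p (F x) =
      q.eval (Ham (fun x => μ x • G) U x p)) :
    ∃ I : ID, (∀ i j, ((G i j : ℝ) : ℂ)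
      = I.al i * (starRingEnd ℂ) (I.al j) + I.al j * (starRingEnd ℂ) (I.al i)) ∧ I.n = n ∧
      I.U = U ∧ I.mu = μ ∧ ∃ (h : ℝ) (s : ℤ) (x : V2), 1 ≤ s ∧ I.beta h s x ≠ 0 := by
  obtain ⟨H, hHd⟩ : ∃ H, H = Ham (fun x => μ x • G) U := ⟨_, rfl⟩
  have hH : ∀ x p, H x p = (1 / 2 : ℝ) * ∑ i, ∑ j, (μ x * G i j) * p i * p j + U x := by
    intro x p
    rw [hHd]
    rfl
  rw [← hHd] at hF
  obtain ⟨al, hal0, hal⟩ := exists_alpha G hG
  obtain ⟨om, h1, h2, h3⟩ := exists_dual al hal0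
  obtain ⟨I, hIal, hIn, hIU, hImu, hIf⟩ := mkID G hG μ U hμ0 hμ hU hμper hUper H hH F hF.1 hF.2.1 n
    hle hF.2.2.2 al om hal0 hal h1 h2 h3
  refine ⟨I, by rw [hIal]; exact hal, hIn, hIU, hImu, ?_⟩
  by_contra hcon
  push Not at hcon
  apply hnf
  rw [← hImu, ← hIU]
  exact poly_of_beta G I n hn hIn om (by rw [hIal]; exact hal) (by rw [hIal]; exact h3) F hIf heven
    hcon

/-- Every integral of even degree which is not a polynomial in `H` gives an `ID` as above. -/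
theorem anyID (μ : V2 → ℝ) (G : Matrix (Fin 2) (Fin 2) ℝ) (U : V2 → ℝ)
    (hμ : ContDiff ℝ (⊤ : ℕ∞) μ) (hμ0 : ∀ x, 0 < μ x) (hμper : Per μ) (hG : G.PosDef)
    (hU : ContDiff ℝ (⊤ : ℕ∞) U) (hUper : Per U) (hUn : ∃ x y, U x ≠ U y) (F : V2 → RP) (n : ℕ)
    (hn : Even n)
    (hF : IsInt (Ham (fun x => μ x • G) U) F) (hle : ∀ x, (F x).totalDegree ≤ n)
    (hnf : ¬ ∃ q : Polynomial ℝ, ∀ x p, MvPolynomial.eval p (F x) =
      q.eval (Ham (fun x => μ x • G) U x p)) :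
    ∃ (I : ID) (N : ℕ), (∀ i j, ((G i j : ℝ) : ℂ)
      = I.al i * (starRingEnd ℂ) (I.al j) + I.al j * (starRingEnd ℂ) (I.al i)) ∧ I.n = 2 * N ∧
      I.U = U ∧ I.mu = μ ∧ ∃ (h : ℝ) (s : ℤ) (x : V2), 1 ≤ s ∧ I.beta h s x ≠ 0 := by
  by_cases hodd : ∀ x, opt (F x) = 0
  · obtain ⟨N, hN⟩ := hn
    obtain ⟨I, h1, h2, h3, h4, h5⟩ := evenID μ G U hμ hμ0 hμper hG hU hUper F n ⟨N, hN⟩ hF hle
      (fun x m hm => by
        have := coeff_opt (F x) m
        rw [if_pos hm, hodd x, MvPolynomial.coeff_zero] at this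
        exact this.symm) hnf
    exact ⟨I, N, h1, by rw [h2, hN]; ring, h3, h4, h5⟩
  · push Not at hodd
    obtain ⟨x0, hx0⟩ := hodd
    have hHneg : ∀ x p, Ham (fun x => μ x • G) U x (-p) = Ham (fun x => μ x • G) U x p := by
      intro x p
      unfold Ham
      simp only [Fin.sum_univ_two, Pi.neg_apply]
      ring
    have hH0 : ∀ x, Ham (fun x => μ x • G) U x 0 = U x := by
      intro x
      unfold Ham
      simp
    have hinf : Set.Infinite (Set.range fun x => Ham (fun x => μ x • G) U x 0) := by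
      simp only [hH0]
      obtain ⟨x, y, hxy⟩ := hUn
      wlog h : U x < U y generalizing x y
      · exact this y x hxy.symm (lt_of_le_of_ne (not_lt.1 h) hxy.symm)
      refine (Set.Icc_infinite h).mono ?_
      intro t ht
      exact mem_range_of_exists_le_of_exists_ge hU.continuous ⟨x, ht.1⟩ ⟨y, ht.2⟩
    have hop := hF.opt hHneg
    have hoddc : ∀ x, ∀ m : Fin 2 →₀ ℕ, ¬ Odd (m 0 + m 1) → (opt (F x)).coeff m = 0 := by
      intro x m hm
      rw [coeff_opt, if_neg hm]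
    obtain ⟨I, h1, h2, h3, h4, h5⟩ := evenID μ G U hμ hμ0 hμper hG hU hUper
      (fun x => opt (F x) * opt (F x)) (2 * n) (even_two_mul n) (hop.mul hop)
      (fun x => (MvPolynomial.totalDegree_mul _ _).trans (by
        have := (totalDegree_opt_le (F x)).trans (hle x)
        omega))
      (fun x m hm => by
        rw [MvPolynomial.coeff_mul]
        refine Finset.sum_eq_zero fun k hk => ?_
        rw [Finset.HasAntidiagonal.mem_antidiagonal] at hk
        by_cases ho : Odd (k.1 0 + k.1 1)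
        · rw [hoddc x k.2, mul_zero]
          intro ho2
          have h6 : m 0 + m 1 = (k.1 0 + k.1 1) + (k.2 0 + k.2 1) := by
            rw [← hk]
            simp only [Finsupp.add_apply]
            ring
          rw [h6] at hm
          exact (Nat.not_odd_iff_even.2 (ho.add_odd ho2)) hm
        · rw [hoddc x k.1 ho, zero_mul])
      (by
        rintro ⟨q, hq⟩
        have hq0 : q = 0 := by
          refine Polynomial.eq_zero_of_infinite_isRoot q (hinf.mono ?_)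
          rintro _ ⟨x, rfl⟩
          have := hq x 0
          rw [map_mul, eval_opt_zero, mul_zero] at this
          exact this.symm
        apply hx0
        have h1 : opt (F x0) * opt (F x0) = 0 := by
          apply MvPolynomial.funext
          intro p
          have h2 := hq x0 p
          rw [hq0, Polynomial.eval_zero] at h2
          rw [h2, map_zero]
        exact mul_self_eq_zero.1 h1)
    exact ⟨I, n, h1, h2, h3, h4, h5⟩

/-- **Part (ii) for `μ(x) • G` with `{dU ≠ 0}` dense**, from the local structure theorem. -/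
theorem partII_of (hGC : ∀ (I : ID) (N : ℕ), I.n = 2 * N →
      (∃ (h : ℝ) (s : ℤ) (x : V2), 1 ≤ s ∧ I.beta h s x ≠ 0) →
      ∃ V : Uni I, ∀ x, fderiv ℝ I.U x ≠ 0 → ∃ c : ℂ, ‖c‖ = 1 ∧ AF I V x c)
    (μ : V2 → ℝ) (G : Matrix (Fin 2) (Fin 2) ℝ) (U : V2 → ℝ)
    (hμ : ContDiff ℝ (⊤ : ℕ∞) μ) (hμ0 : ∀ x, 0 < μ x) (hμper : Per μ) (hG : G.PosDef)
    (hU : ContDiff ℝ (⊤ : ℕ∞) U) (hUper : Per U) (hdense : Dense {x | fderiv ℝ U x ≠ 0}) :
    PartII (Ham (fun x => μ x • G) U) := by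
  rintro ⟨F, n, hF, hn, hle, -, hnf⟩
  have hUn : ∃ x y, U x ≠ U y := by
    by_contra hcon
    push Not at hcon
    obtain ⟨x, hx⟩ := hdense.nonempty
    apply hx
    have h1 : U = fun _ => U 0 := funext fun y => hcon y 0
    rw [h1]
    simp
  obtain ⟨I, N, h1, h2, h3, h4, h5⟩ := anyID μ G U hμ hμ0 hμper hG hU hUper hUn F n hn hF hle hnf
  obtain ⟨V, hV⟩ := hGC I N h2 h5
  subst h3
  subst h4
  exact quad_of_AF I V G hG h1 hV hdense

end Pool.W4b1b5d.H63
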