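import Pool.Agent.W_4b1b5d_h63.Glue
import Pool.Agent.W_4b1b5d_h76.Reduction
import Pool.Agent.W_4b1b5d_h3.Final

/-!
# The quadratic integral `K = k P² + conj(k) Q² + Z₁ H + Z₀`
-/

set_option autoImplicit false

open Filter Topology MvPolynomial
open Pool.W4b1b5d.H3 Pool.Agent.U4b

namespace Pool.W4b1b5d.H63

/-- the matrix of the quadratic form `2 (k P² + conj(k) Q²)` -/
noncomputable def Mk (al : Fin 2 → ℂ) (k : ℂ) : Matrix (Fin 2) (Fin 2) ℝ :=
  Matrix.of fun i j => 4 * (k * al i * al j).re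

theorem Mk_coe (al : Fin 2 → ℂ) (k : ℂ) (i j : Fin 2) : ((Mk al k i j : ℝ) : ℂ) =
    2 * (k * al i * al j + (starRingEnd ℂ) (k * al i * al j)) := by
  rw [Complex.add_conj]
  show (((4 * (k * al i * al j).re : ℝ)) : ℂ) = _
  push_cast
  ring

/-- the polynomial family `K` -/
noncomputable def KK2 (G : Matrix (Fin 2) (Fin 2) ℝ) (al : Fin 2 → ℂ) (k : ℂ)
    (mu U Z1 Z0 : V2 → ℝ) (x : V2) : MvPolynomial (Fin 2) ℝ :=
  C (1 / 2 : ℝ) * ∑ i, ∑ j, C (Mk al k i j + Z1 x * (mu x * G i j)) * (X i * X j) +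
    C (Z1 x * U x + Z0 x)

theorem KK2_eval (G : Matrix (Fin 2) (Fin 2) ℝ) (al : Fin 2 → ℂ) (k : ℂ)
    (mu U Z1 Z0 : V2 → ℝ) (x p : V2) : MvPolynomial.eval p (KK2 G al k mu U Z1 Z0 x) =
      ((1 / 2 : ℝ) * ∑ i, ∑ j, (1 * Mk al k i j) * p i * p j + 0) +
        Z1 x * Ham (fun x => mu x • G) U x p + Z0 x := by
  unfold KK2 Ham
  simp only [Fin.sum_univ_two, map_add, map_mul, eval_C, eval_X, Matrix.smul_apply, smul_eq_mul]
  ring

theorem KK2_degree (G : Matrix (Fin 2) (Fin 2) ℝ) (al : Fin 2 → ℂ) (k : ℂ)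
    (mu U Z1 Z0 : V2 → ℝ) (x : V2) : (KK2 G al k mu U Z1 Z0 x).totalDegree ≤ 2 := by
  unfold KK2
  refine (totalDegree_add _ _).trans (max_le ?_ ?_)
  · refine (totalDegree_mul _ _).trans ?_
    rw [totalDegree_C, zero_add]
    refine totalDegree_finsetSum_le fun i _ => totalDegree_finsetSum_le fun j _ => ?_
    refine (totalDegree_mul _ _).trans ?_
    rw [totalDegree_C, zero_add]
    refine (totalDegree_mul _ _).trans ?_
    rw [totalDegree_X, totalDegree_X]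
  · rw [totalDegree_C]
    exact Nat.zero_le _

theorem KK2_coef (G : Matrix (Fin 2) (Fin 2) ℝ) (al : Fin 2 → ℂ) (k : ℂ)
    {mu U Z1 Z0 : V2 → ℝ} (hmu : ContDiff ℝ (⊤ : ℕ∞) mu) (hU : ContDiff ℝ (⊤ : ℕ∞) U)
    (hZ1 : ContDiff ℝ (⊤ : ℕ∞) Z1) (hZ0 : ContDiff ℝ (⊤ : ℕ∞) Z0) :
    CoefSm (KK2 G al k mu U Z1 Z0) := by
  have h1 : CoefSm (fun x => C (1 / 2 : ℝ) * ∑ i, ∑ j,
      C (Mk al k i j + Z1 x * (mu x * G i j)) * (X i * X j) : V2 → MvPolynomial (Fin 2) ℝ) := by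
    refine (CoefSm.const _).mul (CoefSm.sum fun i _ => CoefSm.sum fun j _ => ?_)
    exact (CoefSm.C (contDiff_const.add (hZ1.mul (hmu.mul contDiff_const)))).mul (CoefSm.const _)
  have h2 : CoefSm (fun x => C (Z1 x * U x + Z0 x) : V2 → MvPolynomial (Fin 2) ℝ) :=
    CoefSm.C ((hZ1.mul hU).add hZ0)
  intro m
  have h3 : (fun x => (KK2 G al k mu U Z1 Z0 x).coeff m) = fun x =>
      (C (1 / 2 : ℝ) * ∑ i, ∑ j, C (Mk al k i j + Z1 x * (mu x * G i j)) * (X i * X j) :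
        MvPolynomial (Fin 2) ℝ).coeff m + (C (Z1 x * U x + Z0 x) : MvPolynomial (Fin 2) ℝ).coeff m := by
    funext x
    unfold KK2
    rw [coeff_add]
  rw [h3]
  exact (h1 m).add (h2 m)

theorem Mk_symm (al : Fin 2 → ℂ) (k : ℂ) : Mk al k 0 1 = Mk al k 1 0 := by
  show 4 * (k * al 0 * al 1).re = 4 * (k * al 1 * al 0).re
  rw [mul_right_comm]

/-- The bracket of `H` and `K`. -/
theorem KK2_bracket (G : Matrix (Fin 2) (Fin 2) ℝ) (hG : G.PosDef) (al : Fin 2 → ℂ)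
    (hal2 : ∀ i j, ((G i j : ℝ) : ℂ)
      = al i * (starRingEnd ℂ) (al j) + al j * (starRingEnd ℂ) (al i)) (k : ℂ)
    {mu U Z1 Z0 : V2 → ℝ} (hmu : ContDiff ℝ (⊤ : ℕ∞) mu) (hmu0 : ∀ x, mu x ≠ 0)
    (hU : ContDiff ℝ (⊤ : ℕ∞) U)
    (hZ1 : ContDiff ℝ (⊤ : ℕ∞) Z1) (hZ0 : ContDiff ℝ (⊤ : ℕ∞) Z0)
    (e1 : ∀ x, ddr al Z1 x = -2 * (starRingEnd ℂ) k * ddr (cj al) (fun y => (mu y)⁻¹) x)
    (e0 : ∀ x, ddr al Z0 x = 2 * (starRingEnd ℂ) k * ddr (cj al) (fun y => (mu y)⁻¹ * U y) x)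
    (x p : V2) :
    PB (Ham (fun x => mu x • G) U) (fun x p => MvPolynomial.eval p (KK2 G al k mu U Z1 Z0 x)) x p
      = 0 := by
  have hs : G 0 1 = G 1 0 := by
    have h1 := hG.isHermitian.apply 1 0
    simpa using h1
  have hmud := hmu.differentiable (by simp) x
  have hUd := hU.differentiable (by simp) x
  have hZ1d := hZ1.differentiable (by simp) x
  have hZ0d := hZ0.differentiable (by simp) x
  obtain ⟨Q, hQ⟩ : ∃ Q : ℝ, Q = (1 / 2 : ℝ) * ∑ i, ∑ j, G i j * p i * p j := ⟨_, rfl⟩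
  have hH' : ∀ y, Ham (fun x => mu x • G) U y p = Q * mu y + U y := by
    intro y
    rw [Ham, hQ]
    congr 1
    simp only [Fin.sum_univ_two, Matrix.smul_apply, smul_eq_mul]
    ring
  -- derivatives of `H`
  have dH : ∀ i : Fin 2, HasDerivAt (fun t => Ham (fun x => mu x • G) U (Function.update x i t) p)
      (Q * pd i mu x + pd i U x) (x i) := by
    intro i
    have h4 : (fun t => Ham (fun x => mu x • G) U (Function.update x i t) p) =
        fun t => Q * mu (Function.update x i t) + U (Function.update x i t) := funext fun t => hH' _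
    rw [h4]
    exact ((Final_upd x hmud i).const_mul Q).add (Final_upd x hUd i)
  have pH : ∀ i : Fin 2, HasDerivAt (fun t => Ham (fun x => mu x • G) U x (Function.update p i t))
      (mu x * ∑ j, G i j * p j) (p i) := fun i => RealId_ham_p G hs (mu x) (U x) p i
  -- derivatives of `K`
  have dK : ∀ i : Fin 2, HasDerivAt (fun t => MvPolynomial.eval p
      (KK2 G al k mu U Z1 Z0 (Function.update x i t)))
      (pd i Z1 x * (Q * mu x + U x) + Z1 x * (Q * pd i mu x + pd i U x) + pd i Z0 x) (x i) := by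
    intro i
    simp only [KK2_eval]
    have h1 := (((Final_upd x hZ1d i).mul (dH i)).const_add
      ((1 / 2 : ℝ) * ∑ i, ∑ j, (1 * Mk al k i j) * p i * p j + 0)).add (Final_upd x hZ0d i)
    refine h1.congr_deriv ?_
    rw [Function.update_eq_self, hH']
    rfl
  have pK : ∀ i : Fin 2, HasDerivAt (fun t => MvPolynomial.eval (Function.update p i t)
      (KK2 G al k mu U Z1 Z0 x))
      (1 * (∑ j, Mk al k i j * p j) + Z1 x * (mu x * ∑ j, G i j * p j)) (p i) := by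
    intro i
    simp only [KK2_eval]
    exact ((RealId_ham_p (Mk al k) (Mk_symm al k) 1 0 p i).add ((pH i).const_mul (Z1 x))).add_const
      (Z0 x)
  have key : PB (Ham (fun x => mu x • G) U)
      (fun x p => MvPolynomial.eval p (KK2 G al k mu U Z1 Z0 x)) x p =
      ∑ i : Fin 2, ((mu x * ∑ j, G i j * p j) * (pd i Z1 x * (Q * mu x + U x) +
        Z1 x * (Q * pd i mu x + pd i U x) + pd i Z0 x) -
        (Q * pd i mu x + pd i U x) * (1 * (∑ j, Mk al k i j * p j) +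
          Z1 x * (mu x * ∑ j, G i j * p j))) := by
    unfold PB dP dX
    refine Finset.sum_congr rfl fun i _ => ?_
    rw [(pH i).deriv, (dK i).deriv, (dH i).deriv, (pK i).deriv]
  rw [key]
  -- complex form
  obtain ⟨P, hP⟩ : ∃ P : ℂ, P = al 0 * p 0 + al 1 * p 1 := ⟨_, rfl⟩
  obtain ⟨P', hP'⟩ : ∃ P' : ℂ, P' = (starRingEnd ℂ) (al 0) * p 0 + (starRingEnd ℂ) (al 1) * p 1 :=
    ⟨_, rfl⟩
  have hmuc : (mu x : ℂ) ≠ 0 := by exact_mod_cast hmu0 x
  have hQc : (Q : ℂ) = P * P' := by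
    rw [hQ, hP, hP']
    push_cast
    simp only [Fin.sum_univ_two, hal2]
    ring
  have hinv : ∀ a : Fin 2 → ℂ, ddr a (fun y => (mu y)⁻¹) x = -ddr a mu x / (mu x : ℂ) ^ 2 := by
    intro a
    have h1 : DifferentiableAt ℝ (fun y => (((mu y)⁻¹ : ℝ) : ℂ)) x :=
      (Complex.ofRealCLM.differentiableAt).comp x (hmud.inv (hmu0 x))
    have h2 : DifferentiableAt ℝ (fun y => (mu y : ℂ)) x :=
      (Complex.ofRealCLM.differentiableAt).comp x hmud
    have h3 := dd_mul a h2 h1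
    have h4 : (fun y => (mu y : ℂ) * (((mu y)⁻¹ : ℝ) : ℂ)) = fun _ => (1 : ℂ) := by
      funext y
      rw [← Complex.ofReal_mul, mul_inv_cancel₀ (hmu0 y), Complex.ofReal_one]
    rw [h4, dd_const] at h3
    unfold ddr
    rw [Complex.ofReal_inv] at h3
    rw [eq_div_iff (pow_ne_zero 2 hmuc)]
    have h5 := congrArg (fun t => t * (mu x : ℂ)) h3
    simp only [zero_mul, add_mul] at h5
    rw [mul_assoc (dd a _ x), inv_mul_cancel₀ hmuc] at h5
    linear_combination -h5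
  have hprod : ∀ a : Fin 2 → ℂ, ddr a (fun y => (mu y)⁻¹ * U y) x =
      -ddr a mu x / (mu x : ℂ) ^ 2 * U x + (mu x : ℂ)⁻¹ * ddr a U x := by
    intro a
    rw [← hinv]
    have h1 : DifferentiableAt ℝ (fun y => (((mu y)⁻¹ : ℝ) : ℂ)) x :=
      (Complex.ofRealCLM.differentiableAt).comp x (hmud.inv (hmu0 x))
    have h2 : DifferentiableAt ℝ (fun y => (U y : ℂ)) x :=
      (Complex.ofRealCLM.differentiableAt).comp x hUd
    unfold ddr
    have h3 : (fun y => (((mu y)⁻¹ * U y : ℝ) : ℂ)) = fun y => (((mu y)⁻¹ : ℝ) : ℂ) * (U y : ℂ) := by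
      funext y
      push_cast
      ring
    rw [h3, dd_mul a h1 h2]
    push_cast
    ring
  have hcc : cj (cj al) = al := by
    funext i
    simp [cj]
  have f1 := e1 x
  have f0 := e0 x
  have g1 : ddr (cj al) Z1 x = -2 * k * ddr al (fun y => (mu y)⁻¹) x := by
    rw [ddr_conj al hZ1d, f1]
    have h1 : DifferentiableAt ℝ (fun y => (mu y)⁻¹) x := hmud.inv (hmu0 x)
    have h2 := ddr_conj (cj al) h1
    rw [hcc] at h2
    rw [h2, map_mul, map_mul, Complex.conj_conj, map_neg, map_ofNat]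
  have g0 : ddr (cj al) Z0 x = 2 * k * ddr al (fun y => (mu y)⁻¹ * U y) x := by
    rw [ddr_conj al hZ0d, f0]
    have h1 : DifferentiableAt ℝ (fun y => (mu y)⁻¹ * U y) x := (hmud.inv (hmu0 x)).fun_mul hUd
    have h2 := ddr_conj (cj al) h1
    rw [hcc] at h2
    rw [h2, map_mul, map_mul, Complex.conj_conj, map_ofNat]
  rw [hinv] at f1 g1
  rw [hprod] at f0 g0
  have hfin : ((((∑ i : Fin 2, ((mu x * ∑ j, G i j * p j) * (pd i Z1 x * (Q * mu x + U x) +
        Z1 x * (Q * pd i mu x + pd i U x) + pd i Z0 x) -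
        (Q * pd i mu x + pd i U x) * (1 * (∑ j, Mk al k i j * p j) +
          Z1 x * (mu x * ∑ j, G i j * p j)))) : ℝ)) : ℂ) =
      mu x * ((P * P' * mu x + U x) * (P' * ddr al Z1 x + P * ddr (cj al) Z1 x) +
        (P' * ddr al Z0 x + P * ddr (cj al) Z0 x)) -
      2 * (k * P * (P * P' * ddr al mu x + ddr al U x) + (starRingEnd ℂ) k * P' *
        (P * P' * ddr (cj al) mu x + ddr (cj al) U x)) := by
    rw [ddr_eq al hZ1d, ddr_eq al hZ0d, ddr_eq al hmud, ddr_eq al hUd, ddr_eq (cj al) hZ1d,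
      ddr_eq (cj al) hZ0d, ddr_eq (cj al) hmud, ddr_eq (cj al) hUd]
    push_cast
    rw [hQc, hP, hP']
    simp only [Fin.sum_univ_two, hal2, Mk_coe, cj, map_mul]
    ring
  rw [f1, f0, g1, g0] at hfin
  have hz : ((((∑ i : Fin 2, ((mu x * ∑ j, G i j * p j) * (pd i Z1 x * (Q * mu x + U x) +
        Z1 x * (Q * pd i mu x + pd i U x) + pd i Z0 x) -
        (Q * pd i mu x + pd i U x) * (1 * (∑ j, Mk al k i j * p j) +
          Z1 x * (mu x * ∑ j, G i j * p j)))) : ℝ)) : ℂ) = 0 := by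
    rw [hfin]
    field_simp
    ring
  exact_mod_cast hz

/-- **The quadratic integral.**  From the two global formulas. -/
theorem final_quad (G : Matrix (Fin 2) (Fin 2) ℝ) (hG : G.PosDef) (al : Fin 2 → ℂ)
    (hal : ((starRingEnd ℂ) (al 0) * al 1).im ≠ 0)
    (hal2 : ∀ i j, ((G i j : ℝ) : ℂ)
      = al i * (starRingEnd ℂ) (al j) + al j * (starRingEnd ℂ) (al i))
    {mu U : V2 → ℝ} (hmu : ContDiff ℝ (⊤ : ℕ∞) mu) (hmu0 : ∀ x, mu x ≠ 0)
    (hU : ContDiff ℝ (⊤ : ℕ∞) U) (hmuper : Per mu) (hUper : Per U)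
    {z1 z0 : V2 → ℂ} (hz1 : ContDiff ℝ (⊤ : ℕ∞) z1) (hz0 : ContDiff ℝ (⊤ : ℕ∞) z0)
    (hz1per : Per z1) (hz0per : Per z0)
    (e1 : ∀ x, dd (cj al) z1 x = -2 * ddr al (fun y => (mu y)⁻¹) x)
    (e0 : ∀ x, dd (cj al) z0 x = 2 * ddr al (fun y => (mu y)⁻¹ * U y) x)
    (c : ℂ) (hc : ‖c‖ = 1)
    (hF : ∀ x, FF al (fun y => (mu y)⁻¹) (fun y => (mu y)⁻¹ * U y) z1 z0 c x) :
    ∃ F : (Fin 2 → ℝ) → MvPolynomial (Fin 2) ℝ, IsInt (Ham (fun x => mu x • G) U) F ∧
      (∀ x, (F x).totalDegree ≤ 2) ∧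
      ¬ ∃ q : Polynomial ℝ, ∀ x p, MvPolynomial.eval p (F x) =
        q.eval (Ham (fun x => mu x • G) U x p) := by
  -- `k` with `conj k = c k`
  obtain ⟨k, hk⟩ := IsAlgClosed.exists_pow_nat_eq ((starRingEnd ℂ) c) (n := 2) (by norm_num)
  have hk1 : ‖k‖ = 1 := by
    have h1 : ‖k‖ ^ 2 = 1 := by
      rw [← norm_pow, hk, RCLike.norm_conj, hc]
    exact (pow_eq_one_iff_of_nonneg (norm_nonneg _) (by norm_num)).1 h1
  have hkk : k * (starRingEnd ℂ) k = 1 := by
    rw [Complex.mul_conj, Complex.normSq_eq_norm_sq, hk1]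
    norm_num
  have hck : (starRingEnd ℂ) k = c * k := by
    have h1 : c = (starRingEnd ℂ) k ^ 2 := by
      rw [← map_pow, hk, Complex.conj_conj]
    rw [h1]
    linear_combination (-(starRingEnd ℂ) k) * hkk
  have hcc : cj (cj al) = al := by
    funext i
    simp [cj]
  have hinvsm : ContDiff ℝ (⊤ : ℕ∞) (fun y => (mu y)⁻¹) := hmu.inv hmu0
  have hprodsm : ContDiff ℝ (⊤ : ℕ∞) (fun y => (mu y)⁻¹ * U y) := hinvsm.mul hU
  -- real parts
  have hre : ∀ (z : V2 → ℂ) (w : V2 → ℝ) (s : ℝ), ContDiff ℝ (⊤ : ℕ∞) z → ContDiff ℝ (⊤ : ℕ∞) w →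
      (∀ x, dd (cj al) z x = s * ddr al w x) → (∀ x, dd al z x = s * c * ddr (cj al) w x) →
      ∀ x, ddr al (fun y => (k * z y).re) x = s * (starRingEnd ℂ) k * ddr (cj al) w x := by
    intro z w s hz hw h1 h2 x
    have hzd : DifferentiableAt ℝ z x := hz.differentiable (by simp) x
    have hkz : DifferentiableAt ℝ (fun y => k * z y) x := hzd.const_mul k
    have hwd : DifferentiableAt ℝ w x := hw.differentiable (by simp) x
    have h3 : (fun y => ((((k * z y).re : ℝ)) : ℂ)) =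
        fun y => (1 / 2 : ℂ) * (k * z y + (starRingEnd ℂ) (k * z y)) := by
      funext y
      rw [Complex.add_conj]
      push_cast
      ring
    have h4 : DifferentiableAt ℝ (fun y => (starRingEnd ℂ) (k * z y)) x :=
      (Complex.conjCLE : ℂ →L[ℝ] ℂ).differentiableAt.comp x hkz
    have h5 := dd_conj (cj al) hkz
    rw [hcc] at h5
    unfold ddr
    rw [h3, dd_const_mul _ _ (hkz.fun_add h4), dd_add _ hkz h4, h5, dd_const_mul _ _ hzd,
      dd_const_mul _ _ hzd, h1, h2, map_mul, map_mul, Complex.conj_ofReal]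
    have h6 : ddr (cj al) w x = (starRingEnd ℂ) (ddr al w x) := ddr_conj al hwd
    rw [← h6]
    show _ = (s : ℂ) * (starRingEnd ℂ) k * ddr (cj al) w x
    linear_combination (-(1 / 2 : ℂ) * s * ddr (cj al) w x) * hck
  obtain ⟨Z1, hZ1⟩ : ∃ Z1 : V2 → ℝ, Z1 = fun y => (k * z1 y).re := ⟨_, rfl⟩
  obtain ⟨Z0, hZ0⟩ : ∃ Z0 : V2 → ℝ, Z0 = fun y => (k * z0 y).re := ⟨_, rfl⟩
  have hZ1sm : ContDiff ℝ (⊤ : ℕ∞) Z1 := by
    rw [hZ1]
    exact Complex.reCLM.contDiff.comp (contDiff_const.mul hz1)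
  have hZ0sm : ContDiff ℝ (⊤ : ℕ∞) Z0 := by
    rw [hZ0]
    exact Complex.reCLM.contDiff.comp (contDiff_const.mul hz0)
  have hd1 := hre z1 (fun y => (mu y)⁻¹) (-2) hz1 hinvsm (fun x => by rw [e1]; push_cast; ring)
    (fun x => by rw [(hF x).1]; push_cast; ring)
  have hd0 := hre z0 (fun y => (mu y)⁻¹ * U y) 2 hz0 hprodsm (fun x => by rw [e0]; push_cast; ring)
    (fun x => by rw [(hF x).2]; push_cast; ring)
  rw [← hZ1] at hd1
  rw [← hZ0] at hd0
  refine ⟨KK2 G al k mu U Z1 Z0, ⟨KK2_coef G al k hmu hU hZ1sm hZ0sm, ?_,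
    ⟨2, fun x => KK2_degree G al k mu U Z1 Z0 x⟩, fun x p => ?_⟩,
    fun x => KK2_degree G al k mu U Z1 Z0 x, ?_⟩
  · intro x j
    have h1 : Z1 (x + fun i => (j i : ℝ)) = Z1 x := by
      rw [hZ1]
      show (k * z1 _).re = _
      rw [hz1per x j]
    have h0 : Z0 (x + fun i => (j i : ℝ)) = Z0 x := by
      rw [hZ0]
      show (k * z0 _).re = _
      rw [hz0per x j]
    unfold KK2
    rw [h1, h0, hmuper x j, hUper x j]
  · exact KK2_bracket G hG al hal2 k hmu hmu0 hU hZ1sm hZ0sm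
      (fun x => by rw [hd1]; push_cast; ring) (fun x => by rw [hd0]; push_cast; ring) x p
  · rintro ⟨q, hq⟩
    -- two momenta with the same energy
    have hex : ∀ P : ℂ, ∃ p : V2, al 0 * p 0 + al 1 * p 1 = P := by
      intro P
      have hdet : (al 0).re * (al 1).im - (al 0).im * (al 1).re ≠ 0 := by
        have e : ((starRingEnd ℂ) (al 0) * al 1).im =
            (al 0).re * (al 1).im - (al 0).im * (al 1).re := by
          rw [Complex.mul_im, Complex.conj_re, Complex.conj_im]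
          ring
        rwa [e] at hal
      obtain ⟨D, hD⟩ : ∃ D, D = (al 0).re * (al 1).im - (al 0).im * (al 1).re := ⟨_, rfl⟩
      rw [← hD] at hdet
      refine ⟨![(P.re * (al 1).im - P.im * (al 1).re) / D,
        (P.im * (al 0).re - P.re * (al 0).im) / D], ?_⟩
      apply Complex.ext
      · simp only [Complex.add_re, Complex.mul_re, Complex.ofReal_re, Complex.ofReal_im,
          Matrix.cons_val_zero, Matrix.cons_val_one]
        field_simp
        rw [hD]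
        ring
      · simp only [Complex.add_im, Complex.mul_im, Complex.ofReal_re, Complex.ofReal_im,
          Matrix.cons_val_zero, Matrix.cons_val_one]
        field_simp
        rw [hD]
        ring
    obtain ⟨r, hr⟩ := IsAlgClosed.exists_pow_nat_eq ((starRingEnd ℂ) k) (n := 2) (by norm_num)
    obtain ⟨p, hp⟩ := hex r
    obtain ⟨p', hp'⟩ := hex (Complex.I * r)
    have hHam : ∀ (P : ℂ) (p : V2), al 0 * p 0 + al 1 * p 1 = P →
        ((Ham (fun x => mu x • G) U 0 p : ℝ) : ℂ) = mu 0 * (P * (starRingEnd ℂ) P) + U 0 := by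
      intro P p hP
      rw [← hP]
      unfold Ham
      push_cast
      simp only [Fin.sum_univ_two, Matrix.smul_apply, smul_eq_mul]
      push_cast
      simp only [hal2, map_add, map_mul, Complex.conj_ofReal]
      ring
    have hquad : ∀ (P : ℂ) (p : V2), al 0 * p 0 + al 1 * p 1 = P →
        ((((1 / 2 : ℝ) * ∑ i, ∑ j, (1 * Mk al k i j) * p i * p j + 0 : ℝ)) : ℂ) =
          k * P ^ 2 + (starRingEnd ℂ) (k * P ^ 2) := by
      intro P p hP
      rw [← hP]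
      push_cast
      simp only [Fin.sum_univ_two, Mk_coe, map_add, map_mul, map_pow, Complex.conj_ofReal]
      ring
    have hsame : Ham (fun x => mu x • G) U 0 p = Ham (fun x => mu x • G) U 0 p' := by
      have h1 : ((Ham (fun x => mu x • G) U 0 p : ℝ) : ℂ) =
          ((Ham (fun x => mu x • G) U 0 p' : ℝ) : ℂ) := by
        rw [hHam r p hp, hHam (Complex.I * r) p' hp', map_mul, Complex.conj_I]
        linear_combination (mu 0 : ℂ) * r * (starRingEnd ℂ) r * Complex.I_sq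
      exact_mod_cast h1
    have h1 := hq 0 p
    have h2 := hq 0 p'
    rw [← hsame, ← h1, KK2_eval, KK2_eval, ← hsame] at h2
    have h3 : (((1 / 2 : ℝ) * ∑ i, ∑ j, (1 * Mk al k i j) * p' i * p' j + 0 : ℝ)) =
        ((1 / 2 : ℝ) * ∑ i, ∑ j, (1 * Mk al k i j) * p i * p j + 0 : ℝ) := by linarith
    have h4 : ((((1 / 2 : ℝ) * ∑ i, ∑ j, (1 * Mk al k i j) * p' i * p' j + 0 : ℝ)) : ℂ) =
        ((((1 / 2 : ℝ) * ∑ i, ∑ j, (1 * Mk al k i j) * p i * p j + 0 : ℝ)) : ℂ) := by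
      rw [h3]
    rw [hquad r p hp, hquad (Complex.I * r) p' hp', mul_pow, Complex.I_sq, hr, map_mul, map_mul,
      Complex.conj_conj, map_mul, Complex.conj_conj, map_neg, map_one] at h4
    have h5 : (4 : ℂ) = 0 := by
      linear_combination (-1 : ℂ) * h4 - 4 * hkk
    norm_num at h5

end Pool.W4b1b5d.H63
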