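import Pool.Agent.W_4b1b5d_h63.DTheta

/-!
# Gluing by complete lines
-/

set_option autoImplicit false

open Filter Topology
open Pool.W4b1b5d.H3

namespace Pool.W4b1b5d.H63

/-- the real vector `2 Re (ν α)` -/
noncomputable def ev (al : Fin 2 → ℂ) (ν : ℂ) : V2 := fun i => 2 * (ν * al i).re

theorem ev_coe (al : Fin 2 → ℂ) (ν : ℂ) (i : Fin 2) :
    ((ev al ν i : ℝ) : ℂ) = ν * al i + (starRingEnd ℂ) (ν * al i) := by
  rw [Complex.add_conj]
  rfl

theorem fderiv_ev (al : Fin 2 → ℂ) (ν : ℂ) (f : V2 → ℂ) (x : V2) :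
    fderiv ℝ f x (ev al ν) = ν * dd al f x + (starRingEnd ℂ) ν * dd (cj al) f x := by
  rw [BetaA_dir]
  unfold dd cj
  rw [Finset.mul_sum, Finset.mul_sum, ← Finset.sum_add_distrib]
  refine Finset.sum_congr rfl fun i _ => ?_
  rw [ev_coe, map_mul]
  ring

theorem ev_smul (al : Fin 2 → ℂ) (ν : ℂ) (t : ℝ) : ev al (t * ν) = t • ev al ν := by
  funext i
  simp only [ev, Pi.smul_apply, smul_eq_mul, Complex.mul_re, Complex.mul_im, Complex.ofReal_re,
    Complex.ofReal_im]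
  ring

/-- the derivative along a line -/
theorem line_deriv (al : Fin 2 → ℂ) (ν : ℂ) {f : V2 → ℂ} (x : V2) (t : ℝ)
    (hf : DifferentiableAt ℝ f (x + t • ev al ν)) :
    HasDerivAt (fun s : ℝ => f (x + s • ev al ν))
      (ν * dd al f (x + t • ev al ν) + (starRingEnd ℂ) ν * dd (cj al) f (x + t • ev al ν)) t := by
  have h2 : HasDerivAt (fun t : ℝ => x + t • ev al ν) (ev al ν) t := by
    have h3 := ((hasDerivAt_id t).smul_const (ev al ν)).const_add x
    rwa [one_smul] at h3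
  have h4 := hf.hasFDerivAt.comp_hasDerivAt t h2
  rwa [fderiv_ev] at h4

/-- the mixed derivative vanishes -/
theorem mixed_zero (al : Fin 2 → ℂ) (c ν : ℂ) (hν : ‖ν‖ = 1) (hc : ν ^ 4 = (starRingEnd ℂ) c)
    {w : V2 → ℂ} {x : V2} (hw : Sm w x)
    (h : dd al (dd al w) x = c * dd (cj al) (dd (cj al) w) x) :
    (Complex.I * ν) * dd al (fun y => ν * dd al w y + (starRingEnd ℂ) ν * dd (cj al) w y) x +
      (starRingEnd ℂ) (Complex.I * ν) *
        dd (cj al) (fun y => ν * dd al w y + (starRingEnd ℂ) ν * dd (cj al) w y) x = 0 := by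
  have s1 : Sm (fun y => ν * dd al w y) x := (Sm.const ν x).mul (hw.dd al)
  have s2 : Sm (fun y => (starRingEnd ℂ) ν * dd (cj al) w y) x :=
    (Sm.const ((starRingEnd ℂ) ν) x).mul (hw.dd (cj al))
  rw [dd_add _ s1.diff s2.diff, dd_add _ s1.diff s2.diff, dd_const_mul _ _ (hw.dd al).diff,
    dd_const_mul _ _ (hw.dd al).diff, dd_const_mul _ _ (hw.dd (cj al)).diff,
    dd_const_mul _ _ (hw.dd (cj al)).diff, h, dd_comm al (cj al) hw, map_mul, Complex.conj_I]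
  have h1 : ν * (starRingEnd ℂ) ν = 1 := by
    rw [Complex.mul_conj, Complex.normSq_eq_norm_sq, hν]
    norm_num
  have h2 : c = (starRingEnd ℂ) ν ^ 4 := by
    rw [← map_pow, hc, Complex.conj_conj]
  have h3 : ν ^ 2 * c = (starRingEnd ℂ) ν ^ 2 := by
    rw [h2]
    linear_combination ((ν * (starRingEnd ℂ) ν) + 1) * (starRingEnd ℂ) ν ^ 2 * h1
  linear_combination Complex.I * dd (cj al) (dd (cj al) w) x * h3

/-- the wave equation from the two formulas -/
theorem wave_of (al : Fin 2 → ℂ) (c s : ℂ) (hs : s ≠ 0) {w z : V2 → ℂ} {x : V2} (hw : Sm w x)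
    (hz : Sm z x) (h1 : ∀ᶠ y in 𝓝 x, dd (cj al) z y = s * dd al w y)
    (h2 : ∀ᶠ y in 𝓝 x, dd al z y = s * c * dd (cj al) w y) :
    dd al (dd al w) x = c * dd (cj al) (dd (cj al) w) x := by
  have e1 : dd al (dd (cj al) z) x = s * dd al (dd al w) x := by
    rw [dd_congr (g := fun y => s * dd al w y) h1, dd_const_mul _ _ (hw.dd al).diff]
  have e2 : dd (cj al) (dd al z) x = s * c * dd (cj al) (dd (cj al) w) x := by
    rw [dd_congr (g := fun y => s * c * dd (cj al) w y) h2, dd_const_mul _ _ (hw.dd (cj al)).diff]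
  rw [dd_comm al (cj al) hz, e2] at e1
  apply mul_left_cancel₀ hs
  linear_combination -e1

/-- The two formulas at a point. -/
def FF (al : Fin 2 → ℂ) (rho RU : V2 → ℝ) (z1 z0 : V2 → ℂ) (c : ℂ) (y : V2) : Prop :=
  dd al z1 y = -2 * c * ddr (cj al) rho y ∧ dd al z0 y = 2 * c * ddr (cj al) RU y

theorem FF_unique (al : Fin 2 → ℂ) (hal : ((starRingEnd ℂ) (al 0) * al 1).im ≠ 0)
    {rho RU : V2 → ℝ} (hrho : ContDiff ℝ (⊤ : ℕ∞) rho) (hRU : ContDiff ℝ (⊤ : ℕ∞) RU)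
    {z1 z0 : V2 → ℂ} {c c' : ℂ} {y : V2} (h : FF al rho RU z1 z0 c y)
    (h' : FF al rho RU z1 z0 c' y) (hy : fderiv ℝ rho y ≠ 0 ∨ fderiv ℝ RU y ≠ 0) : c = c' := by
  have hdr : DifferentiableAt ℝ rho y := hrho.differentiable (by simp) y
  have hdR : DifferentiableAt ℝ RU y := hRU.differentiable (by simp) y
  rcases hy with hy | hy
  · have h1 : ddr (cj al) rho y ≠ 0 := by
      rw [ddr_conj al hdr]
      simpa using ddr_ne_zero al hal hdr hy
    have h2 := h.1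
    rw [h'.1] at h2
    have h3 : (-2 : ℂ) * ddr (cj al) rho y * (c - c') = 0 := by linear_combination -h2
    exact sub_eq_zero.1 ((mul_eq_zero.1 h3).resolve_left (by simp [h1]))
  · have h1 : ddr (cj al) RU y ≠ 0 := by
      rw [ddr_conj al hdR]
      simpa using ddr_ne_zero al hal hdR hy
    have h2 := h.2
    rw [h'.2] at h2
    have h3 : (2 : ℂ) * ddr (cj al) RU y * (c - c') = 0 := by linear_combination -h2
    exact sub_eq_zero.1 ((mul_eq_zero.1 h3).resolve_left (by simp [h1]))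

/-- **The line lemma.**  Let every point of `W = {dρ ≠ 0 or d(ρU) ≠ 0}` have a neighbourhood where
the formulas hold with one constant `c`, `|c| = 1`.  Then through every point of `W` there is a
complete line in `W` along which the formulas hold with the same constant. -/
theorem line_lemma (al : Fin 2 → ℂ) (hal : ((starRingEnd ℂ) (al 0) * al 1).im ≠ 0)
    {rho RU : V2 → ℝ} (hrho : ContDiff ℝ (⊤ : ℕ∞) rho) (hRU : ContDiff ℝ (⊤ : ℕ∞) RU)
    {z1 z0 : V2 → ℂ} (hz1 : ContDiff ℝ (⊤ : ℕ∞) z1) (hz0 : ContDiff ℝ (⊤ : ℕ∞) z0)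
    (e1 : ∀ x, dd (cj al) z1 x = -2 * ddr al rho x) (e0 : ∀ x, dd (cj al) z0 x = 2 * ddr al RU x)
    (hloc : ∀ x, fderiv ℝ rho x ≠ 0 ∨ fderiv ℝ RU x ≠ 0 →
      ∃ c : ℂ, ‖c‖ = 1 ∧ ∀ᶠ y in 𝓝 x, FF al rho RU z1 z0 c y)
    (x : V2) (hx : fderiv ℝ rho x ≠ 0 ∨ fderiv ℝ RU x ≠ 0) (c : ℂ) (hc1 : ‖c‖ = 1)
    (hc : ∀ᶠ y in 𝓝 x, FF al rho RU z1 z0 c y) :
    ∃ ν : ℂ, ‖ν‖ = 1 ∧ ν ^ 4 = (starRingEnd ℂ) c ∧ ∀ t : ℝ,
      (fderiv ℝ rho (x + t • ev al ν) ≠ 0 ∨ fderiv ℝ RU (x + t • ev al ν) ≠ 0) ∧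
      ∀ᶠ y in 𝓝 (x + t • ev al ν), FF al rho RU z1 z0 c y := by
  -- one of the two functions
  obtain ⟨w, z, s, hw, hz, hs, hwx, hez, hFz, hwW⟩ : ∃ (w : V2 → ℝ) (z : V2 → ℂ) (s : ℂ),
      ContDiff ℝ (⊤ : ℕ∞) w ∧ ContDiff ℝ (⊤ : ℕ∞) z ∧ s ≠ 0 ∧ fderiv ℝ w x ≠ 0 ∧
      (∀ y, dd (cj al) z y = s * ddr al w y) ∧
      (∀ y, FF al rho RU z1 z0 c y → dd al z y = s * c * ddr (cj al) w y) ∧
      (∀ y, fderiv ℝ w y ≠ 0 → (fderiv ℝ rho y ≠ 0 ∨ fderiv ℝ RU y ≠ 0)) := by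
    rcases hx with hx | hx
    · exact ⟨rho, z1, -2, hrho, hz1, by norm_num, hx, e1, fun y hy => hy.1, fun y hy => Or.inl hy⟩
    · exact ⟨RU, z0, 2, hRU, hz0, by norm_num, hx, e0, fun y hy => hy.2, fun y hy => Or.inr hy⟩
  have hwd : Differentiable ℝ w := hw.differentiable (by simp)
  obtain ⟨W, hW⟩ : ∃ W : V2 → ℂ, W = fun y => (w y : ℂ) := ⟨_, rfl⟩
  have hWs : ContDiff ℝ (⊤ : ℕ∞) W := by
    rw [hW]
    exact Complex.ofRealCLM.contDiff.comp hw
  have hWdd : ∀ a y, ddr a w y = dd a W y := fun a y => by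
    rw [hW]
    rfl
  have hWconj : ∀ y, dd (cj al) W y = (starRingEnd ℂ) (dd al W y) := fun y => by
    rw [← hWdd, ← hWdd]
    exact ddr_conj al (hwd y)
  have hwave : ∀ y, (∀ᶠ y' in 𝓝 y, FF al rho RU z1 z0 c y') →
      dd al (dd al W) y = c * dd (cj al) (dd (cj al) W) y := by
    intro y hy
    refine wave_of al c s hs (Sm.of hWs y) (Sm.of hz y) (Eventually.of_forall fun y' => ?_) ?_
    · rw [hez, hWdd]
    · filter_upwards [hy] with y' hy'
      rw [hFz y' hy', hWdd]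
  -- a fourth root
  obtain ⟨ν0, hν0⟩ := IsAlgClosed.exists_pow_nat_eq ((starRingEnd ℂ) c) (n := 4) (by norm_num)
  have hν01 : ‖ν0‖ = 1 := by
    have h1 : ‖ν0‖ ^ 4 = 1 := by
      rw [← norm_pow, hν0, RCLike.norm_conj, hc1]
    exact (pow_eq_one_iff_of_nonneg (norm_nonneg _) (by norm_num)).1 h1
  have hI4 : (Complex.I * ν0) ^ 4 = (starRingEnd ℂ) c := by
    rw [mul_pow, Complex.I_pow_four, one_mul, hν0]
  have hI1 : ‖Complex.I * ν0‖ = 1 := by
    rw [norm_mul, Complex.norm_I, hν01, one_mul]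
  -- the transversal derivative does not vanish for one of the two axes
  obtain ⟨ν, hν1, hν4, hνx⟩ : ∃ ν : ℂ, ‖ν‖ = 1 ∧ ν ^ 4 = (starRingEnd ℂ) c ∧
      ν * dd al W x + (starRingEnd ℂ) ν * dd (cj al) W x ≠ 0 := by
    by_contra hcon
    push Not at hcon
    have h1 := hcon ν0 hν01 hν0
    have h2 := hcon (Complex.I * ν0) hI1 hI4
    rw [map_mul, Complex.conj_I] at h2
    have h3 : ν0 * dd al W x = 0 := by
      linear_combination (1 / 2 : ℂ) * h1 - (Complex.I / 2) * h2 +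
        (1 / 2 : ℂ) * (ν0 * dd al W x - (starRingEnd ℂ) ν0 * dd (cj al) W x) * Complex.I_sq
    have h4 : dd al W x = 0 := by
      rcases mul_eq_zero.1 h3 with h | h
      · rw [h, norm_zero] at hν01
        norm_num at hν01
      · exact h
    exact hwx (fderiv_zero_of_ddr al hal (hwd x) (by rw [hWdd]; exact h4))
  obtain ⟨m, hm⟩ : ∃ m : V2 → ℂ,
      m = fun y => ν * dd al W y + (starRingEnd ℂ) ν * dd (cj al) W y := ⟨_, rfl⟩
  have hmsm : ∀ y, Sm m y := fun y => by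
    rw [hm]
    exact ((Sm.const _ _).mul ((Sm.of hWs y).dd al)).add
      ((Sm.const _ _).mul ((Sm.of hWs y).dd (cj al)))
  have hmcont : Continuous m := continuous_iff_continuousAt.2 fun y => (hmsm y).cd.continuousAt
  have hmne : ∀ y, m y ≠ 0 → fderiv ℝ w y ≠ 0 := by
    intro y hy h0
    apply hy
    rw [hm]
    show ν * dd al W y + (starRingEnd ℂ) ν * dd (cj al) W y = 0
    have h1 : dd al W y = 0 := by
      rw [← hWdd]
      unfold ddr dd
      simp only [BetaA_ofReal (hwd y), h0]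
      simp
    rw [hWconj, h1]
    simp
  have hmx : m x ≠ 0 := by
    rw [hm]
    exact hνx
  obtain ⟨e, he⟩ : ∃ e, e = ev al (Complex.I * ν) := ⟨_, rfl⟩
  obtain ⟨S, hS⟩ : ∃ S : Set ℝ, S = {t : ℝ | m (x + t • e) = m x ∧
      ∀ᶠ y in 𝓝 (x + t • e), FF al rho RU z1 z0 c y} := ⟨_, rfl⟩
  have hcl : Continuous (fun t : ℝ => x + t • e) := by fun_prop
  have hopen : IsOpen S := by
    rw [isOpen_iff_mem_nhds]
    intro t ht
    rw [hS] at ht ⊢
    obtain ⟨ht1, ht2⟩ := ht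
    have h1 : ∀ᶠ t' in 𝓝 t, ∀ᶠ y in 𝓝 (x + t' • e), FF al rho RU z1 z0 c y :=
      hcl.continuousAt.eventually ht2.eventually_nhds
    obtain ⟨r, hr, hball⟩ := Metric.eventually_nhds_iff_ball.1 h1
    have h2 : ∀ t' ∈ Metric.ball t r, HasDerivAt (fun s : ℝ => m (x + s • e)) 0 t' := by
      intro t' ht'
      have h3 := line_deriv al (Complex.I * ν) (f := m) x t' (hmsm _).diff
      rw [← he] at h3
      have h4 := mixed_zero al c ν hν1 hν4 (Sm.of hWs (x + t' • e)) (hwave _ (hball t' ht'))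
      rw [← hm] at h4
      rwa [h4] at h3
    filter_upwards [Metric.ball_mem_nhds t hr] with t' ht'
    refine ⟨?_, hball t' ht'⟩
    rw [← ht1]
    exact Metric.isOpen_ball.is_const_of_deriv_eq_zero (convex_ball t r).isPreconnected
      (fun s hs => (h2 s hs).differentiableAt.differentiableWithinAt)
      (fun s hs => (h2 s hs).deriv) ht' (Metric.mem_ball_self hr)
  have hclosed : IsClosed S := by
    rw [← isOpen_compl_iff, isOpen_iff_mem_nhds]
    intro t ht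
    by_contra hcon
    have hfr : ∃ᶠ t' in 𝓝 t, t' ∈ S := by
      rw [Filter.Frequently]
      intro h
      exact hcon h
    apply ht
    have h1 : m (x + t • e) = m x := by
      by_contra hne
      have h2 : ∀ᶠ t' in 𝓝 t, m (x + t' • e) ≠ m x :=
        (hmcont.comp hcl).continuousAt.eventually_ne hne
      obtain ⟨t', ht1, ht2⟩ := (hfr.and_eventually h2).exists
      rw [hS] at ht1
      exact ht2 ht1.1
    have h2 : fderiv ℝ w (x + t • e) ≠ 0 := hmne _ (by rw [h1]; exact hmx)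
    obtain ⟨c', hc'1, hc'⟩ := hloc _ (hwW _ h2)
    have h3 : ∀ᶠ t' in 𝓝 t, m (x + t' • e) ≠ 0 :=
      (hmcont.comp hcl).continuousAt.eventually_ne (by
        show m (x + t • e) ≠ 0
        rw [h1]
        exact hmx)
    have h4 : ∀ᶠ t' in 𝓝 t, FF al rho RU z1 z0 c' (x + t' • e) :=
      hcl.continuousAt.eventually hc'
    obtain ⟨t', ht1, ht2, ht3⟩ := (hfr.and_eventually (h3.and h4)).exists
    rw [hS] at ht1 ⊢
    have h5 : c = c' := FF_unique al hal hrho hRU ht1.2.self_of_nhds ht3 (hwW _ (hmne _ ht2))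
    refine ⟨h1, ?_⟩
    rw [h5]
    exact hc'
  have h0 : (0 : ℝ) ∈ S := by
    rw [hS]
    refine ⟨?_, ?_⟩
    · simp
    · simpa using hc
  have huniv : S = Set.univ := IsClopen.eq_univ ⟨hclosed, hopen⟩ ⟨0, h0⟩
  refine ⟨Complex.I * ν, ?_, ?_, fun t => ?_⟩
  · rw [norm_mul, Complex.norm_I, hν1, one_mul]
  · rw [mul_pow, Complex.I_pow_four, one_mul, hν4]
  · have ht : t ∈ S := huniv ▸ Set.mem_univ t
    rw [hS] at ht
    rw [← he]
    exact ⟨hwW _ (hmne _ (by rw [ht.1]; exact hmx)), ht.2⟩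

/-- Two lines with directions `ev al ν`, `ev al ν'` meet unless `ν' = ± ν`. -/
theorem lines_meet (al : Fin 2 → ℂ) (hal : ((starRingEnd ℂ) (al 0) * al 1).im ≠ 0) (ν ν' : ℂ)
    (hν : ‖ν‖ = 1) (hν' : ‖ν'‖ = 1) (x y : V2) :
    ν' = ν ∨ ν' = -ν ∨ ∃ s t : ℝ, x + s • ev al ν = y + t • ev al ν' := by
  obtain ⟨mu, hmu, -⟩ := dir_decomp al hal (y - x)
  -- want `s ν - t ν' = mu`
  obtain ⟨D, hD⟩ : ∃ D : ℝ, D = ν.re * ν'.im - ν.im * ν'.re := ⟨_, rfl⟩
  by_cases hD0 : D = 0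
  · have hn : ν.re ^ 2 + ν.im ^ 2 = 1 := by
      have := Complex.sq_norm ν
      rw [hν, Complex.normSq_apply] at this
      nlinarith
    have hn' : ν'.re ^ 2 + ν'.im ^ 2 = 1 := by
      have := Complex.sq_norm ν'
      rw [hν', Complex.normSq_apply] at this
      nlinarith
    obtain ⟨k, hk⟩ : ∃ k : ℝ, k = ν.re * ν'.re + ν.im * ν'.im := ⟨_, rfl⟩
    have h1 : ν'.re = k * ν.re := by
      rw [hk]
      rw [hD] at hD0
      linear_combination (-ν'.re) * hn - ν.im * hD0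
    have h2 : ν'.im = k * ν.im := by
      rw [hk]
      rw [hD] at hD0
      linear_combination (-ν'.im) * hn + ν.re * hD0
    have h3 : k ^ 2 = 1 := by
      rw [h1, h2] at hn'
      linear_combination hn' - k ^ 2 * hn
    have h4 : (k - 1) * (k + 1) = 0 := by linear_combination h3
    rcases mul_eq_zero.1 h4 with h | h
    · left
      have h5 : k = 1 := by linarith
      apply Complex.ext
      · rw [h1, h5, one_mul]
      · rw [h2, h5, one_mul]
    · right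
      left
      have h5 : k = -1 := by linarith
      apply Complex.ext
      · rw [h1, h5, Complex.neg_re]
        ring
      · rw [h2, h5, Complex.neg_im]
        ring
  · right
    right
    refine ⟨(mu.re * ν'.im - mu.im * ν'.re) / D, (mu.re * ν.im - mu.im * ν.re) / D, ?_⟩
    have key : ((((mu.re * ν'.im - mu.im * ν'.re) / D : ℝ)) : ℂ) * ν -
        ((((mu.re * ν.im - mu.im * ν.re) / D : ℝ)) : ℂ) * ν' = mu := by
      apply Complex.ext
      · simp only [Complex.sub_re, Complex.mul_re, Complex.ofReal_re, Complex.ofReal_im]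
        field_simp
        rw [hD]
        ring
      · simp only [Complex.sub_im, Complex.mul_im, Complex.ofReal_re, Complex.ofReal_im]
        field_simp
        rw [hD]
        ring
    rw [← ev_smul, ← ev_smul]
    funext i
    have h1 := hmu i
    rw [← key] at h1
    have h2 : (((x + ev al ((((mu.re * ν'.im - mu.im * ν'.re) / D : ℝ)) * ν)) i : ℝ) : ℂ) =
        (((y + ev al ((((mu.re * ν.im - mu.im * ν.re) / D : ℝ)) * ν')) i : ℝ) : ℂ) := by
      simp only [Pi.add_apply, Complex.ofReal_add, ev_coe]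
      simp only [Pi.sub_apply, Complex.ofReal_sub] at h1
      rw [sub_mul, map_sub] at h1
      linear_combination -h1
    exact_mod_cast h2

/-- **One constant on `W`.** -/
theorem one_const (al : Fin 2 → ℂ) (hal : ((starRingEnd ℂ) (al 0) * al 1).im ≠ 0)
    {rho RU : V2 → ℝ} (hrho : ContDiff ℝ (⊤ : ℕ∞) rho) (hRU : ContDiff ℝ (⊤ : ℕ∞) RU)
    {z1 z0 : V2 → ℂ} (hz1 : ContDiff ℝ (⊤ : ℕ∞) z1) (hz0 : ContDiff ℝ (⊤ : ℕ∞) z0)
    (e1 : ∀ x, dd (cj al) z1 x = -2 * ddr al rho x) (e0 : ∀ x, dd (cj al) z0 x = 2 * ddr al RU x)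
    (hloc : ∀ x, fderiv ℝ rho x ≠ 0 ∨ fderiv ℝ RU x ≠ 0 →
      ∃ c : ℂ, ‖c‖ = 1 ∧ ∀ᶠ y in 𝓝 x, FF al rho RU z1 z0 c y)
    (x y : V2) (hx : fderiv ℝ rho x ≠ 0 ∨ fderiv ℝ RU x ≠ 0)
    (hy : fderiv ℝ rho y ≠ 0 ∨ fderiv ℝ RU y ≠ 0) (c c' : ℂ)
    (hc : FF al rho RU z1 z0 c x) (hc' : FF al rho RU z1 z0 c' y) : c = c' := by
  obtain ⟨c1, hc11, hc1⟩ := hloc x hx
  obtain ⟨c2, hc21, hc2⟩ := hloc y hy
  have k1 : c = c1 := FF_unique al hal hrho hRU hc hc1.self_of_nhds hx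
  have k2 : c' = c2 := FF_unique al hal hrho hRU hc' hc2.self_of_nhds hy
  rw [k1, k2]
  obtain ⟨ν, n1, n2, n3⟩ := line_lemma al hal hrho hRU hz1 hz0 e1 e0 hloc x hx c1 hc11 hc1
  obtain ⟨ν', m1, m2, m3⟩ := line_lemma al hal hrho hRU hz1 hz0 e1 e0 hloc y hy c2 hc21 hc2
  rcases lines_meet al hal ν ν' n1 m1 x y with h | h | ⟨s, t, hst⟩
  · rw [h, n2] at m2
    exact (starRingEnd ℂ).injective m2
  · rw [h, neg_pow, n2] at m2
    norm_num at m2
    exact (starRingEnd ℂ).injective m2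
  · have h1 := (n3 s).2.self_of_nhds
    have h2 := (m3 t).2.self_of_nhds
    rw [← hst] at h2
    exact FF_unique al hal hrho hRU h1 h2 (n3 s).1

/-- The formulas near the points where `dρ ≠ 0`, from the points where `dU ≠ 0` (dense). -/
theorem extend_loc (al : Fin 2 → ℂ) (hal : ((starRingEnd ℂ) (al 0) * al 1).im ≠ 0)
    {rho RU : V2 → ℝ} (hrho : ContDiff ℝ (⊤ : ℕ∞) rho) (hRU : ContDiff ℝ (⊤ : ℕ∞) RU)
    {z1 z0 : V2 → ℂ} (hz1 : ContDiff ℝ (⊤ : ℕ∞) z1) (hz0 : ContDiff ℝ (⊤ : ℕ∞) z0)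
    {O : Set V2} (hdense : Dense O) (x : V2) (hx : fderiv ℝ rho x ≠ 0)
    (hloc : ∀ y ∈ O, ∃ c : ℂ, ‖c‖ = 1 ∧ ∀ᶠ y' in 𝓝 y, FF al rho RU z1 z0 c y') :
    ∃ c : ℂ, ‖c‖ = 1 ∧ ∀ᶠ y in 𝓝 x, FF al rho RU z1 z0 c y := by
  have hdr : Differentiable ℝ rho := hrho.differentiable (by simp)
  have hR : ∀ y, Sm (ddr (cj al) rho) y := Sm.of (ddr_smooth (cj al) hrho)
  have hRU' : ∀ y, Sm (ddr (cj al) RU) y := Sm.of (ddr_smooth (cj al) hRU)
  have hZ : ∀ y, Sm (dd al z1) y := fun y => (Sm.of hz1 y).dd al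
  have hne : ∀ y, fderiv ℝ rho y ≠ 0 → ddr (cj al) rho y ≠ 0 := by
    intro y hy
    rw [ddr_conj al (hdr y)]
    simpa using ddr_ne_zero al hal (hdr y) hy
  have hxR := hne x hx
  obtain ⟨T, hT⟩ : ∃ T : V2 → ℂ, T = fun y => dd al z1 y / (-2 * ddr (cj al) rho y) := ⟨_, rfl⟩
  have hev : ∀ᶠ y in 𝓝 x, ddr (cj al) rho y ≠ 0 := (hR x).cd.continuousAt.eventually_ne hxR
  obtain ⟨r, hr, hball⟩ := Metric.eventually_nhds_iff_ball.1 hev
  have hTs : ∀ y ∈ Metric.ball x r, Sm T y := by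
    intro y hy
    rw [hT]
    exact (hZ y).div ((Sm.const (-2) y).mul (hR y))
      (mul_ne_zero (by norm_num) (hball y hy))
  have hTO : ∀ y ∈ Metric.ball x r, y ∈ O → ∃ c : ℂ, ‖c‖ = 1 ∧ T =ᶠ[𝓝 y] fun _ => c := by
    intro y hy hyO
    obtain ⟨c, hc1, hc⟩ := hloc y hyO
    refine ⟨c, hc1, ?_⟩
    filter_upwards [hc, Metric.isOpen_ball.mem_nhds hy] with y' h1 h2
    rw [hT]
    show dd al z1 y' / (-2 * ddr (cj al) rho y') = c
    rw [h1.1, div_eq_iff (mul_ne_zero (by norm_num) (hball y' h2))]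
    ring
  have hTd : ∀ y ∈ Metric.ball x r, fderiv ℝ T y = 0 := by
    intro y hy
    by_contra hcon
    have h1 : ContinuousAt (fderiv ℝ T) y :=
      ((hTs y hy).cd.fderiv_right (m := (⊤ : ℕ∞)) (by simp)).continuousAt
    have h2 : ∀ᶠ y' in 𝓝 y, fderiv ℝ T y' ≠ 0 ∧ y' ∈ Metric.ball x r :=
      (h1.eventually_ne hcon).and (Metric.isOpen_ball.mem_nhds hy)
    obtain ⟨V, hV1, hV2, hV3⟩ := mem_nhds_iff.1 h2
    obtain ⟨y', hy1, hy2⟩ := hdense.inter_open_nonempty V hV2 ⟨y, hV3⟩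
    obtain ⟨h3, h4⟩ := hV1 hy1
    obtain ⟨c, -, hc⟩ := hTO y' h4 hy2
    apply h3
    rw [hc.fderiv_eq]
    simp
  have hTc : ∀ y ∈ Metric.ball x r, T y = T x := by
    intro y hy
    exact Metric.isOpen_ball.is_const_of_fderiv_eq_zero (𝕜 := ℝ)
      (convex_ball x r).isPreconnected
      (fun s hs => (hTs s hs).diff.differentiableWithinAt) (fun s hs => hTd s hs) hy
      (Metric.mem_ball_self hr)
  obtain ⟨y0, hy0, hy0'⟩ := hdense.inter_open_nonempty (Metric.ball x r) Metric.isOpen_ball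
    ⟨x, Metric.mem_ball_self hr⟩
  have hFO : ∀ y ∈ Metric.ball x r, y ∈ O → FF al rho RU z1 z0 (T x) y := by
    intro y hy hyO
    obtain ⟨c, hc1, hc⟩ := hloc y hyO
    obtain ⟨c', hc1', hc'⟩ := hTO y hy hyO
    have h1 : c' = T x := by
      rw [← hTc y hy]
      exact hc'.self_of_nhds.symm
    have h2 : c = T x := by
      rw [← hTc y hy, hT]
      show c = dd al z1 y / (-2 * ddr (cj al) rho y)
      rw [hc.self_of_nhds.1, eq_div_iff (mul_ne_zero (by norm_num) (hball y hy))]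
      ring
    rw [← h2]
    exact hc.self_of_nhds
  refine ⟨T x, ?_, ?_⟩
  · obtain ⟨c, hc1, hc⟩ := hTO y0 hy0 hy0'
    have h1 : T y0 = c := hc.self_of_nhds
    rw [← hTc y0 hy0, h1]
    exact hc1
  · filter_upwards [Metric.ball_mem_nhds x hr] with y hy
    have hclos : y ∈ closure (Metric.ball x r ∩ O) := by
      rw [mem_closure_iff_nhds]
      intro V hV
      obtain ⟨y', hy1, hy2⟩ := hdense.inter_open_nonempty
        (interior V ∩ Metric.ball x r) (isOpen_interior.inter Metric.isOpen_ball)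
        ⟨y, mem_interior_iff_mem_nhds.2 hV, hy⟩
      exact ⟨y', interior_subset hy1.1, hy1.2, hy2⟩
    have c1 : IsClosed {y | dd al z1 y = -2 * T x * ddr (cj al) rho y} := by
      apply isClosed_eq
      · exact continuous_iff_continuousAt.2 fun y => (hZ y).cd.continuousAt
      · exact continuous_const.mul (continuous_iff_continuousAt.2 fun y => (hR y).cd.continuousAt)
    have c2 : IsClosed {y | dd al z0 y = 2 * T x * ddr (cj al) RU y} := by
      apply isClosed_eq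
      · exact continuous_iff_continuousAt.2 fun y => ((Sm.of hz0 y).dd al).cd.continuousAt
      · exact continuous_const.mul (continuous_iff_continuousAt.2 fun y =>
          (hRU' y).cd.continuousAt)
    exact ⟨closure_minimal (fun y' hy' => (hFO y' hy'.1 hy'.2).1) c1 hclos,
      closure_minimal (fun y' hy' => (hFO y' hy'.1 hy'.2).2) c2 hclos⟩

/-- **Gluing.**  `O = {dU ≠ 0}` dense. -/
theorem glue (al : Fin 2 → ℂ) (hal : ((starRingEnd ℂ) (al 0) * al 1).im ≠ 0)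
    {rho U : V2 → ℝ} (hrho : ContDiff ℝ (⊤ : ℕ∞) rho) (hrho0 : ∀ x, rho x ≠ 0)
    (hU : ContDiff ℝ (⊤ : ℕ∞) U)
    {z1 z0 : V2 → ℂ} (hz1 : ContDiff ℝ (⊤ : ℕ∞) z1) (hz0 : ContDiff ℝ (⊤ : ℕ∞) z0)
    (e1 : ∀ x, dd (cj al) z1 x = -2 * ddr al rho x)
    (e0 : ∀ x, dd (cj al) z0 x = 2 * ddr al (fun y => rho y * U y) x)
    (hloc : ∀ x, fderiv ℝ U x ≠ 0 →
      ∃ c : ℂ, ‖c‖ = 1 ∧ ∀ᶠ y in 𝓝 x, FF al rho (fun y => rho y * U y) z1 z0 c y)
    (hdense : Dense {x | fderiv ℝ U x ≠ 0}) :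
    ∃ c : ℂ, ‖c‖ = 1 ∧ ∀ x, FF al rho (fun y => rho y * U y) z1 z0 c x := by
  have hRU : ContDiff ℝ (⊤ : ℕ∞) (fun y => rho y * U y) := hrho.mul hU
  have hUW : ∀ x, fderiv ℝ U x ≠ 0 →
      (fderiv ℝ rho x ≠ 0 ∨ fderiv ℝ (fun y => rho y * U y) x ≠ 0) := by
    intro x hx
    by_contra hcon
    push Not at hcon
    obtain ⟨h1, h2⟩ := hcon
    rw [fderiv_fun_mul (hrho.differentiable (by simp) x) (hU.differentiable (by simp) x), h1] at h2
    apply hx
    have h3 : rho x • fderiv ℝ U x = 0 := by simpa using h2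
    exact (smul_eq_zero.1 h3).resolve_left (hrho0 x)
  have hWU : ∀ x, (fderiv ℝ rho x ≠ 0 ∨ fderiv ℝ (fun y => rho y * U y) x ≠ 0) →
      ∃ c : ℂ, ‖c‖ = 1 ∧ ∀ᶠ y in 𝓝 x, FF al rho (fun y => rho y * U y) z1 z0 c y := by
    intro x hx
    by_cases hr : fderiv ℝ rho x = 0
    · rcases hx with h | h
      · exact absurd hr h
      · apply hloc
        intro h1
        apply h
        rw [fderiv_fun_mul (hrho.differentiable (by simp) x) (hU.differentiable (by simp) x), hr,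
          h1]
        simp
    · exact extend_loc al hal hrho hRU hz1 hz0 hdense x hr hloc
  obtain ⟨x0, hx0⟩ := hdense.nonempty
  obtain ⟨c, hc1, hc⟩ := hloc x0 hx0
  refine ⟨c, hc1, ?_⟩
  have h1 : ∀ x, fderiv ℝ U x ≠ 0 → FF al rho (fun y => rho y * U y) z1 z0 c x := by
    intro x hx
    obtain ⟨c', hc1', hc'⟩ := hloc x hx
    have := one_const al hal hrho hRU hz1 hz0 e1 e0 hWU x0 x (hUW x0 hx0) (hUW x hx) c c'
      hc.self_of_nhds hc'.self_of_nhds
    rw [this]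
    exact hc'.self_of_nhds
  have c1 : IsClosed {y | dd al z1 y = -2 * c * ddr (cj al) rho y} := by
    apply isClosed_eq
    · exact continuous_iff_continuousAt.2 fun y => ((Sm.of hz1 y).dd al).cd.continuousAt
    · exact continuous_const.mul (ddr_smooth (cj al) hrho).continuous
  have c2 : IsClosed {y | dd al z0 y = 2 * c * ddr (cj al) (fun y => rho y * U y) y} := by
    apply isClosed_eq
    · exact continuous_iff_continuousAt.2 fun y => ((Sm.of hz0 y).dd al).cd.continuousAt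
    · exact continuous_const.mul (ddr_smooth (cj al) hRU).continuous
  intro x
  have hx : x ∈ closure {x | fderiv ℝ U x ≠ 0} := hdense x
  exact ⟨closure_minimal (fun y hy => (h1 y hy).1) c1 hx,
    closure_minimal (fun y hy => (h1 y hy).2) c2 hx⟩

end Pool.W4b1b5d.H63
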