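import Pool.Agent.W_4b1b5d_h63.Calc
import Pool.Agent.W_4b1b5d_h3.BetaT
import Pool.Agent.W_4b1b5d_h3.ToID
import Pool.Agent.W_4b1b5d_h34.IsoI

/-!
# If all `β_s`, `s ≥ 1`, vanish then the integral is a polynomial in `H`
-/

set_option autoImplicit false

open Filter Topology MvPolynomial
open Pool.W4b1b5d.H3 Pool.W4b1b5d.H34 Pool.Agent.U4b

namespace Pool.W4b1b5d.H63

theorem beta_zero (I : ID) (hb : ∀ (h : ℝ) (s : ℤ) (x : V2), 1 ≤ s → I.beta h s x = 0)
    (h : ℝ) (s : ℤ) (hs : s ≠ 0) (x : V2) : I.beta h s x = 0 := by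
  rcases lt_or_gt_of_ne hs with h1 | h1
  · obtain ⟨t, rfl⟩ : ∃ t : ℕ, s = -(t : ℤ) := ⟨(-s).toNat, by omega⟩
    rw [I.beta_conj, hb h t x (by omega), map_zero, mul_zero]
  · exact hb h s x (by omega)

/-- A polynomial (as a sum) vanishing for all real arguments has zero coefficients. -/
theorem coef_zero (n : ℕ) (c : ℕ → ℂ) (h : ∀ t : ℝ, ∑ b ∈ Finset.range (n + 1), c b * (t : ℂ) ^ b = 0)
    (b : ℕ) (hb : b ≤ n) : c b = 0 := by
  obtain ⟨P, hP⟩ : ∃ P : Polynomial ℂ,
      P = ∑ b ∈ Finset.range (n + 1), Polynomial.C (c b) * Polynomial.X ^ b := ⟨_, rfl⟩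
  have h1 : P = 0 := by
    apply Polynomial.eq_zero_of_infinite_isRoot
    refine Set.Infinite.mono ?_ (Set.infinite_range_of_injective Complex.ofReal_injective)
    rintro _ ⟨t, rfl⟩
    show P.IsRoot (t : ℂ)
    rw [Polynomial.IsRoot, hP, Polynomial.eval_finsetSum]
    simpa using h t
  have h2 : P.coeff b = c b := by
    rw [hP, Polynomial.finsetSum_coeff]
    rw [Finset.sum_eq_single b]
    · simp
    · intro b' _ hne
      rw [Polynomial.coeff_C_mul, Polynomial.coeff_X_pow, if_neg (Ne.symm hne), mul_zero]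
    · intro h3
      exact absurd (Finset.mem_range.2 (by omega)) h3
  rw [← h2, h1, Polynomial.coeff_zero]

theorem f_offdiag (I : ID) (hb : ∀ (h : ℝ) (s : ℤ) (x : V2), 1 ≤ s → I.beta h s x = 0)
    (a b : ℤ) (hab : a ≠ b) (x : V2) : I.f a b x = 0 := by
  by_cases hbn : b < 0
  · exact I.f_neg' a b x hbn
  by_cases hbn' : (I.n : ℤ) < b
  · exact I.BetaT_big a b hbn' x
  obtain ⟨t, rfl⟩ : ∃ t : ℕ, b = (t : ℤ) := ⟨b.toNat, by omega⟩
  have h1 := coef_zero I.n (fun b => I.f ((a - t) + b) b x) (fun t' => by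
    have h2 := beta_zero I hb (I.mu x * t' + I.U x) (a - t) (by omega) x
    unfold ID.beta at h2
    have h3 : I.ell (I.mu x * t' + I.U x) x = t' := by
      unfold ID.ell
      have := (I.mupos x).ne'
      field_simp
      ring
    rw [h3] at h2
    exact h2) t (by omega)
  simpa using h1

/-- The diagonal part is a polynomial in `mu t + U`. -/
theorem diag_poly (I : ID) (hb : ∀ (h : ℝ) (s : ℤ) (x : V2), 1 ≤ s → I.beta h s x = 0) :
    ∃ q : Polynomial ℝ, ∀ (x : V2) (t : ℝ),
      ∑ b ∈ Finset.range (I.n + 1), I.f b b x * (t : ℂ) ^ b =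
        ((q.eval (I.mu x * t + I.U x) : ℝ) : ℂ) := by
  have hz : ∀ (a : Fin 2 → ℂ) (h : ℝ) (s : ℤ) (hs : s ≠ 0) (x : V2), dd a (I.beta h s) x = 0 := by
    intro a h s hs x
    have h1 : I.beta h s = fun _ => 0 := by
      funext y
      exact beta_zero I hb h s hs y
    rw [h1, dd_const]
  have hconst : ∀ (h : ℝ) (x : V2), I.beta h 0 x = I.beta h 0 0 := by
    intro h x
    have hd : Differentiable ℝ (I.beta h 0) := (I.beta_smooth h 0).differentiable (by simp)
    have h1 : ∀ y, dd (cj I.al) (I.beta h 0) y = 0 := by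
      intro y
      have h2 := I.beta_trans h 1 y
      rw [show (1 : ℤ) - 1 = 0 by ring, hz _ h (1 + 1) (by norm_num), beta_zero I hb h (1 + 1)
        (by norm_num)] at h2
      simpa using h2
    have hre : ∀ y, (starRingEnd ℂ) (I.beta h 0 y) = I.beta h 0 y := by
      intro y
      have := I.beta_conj h 0 y
      simpa using this.symm
    have h2 : ∀ y, dd I.al (I.beta h 0) y = 0 := by
      intro y
      have h3 := dd_conj (cj I.al) (hd y)
      have hcc : cj (cj I.al) = I.al := by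
        funext i
        simp [cj]
      rw [hcc, h1, map_zero] at h3
      have h4 : (fun y => (starRingEnd ℂ) (I.beta h 0 y)) = I.beta h 0 := funext hre
      rwa [h4] at h3
    exact is_const_of_fderiv_eq_zero (𝕜 := ℝ) hd
      (fun y => fderiv_zero_of_dd I.al I.hal (hd y) (h2 y) (h1 y)) x 0
  obtain ⟨q, hq⟩ : ∃ q : Polynomial ℝ, q = ∑ b ∈ Finset.range (I.n + 1),
    Polynomial.C ((I.f b b 0).re) *
      (Polynomial.C ((I.mu 0)⁻¹) * (Polynomial.X - Polynomial.C (I.U 0))) ^ b := ⟨_, rfl⟩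
  refine ⟨q, fun x t => ?_⟩
  have h1 := hconst (I.mu x * t + I.U x) x
  unfold ID.beta at h1
  have h3 : I.ell (I.mu x * t + I.U x) x = t := by
    unfold ID.ell
    have := (I.mupos x).ne'
    field_simp
    ring
  rw [h3] at h1
  simp only [zero_add] at h1
  rw [h1, hq, Polynomial.eval_finsetSum, Complex.ofReal_sum]
  refine Finset.sum_congr rfl fun b _ => ?_
  have h4 : I.f b b 0 = (((I.f b b 0).re : ℝ) : ℂ) := by
    have := I.conj b b 0
    exact (Complex.conj_eq_iff_real.1 this.symm).elim fun r hr => by rw [hr]; simp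
  rw [h4]
  unfold ID.ell
  simp only [Polynomial.eval_mul, Polynomial.eval_C, Polynomial.eval_pow, Polynomial.eval_sub,
    Polynomial.eval_X, Complex.ofReal_re]
  push_cast
  rw [div_eq_inv_mul]

/-- evaluation through the complex momenta -/
theorem eval_Ph (al om : Fin 2 → ℂ)
    (h3 : ∀ i j, om i * al j + (starRingEnd ℂ) (om i * al j) = if i = j then 1 else 0)
    (P : RP) (p : V2) :
    ((MvPolynomial.eval p P : ℝ) : ℂ) =
      MvPolynomial.eval ![∑ j, al j * p j, ∑ j, (starRingEnd ℂ) (al j) * p j] (Ph om P) := by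
  induction P using MvPolynomial.induction_on with
  | C r => rw [Subst_C, eval_C, eval_C]
  | add P Q hP hQ => rw [map_add, map_add, map_add, ← hP, ← hQ]; push_cast; rfl
  | mul_X P i hP =>
    rw [map_mul, map_mul, map_mul, ← hP, Subst_X]
    push_cast
    congr 1
    simp only [eval_X, map_add, map_mul, eval_C, Matrix.cons_val_zero, Matrix.cons_val_one,
      Fin.sum_univ_two]
    have e0 := h3 i 0
    have e1 := h3 i 1
    rw [map_mul] at e0 e1
    have h4 : ((p i : ℝ) : ℂ) = (if i = 0 then (1 : ℂ) else 0) * p 0 +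
        (if i = 1 then (1 : ℂ) else 0) * p 1 := by
      fin_cases i <;> simp
    rw [h4, ← e0, ← e1]
    ring

theorem homog_odd_zero {P : RP} (h : ∀ m : Fin 2 →₀ ℕ, Odd (m 0 + m 1) → P.coeff m = 0) (k : ℕ)
    (hk : Odd k) : homogeneousComponent k P = 0 := by
  ext m
  rw [coeff_homogeneousComponent, coeff_zero]
  split_ifs with h1
  · apply h
    rw [Finsupp.degree_eq_sum, Fin.sum_univ_two] at h1
    rw [h1]
    exact hk
  · rfl

/-- **An even integral with vanishing `β_s`, `s ≥ 1`, is a polynomial in `H`.** -/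
theorem poly_of_beta (G : Matrix (Fin 2) (Fin 2) ℝ) (I : ID) (n : ℕ) (hn : Even n) (hIn : I.n = n)
    (om : Fin 2 → ℂ)
    (hal2 : ∀ i j, ((G i j : ℝ) : ℂ)
      = I.al i * (starRingEnd ℂ) (I.al j) + I.al j * (starRingEnd ℂ) (I.al i))
    (h3 : ∀ i j, om i * I.al j + (starRingEnd ℂ) (om i * I.al j) = if i = j then 1 else 0)
    (F : V2 → RP) (hF : I.f = fco om n F)
    (heven : ∀ x, ∀ m : Fin 2 →₀ ℕ, Odd (m 0 + m 1) → (F x).coeff m = 0)
    (hb : ∀ (h : ℝ) (s : ℤ) (x : V2), 1 ≤ s → I.beta h s x = 0) :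
    ∃ q : Polynomial ℝ, ∀ x p, MvPolynomial.eval p (F x) =
      q.eval (Ham (fun x => I.mu x • G) I.U x p) := by
  obtain ⟨q, hq⟩ := diag_poly I hb
  refine ⟨q, fun x p => ?_⟩
  obtain ⟨P, hP⟩ : ∃ P : ℂ, P = ∑ j, I.al j * p j := ⟨_, rfl⟩
  have hP' : ∑ j, (starRingEnd ℂ) (I.al j) * p j = (starRingEnd ℂ) P := by
    rw [hP, map_sum]
    exact Finset.sum_congr rfl fun j _ => by rw [map_mul, Complex.conj_ofReal]
  have hcoef : ∀ a b : ℕ, (Ph om (F x)).coeff (mk2 a b) = if a = b then I.f a a x else 0 := by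
    intro a b
    by_cases hpar : Even (a + b)
    · have h4 : I.f a b x = (Ph om (F x)).coeff (mk2 a b) := by
        rw [hF]
        unfold fco
        rw [if_pos ⟨Int.natCast_nonneg _, Int.natCast_nonneg _, by
          exact_mod_cast hpar.add hn⟩]
        simp
      rw [← h4]
      split_ifs with hab
      · rw [hab]
      · exact f_offdiag I hb a b (by exact_mod_cast hab) x
    · have h4 : a ≠ b := by
        rintro rfl
        exact hpar ⟨a, rfl⟩
      rw [if_neg h4, Subst_coeff, Subst_mk2_degree,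
        homog_odd_zero (heven x) _ (Nat.not_even_iff_odd.1 hpar), map_zero, coeff_zero]
  have hsum : MvPolynomial.eval ![P, (starRingEnd ℂ) P] (Ph om (F x)) =
      ∑ b ∈ Finset.range (n + 1), I.f b b x * (P * (starRingEnd ℂ) P) ^ b := by
    have hsup : (Ph om (F x)).support ⊆ (Finset.range (n + 1)).image (fun b => mk2 b b) := by
      intro m hm
      rw [MvPolynomial.mem_support_iff] at hm
      rw [RealId_eq_mk2 m, hcoef] at hm
      have h4 : m 0 = m 1 := by
        by_contra h5
        rw [if_neg h5] at hm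
        exact hm rfl
      rw [if_pos h4] at hm
      rw [Finset.mem_image]
      refine ⟨m 0, ?_, ?_⟩
      · rw [Finset.mem_range]
        by_contra h5
        apply hm
        apply I.f_big
        rw [hIn]
        omega
      · conv_rhs => rw [RealId_eq_mk2 m]
        rw [← h4]
    rw [MvPolynomial.eval_eq']
    rw [Finset.sum_subset hsup (fun m _ hm => by
      rw [MvPolynomial.notMem_support_iff.1 hm, zero_mul])]
    rw [Finset.sum_image (fun a _ b _ hab => (RealId_mk2_inj hab).1)]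
    refine Finset.sum_congr rfl fun b _ => ?_
    rw [hcoef, if_pos rfl, Fin.prod_univ_two, RealId_mk2_zero, RealId_mk2_one, mul_pow]
    simp
  have hH : ((Ham (fun x => I.mu x • G) I.U x p : ℝ) : ℂ) =
      I.mu x * (P * (starRingEnd ℂ) P) + I.U x := by
    rw [hP]
    unfold Ham
    push_cast
    simp only [Fin.sum_univ_two, Matrix.smul_apply, smul_eq_mul]
    push_cast
    simp only [hal2, map_add, map_mul, Complex.conj_ofReal]
    ring
  have hPP : P * (starRingEnd ℂ) P = ((Complex.normSq P : ℝ) : ℂ) := Complex.mul_conj P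
  have hH' : Ham (fun x => I.mu x • G) I.U x p = I.mu x * Complex.normSq P + I.U x := by
    rw [hPP] at hH
    exact_mod_cast hH
  have h4 : ((MvPolynomial.eval p (F x) : ℝ) : ℂ) =
      ((q.eval (Ham (fun x => I.mu x • G) I.U x p) : ℝ) : ℂ) := by
    rw [eval_Ph I.al om h3, ← hP, hP', hsum, hPP, ← hIn, hq, hH']
  exact_mod_cast h4

end Pool.W4b1b5d.H63
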