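import Pool.Agent.W_4b1b5d_h63.PlG6
import Pool.Agent.W_4b1b5d_h63.DenseCase
import Pool.Agent.W_4b1b5d_h34.IsoI

/-!
# The frozen statement from the plateau theorem at one energy
-/

set_option autoImplicit false

open Filter Topology Polynomial
open Pool.W4b1b5d.H3 Pool.W4b1b5d.E Pool.W4b1b5d.SH Pool.W4b1b5d.H34 Pool.Agent.U4b

namespace Pool.W4b1b5d.H63

/-- The conclusion of the plateau theorem at the energy `h`. -/
def ECl (I : ID) (k : ℂ) (M : ℕ) (h : ℝ) : Prop :=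
  ∃ (g : ℂ[X]) (A : V2 → ℝ), g.natDegree ≤ M ∧ ∀ x, ∀ Y : ℂ, Y ≠ 0 → LB M (Bt I h) 0 x Y =
    g.eval (k * Y + A x + (starRingEnd ℂ) k * (I.ell h x : ℂ) ^ 2 / Y)

/-- The plateau theorem at one energy `h > max U`: all the data it may use.  `S` is the open
connected set on which the structure is known (`GA`), `dU = 0` on its frontier, `dU ≠ 0` at some
point of it. -/
def EnergyThm : Prop :=
  ∀ (I : ID) (N : ℕ) (_ : I.n = 2 * N) (V : Uni I) (G : Matrix (Fin 2) (Fin 2) ℝ) (_ : G.PosDef)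
    (_ : ∀ i j, ((G i j : ℝ) : ℂ)
      = I.al i * (starRingEnd ℂ) (I.al j) + I.al j * (starRingEnd ℂ) (I.al i))
    (k t : ℂ) (_ : ‖k‖ = 1) (_ : t * k = (starRingEnd ℂ) k) (S : Set V2) (_ : IsOpen S)
    (_ : IsPreconnected S) (_ : ∀ x ∈ S, GA I V t x) (_ : ∀ x ∈ frontier S, fderiv ℝ I.U x = 0)
    (_ : ∃ x ∈ S, fderiv ℝ I.U x ≠ 0) (_ : ∃ x ∈ S, ∃ y ∈ S, I.U x ≠ I.U y)
    (M : ℕ) (_ : 1 ≤ M) (_ : ∀ (k : ℤ) (h : ℝ) (x : V2), (M : ℤ) < k → Bt I h k x = 0)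
    (h : ℝ) (_ : ∀ x, I.U x < h) (a : ℂ) (_ : a ≠ 0) (_ : ∀ x, Bt I h M x = a),
    PartII (Ham (fun x => I.mu x • G) I.U) ∨ ECl I k M h

theorem exists_ne_of_open {U : V2 → ℝ} {S : Set V2} (hS : IsOpen S) {x : V2} (hx : x ∈ S)
    (hne : fderiv ℝ U x ≠ 0) : ∃ a ∈ S, ∃ b ∈ S, U a ≠ U b := by
  by_contra hcon
  push Not at hcon
  apply hne
  have h1 : U =ᶠ[𝓝 x] fun _ => U x := by
    filter_upwards [hS.mem_nhds hx] with y hy
    exact hcon y hy x hx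
  rw [h1.fderiv_eq]
  simp

theorem exists_fderiv_ne {U : V2 → ℝ} (hU : ContDiff ℝ (⊤ : ℕ∞) U) (hUn : ∃ x y, U x ≠ U y) :
    ∃ x, fderiv ℝ U x ≠ 0 := by
  by_contra hcon
  push Not at hcon
  obtain ⟨x, y, hxy⟩ := hUn
  exact hxy (is_const_of_fderiv_eq_zero (hU.differentiable (by simp)) hcon x y)

theorem bdd_of_per {U : V2 → ℝ} (hU : Continuous U) (hUper : Per U) : ∃ C, ∀ x, U x < C := by
  have hc : IsCompact (Set.Icc (0 : V2) 1) := isCompact_Icc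
  obtain ⟨C, hC⟩ := (hc.image hU).bddAbove
  refine ⟨C + 1, fun x => ?_⟩
  have h1 : U x = U (x + fun i => ((-⌊x i⌋ : ℤ) : ℝ)) := (hUper x fun i => -⌊x i⌋).symm
  have h2 : U (x + fun i => ((-⌊x i⌋ : ℤ) : ℝ)) ≤ C := by
    refine hC ⟨_, ⟨fun i => ?_, fun i => ?_⟩, rfl⟩
    · simp only [Pi.add_apply, Pi.zero_apply]
      push_cast
      linarith [Int.floor_le (x i)]
    · simp only [Pi.add_apply, Pi.one_apply]
      push_cast
      linarith [Int.lt_floor_add_one (x i)]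
  linarith

/-- **Part (ii) for the metrics `μ(x) • G` from the plateau theorem at one energy.** -/
theorem isoII_of_energy (hE : EnergyThm) : IsoII := by
  intro μ G U hμ hμ0 hμper hG hU hUper hUn
  intro hyp
  obtain ⟨F, n, hF, hn, hle, hat, hnf⟩ := id hyp
  obtain ⟨I, N, h1, h2, h3, h4, h5⟩ := anyID μ G U hμ hμ0 hμper hG hU hUper hUn F n hn hF hle hnf
  subst h3
  subst h4
  obtain ⟨V⟩ := exists_uni I N h2 h5
  have hGA : ∀ x, fderiv ℝ I.U x ≠ 0 → ∃ θ : ℂ, ‖θ‖ = 1 ∧ GA I V θ x := fun x hx =>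
    exists_GA I N h2 h5 V x (subset_closure hx)
  obtain ⟨x0, hx0⟩ := exists_fderiv_ne I.Usm hUn
  obtain ⟨t, ht, hGt⟩ := hGA x0 hx0
  obtain ⟨k, hk, hkt⟩ := exists_k t ht
  obtain ⟨M, pa, hM1, -, hpa, htop, hbig⟩ := top_exists I N h2 h5
  obtain ⟨C, hC⟩ := bdd_of_per I.Usm.continuous I.Uper
  have hmem : x0 ∈ SS I V t x0 := SS_mem I V hGA hx0 hGt
  -- two energies
  have hfin : ({h : ℝ | pa.eval (h : ℂ) = 0}).Finite :=
    (Polynomial.finite_setOfPred_isRoot hpa).preimage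
      (Complex.ofReal_injective.injOn (s := Complex.ofReal ⁻¹' {x | pa.IsRoot x}))
  have hinf : (Set.Ioi C \ {h : ℝ | pa.eval (h : ℂ) = 0}).Infinite :=
    (Set.Ioi_infinite C).sdiff hfin
  obtain ⟨e1, he1⟩ := hinf.nonempty
  obtain ⟨e2, he2⟩ := (hinf.sdiff (Set.finite_singleton e1)).nonempty
  have hmain : ∀ h, h = e1 ∨ h = e2 →
      PartII (Ham (fun x => I.mu x • G) I.U) ∨ ECl I k M h := by
    intro h hh
    have hh' : h ∈ Set.Ioi C \ {h : ℝ | pa.eval (h : ℂ) = 0} := by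
      rcases hh with rfl | rfl
      · exact he1
      · exact he2.1
    exact hE I N h2 V G hG h1 k t hk hkt (SS I V t x0) (SS_open I V t x0)
      (SS_preconnected I V t x0) (fun x hx => SS_GA I V t x0 hx)
      (fun x hx => SS_frontier I V hGA t x0 hx) ⟨x0, hmem, hx0⟩
      (exists_ne_of_open (SS_open I V t x0) hmem hx0) M hM1 hbig h
      (fun x => (hC x).trans hh'.1) (pa.eval (h : ℂ)) hh'.2 (htop h)
  rcases hmain e1 (Or.inl rfl) with h6 | h6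
  · exact h6 hyp
  rcases hmain e2 (Or.inr rfl) with h7 | h7
  · exact h7 hyp
  have hne : e1 ≠ e2 := fun h => he2.2 h.symm
  refine quad_of_g I V G hG h1 hk hkt M hM1 hbig (fun h => pa.eval (h : ℂ)) htop e1 e2 hne ?_
  rintro h (rfl | rfl)
  · obtain ⟨g, A, hg, hs⟩ := h6
    exact ⟨he1.2, g, A, hg, hs⟩
  · obtain ⟨g, A, hg, hs⟩ := h7
    exact ⟨he2.1.2, g, A, hg, hs⟩

end Pool.W4b1b5d.H63
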