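import Mathlib

/-!
# Coefficients of `(k Y + w + c / Y)^i`
-/

set_option autoImplicit false

open Filter Topology Polynomial

namespace Pool.W4b1b5d.H63

/-- The Laurent sum `∑_{|m| ≤ N} f m Y^m`. -/
noncomputable def SN (N : ℕ) (f : ℤ → ℂ) (Y : ℂ) : ℂ :=
  ∑ j ∈ Finset.range (2 * N + 1), f ((j : ℤ) - N) * Y ^ ((j : ℤ) - N)

/-- The coefficient of `Y^m` in `(k Y + w + c / Y)^i`. -/
noncomputable def PC (k w c : ℂ) : ℕ → ℤ → ℂ
  | 0, m => if m = 0 then 1 else 0
  | i + 1, m => k * PC k w c i (m - 1) + w * PC k w c i m + c * PC k w c i (m + 1)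

theorem PC_big (k w c : ℂ) (i : ℕ) : ∀ m : ℤ, (i : ℤ) < |m| → PC k w c i m = 0 := by
  induction i with
  | zero =>
    intro m hm
    have h : m ≠ 0 := by
      rintro rfl
      simp at hm
    simp [PC, h]
  | succ i ih =>
    intro m hm
    have h1 : (i : ℤ) < |m - 1| := by
      rw [lt_abs] at hm ⊢
      push_cast at hm
      omega
    have h2 : (i : ℤ) < |m| := by
      rw [lt_abs] at hm ⊢
      push_cast at hm
      omega
    have h3 : (i : ℤ) < |m + 1| := by
      rw [lt_abs] at hm ⊢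
      push_cast at hm
      omega
    simp only [PC, ih _ h1, ih _ h2, ih _ h3, mul_zero, add_zero]

theorem PC_top (k w c : ℂ) (i : ℕ) : PC k w c i i = k ^ i := by
  induction i with
  | zero => simp [PC]
  | succ i ih =>
    have h1 : ((i + 1 : ℕ) : ℤ) - 1 = i := by push_cast; ring
    rw [PC, h1, ih, PC_big k w c i _ (by rw [lt_abs]; push_cast; omega),
      PC_big k w c i _ (by rw [lt_abs]; push_cast; omega)]
    ring

theorem PC_sub (k w c : ℂ) (i : ℕ) : PC k w c (i + 1) i = ((i : ℂ) + 1) * k ^ i * w := by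
  induction i with
  | zero =>
    simp [PC]
  | succ i ih =>
    rw [PC]
    have h1 : ((i + 1 : ℕ) : ℤ) - 1 = i := by push_cast; ring
    rw [h1, ih, PC_top, PC_big k w c (i + 1) _ (by rw [lt_abs]; push_cast; omega)]
    push_cast
    ring

theorem SN_add (N : ℕ) (f g : ℤ → ℂ) (Y : ℂ) :
    SN N (fun m => f m + g m) Y = SN N f Y + SN N g Y := by
  unfold SN
  rw [← Finset.sum_add_distrib]
  exact Finset.sum_congr rfl fun j _ => by ring

theorem SN_sub (N : ℕ) (f g : ℤ → ℂ) (Y : ℂ) :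
    SN N (fun m => f m - g m) Y = SN N f Y - SN N g Y := by
  unfold SN
  rw [← Finset.sum_sub_distrib]
  exact Finset.sum_congr rfl fun j _ => by ring

theorem SN_smul (N : ℕ) (a : ℂ) (f : ℤ → ℂ) (Y : ℂ) :
    SN N (fun m => a * f m) Y = a * SN N f Y := by
  unfold SN
  rw [Finset.mul_sum]
  exact Finset.sum_congr rfl fun j _ => by ring

theorem SN_sum {ι : Type*} (N : ℕ) (s : Finset ι) (f : ι → ℤ → ℂ) (Y : ℂ) :
    SN N (fun m => ∑ i ∈ s, f i m) Y = ∑ i ∈ s, SN N (f i) Y := by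
  unfold SN
  rw [Finset.sum_comm]
  exact Finset.sum_congr rfl fun j _ => by rw [Finset.sum_mul]

theorem SN_up (N : ℕ) (f : ℤ → ℂ) {Y : ℂ} (hY : Y ≠ 0) (h1 : f (-(N : ℤ) - 1) = 0) (h2 : f N = 0) :
    SN N (fun m => f (m - 1)) Y = Y * SN N f Y := by
  unfold SN
  rw [Finset.sum_range_succ', Finset.sum_range_succ, mul_add, Finset.mul_sum]
  beta_reduce
  have e1 : (((2 * N : ℕ) : ℤ) - N) = N := by push_cast; ring
  rw [e1, h2, zero_mul, mul_zero, add_zero]
  have e2 : ((0 : ℕ) : ℤ) - N - 1 = -(N : ℤ) - 1 := by push_cast; ring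
  rw [e2, h1, zero_mul, add_zero]
  refine Finset.sum_congr rfl fun j _ => ?_
  have e3 : ((j + 1 : ℕ) : ℤ) - N - 1 = j - N := by push_cast; ring
  have e4 : ((j + 1 : ℕ) : ℤ) - N = (j - N) + 1 := by push_cast; ring
  rw [e3, e4, zpow_add₀ hY, zpow_one]
  ring

theorem SN_down (N : ℕ) (f : ℤ → ℂ) {Y : ℂ} (hY : Y ≠ 0) (h1 : f ((N : ℤ) + 1) = 0)
    (h2 : f (-N) = 0) : SN N (fun m => f (m + 1)) Y = Y⁻¹ * SN N f Y := by
  unfold SN
  rw [Finset.sum_range_succ, Finset.sum_range_succ', mul_add, Finset.mul_sum]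
  beta_reduce
  have e1 : (((2 * N : ℕ) : ℤ) - N) + 1 = N + 1 := by push_cast; ring
  rw [e1, h1, zero_mul, add_zero]
  have e2 : ((0 : ℕ) : ℤ) - N = -(N : ℤ) := by push_cast; ring
  rw [e2, h2, zero_mul, mul_zero, add_zero]
  refine Finset.sum_congr rfl fun j _ => ?_
  have e4 : ((j + 1 : ℕ) : ℤ) - N = (j - N) + 1 := by push_cast; ring
  rw [e4, zpow_add₀ hY, zpow_one]
  field_simp

theorem SN_PC (k w c : ℂ) (N : ℕ) {Y : ℂ} (hY : Y ≠ 0) (i : ℕ) (hi : i ≤ N) :
    SN N (PC k w c i) Y = (k * Y + w + c / Y) ^ i := by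
  induction i with
  | zero =>
    unfold SN
    rw [Finset.sum_eq_single N]
    · simp [PC]
    · intro j _ hj
      have h : (j : ℤ) - N ≠ 0 := by omega
      simp [PC, h]
    · intro h
      exact absurd (Finset.mem_range.2 (by omega)) h
  | succ i ih =>
    have h0 := ih (by omega)
    have hf : SN N (PC k w c (i + 1)) Y = SN N (fun m => (k * PC k w c i (m - 1) +
        w * PC k w c i m) + c * PC k w c i (m + 1)) Y := rfl
    rw [hf, SN_add, SN_add, SN_smul N w, SN_smul N k (fun m => PC k w c i (m - 1)),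
      SN_smul N c (fun m => PC k w c i (m + 1)),
      SN_up N (PC k w c i) hY (PC_big _ _ _ _ _ (by rw [lt_abs]; omega))
        (PC_big _ _ _ _ _ (by rw [lt_abs]; omega)),
      SN_down N (PC k w c i) hY (PC_big _ _ _ _ _ (by rw [lt_abs]; omega))
        (PC_big _ _ _ _ _ (by rw [lt_abs]; omega)), h0]
    rw [pow_succ]
    ring

/-- The coefficient of `Y^m` in `∑ a i (k Y + w + c / Y)^i`. -/
noncomputable def PG (M : ℕ) (a : ℕ → ℂ) (k w c : ℂ) (m : ℤ) : ℂ :=
  ∑ i ∈ Finset.range (M + 1), a i * PC k w c i m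

theorem SN_PG (M : ℕ) (g : ℂ[X]) (hg : g.natDegree ≤ M) (k w c : ℂ) {Y : ℂ} (hY : Y ≠ 0) :
    SN M (PG M g.coeff k w c) Y = g.eval (k * Y + w + c / Y) := by
  have h1 : PG M g.coeff k w c = fun m => ∑ i ∈ Finset.range (M + 1), g.coeff i * PC k w c i m :=
    rfl
  rw [h1, SN_sum, Polynomial.eval_eq_sum_range' (Nat.lt_succ_of_le hg)]
  refine Finset.sum_congr rfl fun i hi => ?_
  rw [SN_smul, SN_PC k w c M hY i (by rw [Finset.mem_range] at hi; omega)]

theorem PG_big (M : ℕ) (a : ℕ → ℂ) (k w c : ℂ) (m : ℤ) (hm : (M : ℤ) < |m|) :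
    PG M a k w c m = 0 := by
  unfold PG
  refine Finset.sum_eq_zero fun i hi => ?_
  rw [Finset.mem_range] at hi
  rw [PC_big k w c i m (by omega), mul_zero]

theorem PG_top (M : ℕ) (a : ℕ → ℂ) (k w c : ℂ) : PG M a k w c M = a M * k ^ M := by
  unfold PG
  rw [Finset.sum_range_succ, PC_top, Finset.sum_eq_zero, zero_add]
  intro i hi
  rw [Finset.mem_range] at hi
  rw [PC_big k w c i M (by rw [lt_abs]; omega), mul_zero]

theorem PG_sub (M : ℕ) (a : ℕ → ℂ) (k w c : ℂ) :
    PG (M + 1) a k w c M = a M * k ^ M + a (M + 1) * (((M : ℂ) + 1) * k ^ M * w) := by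
  unfold PG
  rw [Finset.sum_range_succ, Finset.sum_range_succ, PC_top, PC_sub, Finset.sum_eq_zero, zero_add]
  intro i hi
  rw [Finset.mem_range] at hi
  rw [PC_big k w c i M (by rw [lt_abs]; omega), mul_zero]

/-- A Laurent sum which vanishes for infinitely many `Y` has zero coefficients. -/
theorem SN_ext (N : ℕ) (f : ℤ → ℂ) (s : Set ℂ) (hs : s.Infinite) (hf : ∀ Y ∈ s, Y ≠ 0 → SN N f Y = 0)
    (m : ℤ) (hm : |m| ≤ N) : f m = 0 := by
  have hp : (∑ j ∈ Finset.range (2 * N + 1), C (f ((j : ℤ) - N)) * X ^ j : ℂ[X]) = 0 := by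
    refine Polynomial.eq_zero_of_infinite_isRoot _ ?_
    refine (hs.sdiff (Set.finite_singleton (0 : ℂ))).mono ?_
    rintro Y ⟨hY, hY0⟩
    have hY0' : Y ≠ 0 := hY0
    show Polynomial.IsRoot _ Y
    rw [Polynomial.IsRoot, Polynomial.eval_finsetSum]
    have h1 := hf Y hY hY0'
    have h2 : (∑ j ∈ Finset.range (2 * N + 1), (C (f ((j : ℤ) - N)) * X ^ j : ℂ[X]).eval Y)
        = Y ^ N * SN N f Y := by
      unfold SN
      rw [Finset.mul_sum]
      refine Finset.sum_congr rfl fun j _ => ?_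
      rw [eval_mul, eval_C, eval_pow, eval_X, zpow_sub₀ hY0', zpow_natCast, zpow_natCast]
      field_simp
    rw [h2, h1, mul_zero]
  obtain ⟨j, hj⟩ : ∃ j : ℕ, m = (j : ℤ) - N := by
    rw [abs_le] at hm
    exact ⟨(m + N).toNat, by omega⟩
  have hj2 : j < 2 * N + 1 := by
    rw [abs_le] at hm
    omega
  have h3 := congrArg (fun p : ℂ[X] => p.coeff j) hp
  simp only [Polynomial.finsetSum_coeff, coeff_C_mul, coeff_X_pow, coeff_zero] at h3
  rw [Finset.sum_eq_single j] at h3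
  · rw [if_pos rfl, mul_one] at h3
    rw [hj, h3]
  · intro i _ hij
    rw [if_neg (Ne.symm hij), mul_zero]
  · intro h
    exact absurd (Finset.mem_range.2 hj2) h

theorem PC_k (k w c : ℂ) (hk : k ≠ 0) (i : ℕ) : ∀ m : ℤ,
    PC k w (c / k) i m = k ^ m * PC 1 w c i m := by
  induction i with
  | zero =>
    intro m
    by_cases hm : m = 0
    · simp [PC, hm]
    · simp [PC, hm]
  | succ i ih =>
    intro m
    rw [PC, PC, ih, ih, ih, zpow_sub₀ hk, zpow_add₀ hk, zpow_one]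
    field_simp

theorem PC_real (w c : ℝ) (i : ℕ) : ∀ m : ℤ, ∃ r : ℝ, PC 1 (w : ℂ) (c : ℂ) i m = r := by
  induction i with
  | zero =>
    intro m
    by_cases hm : m = 0
    · exact ⟨1, by simp [PC, hm]⟩
    · exact ⟨0, by simp [PC, hm]⟩
  | succ i ih =>
    intro m
    obtain ⟨r1, h1⟩ := ih (m - 1)
    obtain ⟨r2, h2⟩ := ih m
    obtain ⟨r3, h3⟩ := ih (m + 1)
    refine ⟨1 * r1 + w * r2 + c * r3, ?_⟩
    rw [PC, h1, h2, h3]
    push_cast
    ring

/-- Newton's formula with the Dickson polynomials. -/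
theorem dickson_eval' (a : ℝ) {e : ℂ} (he : e ≠ 0) (n : ℕ) :
    ((dickson 1 a n).map (algebraMap ℝ ℂ)).eval (e + a / e) = e ^ n + (a / e) ^ n := by
  induction n using Nat.twoStepInduction with
  | zero =>
    rw [dickson_zero]
    simp
    norm_num
  | one =>
    rw [dickson_one]
    simp
  | more n h1 h2 =>
    rw [dickson_add_two, Polynomial.map_sub, Polynomial.map_mul, Polynomial.map_mul, map_X, map_C,
      eval_sub, eval_mul, eval_mul, eval_X, eval_C, h1, h2]
    have h3 : (algebraMap ℝ ℂ) a = (a : ℂ) := rfl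
    rw [h3]
    obtain ⟨b, hb⟩ : ∃ b : ℂ, b = (a : ℂ) / e := ⟨_, rfl⟩
    have h4 : (a : ℂ) = e * b := by
      rw [hb]
      field_simp
    rw [← hb, h4]
    ring

theorem dickson_deg (a : ℝ) (n : ℕ) : (dickson 1 a n).natDegree ≤ n := by
  induction n using Nat.twoStepInduction with
  | zero =>
    rw [dickson_zero]
    have h : (3 - ((1 : ℕ) : ℝ[X])) = C (2 : ℝ) := by
      rw [Nat.cast_one]
      have : (C (2 : ℝ) : ℝ[X]) = 2 := rfl
      rw [this]
      norm_num
    rw [h, natDegree_C]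
  | one =>
    rw [dickson_one]
    exact natDegree_X_le
  | more n h1 h2 =>
    rw [dickson_add_two]
    refine (natDegree_sub_le _ _).trans (max_le ?_ ?_)
    · refine (natDegree_mul_le).trans ?_
      have := natDegree_X_le (R := ℝ)
      omega
    · refine (natDegree_C_mul_le _ _).trans ?_
      omega

end Pool.W4b1b5d.H63
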