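import Pool.Agent.W_4b1b5d_h63.PlS
import Pool.Agent.W_4b1b5d_h63.PlG1

/-!
# The relations `J` and `trans` determine a family on a connected open set by its value at one point
-/

set_option autoImplicit false

open Filter Topology
open Pool.W4b1b5d.H3

namespace Pool.W4b1b5d.H63

/-- The two relations at `x` for a family of coefficients `f m`: `J(f, κ) = 0` and the transport
equation.  `A0`, `A1` are numbers, `t = θ`. -/
def RelJ (al : Fin 2 → ℂ) (l : V2 → ℝ) (t A0 A1 : ℂ) (x : V2) (f : ℤ → V2 → ℂ) : Prop :=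
  ∀ m : ℤ, dd al (f m) x - t * (l x : ℂ) ^ 2 * dd al (f (m + 2)) x =
      ((m : ℂ) + 1) * f (m + 1) x * A0 + ((m : ℂ) + 2) * f (m + 2) x * A1 ∧
    dd (cj al) (f m) x + (l x : ℂ) * dd al (f (m + 1)) x +
      2 * ((m : ℂ) + 1) * ddr al l x * f (m + 1) x = 0

theorem RelJ_sub {al : Fin 2 → ℂ} {l : V2 → ℝ} {t A0 A1 : ℂ} {x : V2} {f g : ℤ → V2 → ℂ}
    (hfd : ∀ m, DifferentiableAt ℝ (f m) x) (hgd : ∀ m, DifferentiableAt ℝ (g m) x)
    (hf : RelJ al l t A0 A1 x f) (hg : RelJ al l t A0 A1 x g) :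
    RelJ al l t A0 A1 x (fun m y => f m y - g m y) := by
  intro m
  rw [dd_sub al (hfd m) (hgd m), dd_sub al (hfd (m + 2)) (hgd (m + 2)),
    dd_sub al (hfd (m + 1)) (hgd (m + 1)), dd_sub (cj al) (hfd m) (hgd m)]
  constructor
  · linear_combination (hf m).1 - (hg m).1
  · linear_combination (hf m).2 - (hg m).2

theorem RelJ_sum {al : Fin 2 → ℂ} {l : V2 → ℝ} {t A0 A1 : ℂ} {x : V2} {ι : Type*} (s : Finset ι)
    (c : ι → ℂ) (f : ι → ℤ → V2 → ℂ) (hfd : ∀ i m, DifferentiableAt ℝ (f i m) x)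
    (hf : ∀ i, RelJ al l t A0 A1 x (f i)) :
    RelJ al l t A0 A1 x (fun m y => ∑ i ∈ s, c i * f i m y) := by
  intro m
  have hd : ∀ (a : Fin 2 → ℂ) (m : ℤ), dd a (fun y => ∑ i ∈ s, c i * f i m y) x =
      ∑ i ∈ s, c i * dd a (f i m) x := by
    intro a m
    rw [dd_sum a s (fun i y => c i * f i m y) fun i _ => (hfd i m).const_mul _]
    exact Finset.sum_congr rfl fun i _ => dd_const_mul a _ (hfd i m)
  rw [hd, hd, hd, hd]
  constructor
  · simp only [Finset.mul_sum, Finset.sum_mul, ← Finset.sum_sub_distrib, ← Finset.sum_add_distrib]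
    refine Finset.sum_congr rfl fun i _ => ?_
    linear_combination c i * (hf i m).1
  · simp only [Finset.mul_sum, ← Finset.sum_add_distrib]
    refine Finset.sum_eq_zero fun i _ => ?_
    linear_combination c i * (hf i m).2

theorem PC_diff (k : ℂ) {w c : V2 → ℂ} {x : V2} (hw : DifferentiableAt ℝ w x)
    (hc : DifferentiableAt ℝ c x) (i : ℕ) :
    ∀ m : ℤ, DifferentiableAt ℝ (fun y => PC k (w y) (c y) i m) x := by
  induction i with
  | zero =>
    intro m
    exact differentiableAt_const _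
  | succ i ih =>
    intro m
    exact (((ih (m - 1)).const_mul k).add (hw.mul (ih m))).add (hc.mul (ih (m + 1)))

theorem PC_smooth (k : ℂ) {w c : V2 → ℂ} (hw : ContDiff ℝ (⊤ : ℕ∞) w)
    (hc : ContDiff ℝ (⊤ : ℕ∞) c) (i : ℕ) :
    ∀ m : ℤ, ContDiff ℝ (⊤ : ℕ∞) (fun y => PC k (w y) (c y) i m) := by
  induction i with
  | zero =>
    intro m
    exact contDiff_const
  | succ i ih =>
    intro m
    exact ((contDiff_const.mul (ih (m - 1))).add (hw.mul (ih m))).add (hc.mul (ih (m + 1)))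

/-- The coefficients of the powers of `κ = k Y + w + conj k l² / Y` satisfy the relations. -/
theorem RelJ_PC (al : Fin 2 → ℂ) {l : V2 → ℝ} {w : V2 → ℂ} {x : V2} (hl : DifferentiableAt ℝ l x)
    (hw : DifferentiableAt ℝ w x) {t A0 A1 k kb : ℂ} (hkt : t * k = kb)
    (h1 : dd al w x = k * A0) (h2 : k * A1 = 2 * kb * (l x : ℂ) * ddr al l x)
    (h3 : dd (cj al) w x = -2 * k * ddr al l x)
    (h4 : 2 * kb * ddr (cj al) l x + k * A0 = 0) (i : ℕ) :
    RelJ al l t A0 A1 x (fun m y => PC k (w y) (kb * (l y : ℂ) ^ 2) i m) := by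
  have hlc : DifferentiableAt ℝ (fun y => (l y : ℂ)) x := (Complex.ofRealCLM.differentiableAt).comp x hl
  have hcd : DifferentiableAt ℝ (fun y => kb * (l y : ℂ) ^ 2) x := (hlc.fun_pow 2).const_mul kb
  have hdc : ∀ a : Fin 2 → ℂ, dd a (fun y => kb * (l y : ℂ) ^ 2) x =
      2 * kb * (l x : ℂ) * ddr a l x := by
    intro a
    rw [dd_const_mul a kb (hlc.fun_pow 2)]
    have h5 := dd_pow a hlc 2
    have h6 : dd a (fun y => (l y : ℂ) ^ 2) x = (2 : ℂ) * (l x : ℂ) * ddr a l x := by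
      rw [h5]
      unfold ddr
      norm_num
    rw [h6]
    ring
  induction i with
  | zero =>
    intro m
    have h0 : ∀ (a : Fin 2 → ℂ) (m : ℤ), dd a (fun y => PC k (w y) (kb * (l y : ℂ) ^ 2) 0 m) x = 0 := by
      intro a m
      simp only [PC]
      exact dd_const a _ x
    rw [h0, h0, h0, h0]
    simp only [PC]
    by_cases e1 : m + 1 = 0
    · have e2 : ¬ (m + 2 = 0) := by omega
      have e3 : (m : ℂ) + 1 = 0 := by exact_mod_cast congrArg (fun z : ℤ => (z : ℂ)) e1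
      rw [if_pos e1, if_neg e2, e3]
      constructor <;> ring
    · by_cases e2 : m + 2 = 0
      · have e3 : (m : ℂ) + 2 = 0 := by exact_mod_cast congrArg (fun z : ℤ => (z : ℂ)) e2
        rw [if_neg e1, if_pos e2, e3]
        constructor <;> ring
      · rw [if_neg e1, if_neg e2]
        constructor <;> ring
  | succ i ih =>
    intro m
    have hD := PC_diff k hw hcd i
    have hdd : ∀ (a : Fin 2 → ℂ) (m : ℤ),
        dd a (fun y => PC k (w y) (kb * (l y : ℂ) ^ 2) (i + 1) m) x =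
        k * dd a (fun y => PC k (w y) (kb * (l y : ℂ) ^ 2) i (m - 1)) x +
        (dd a w x * PC k (w x) (kb * (l x : ℂ) ^ 2) i m +
          w x * dd a (fun y => PC k (w y) (kb * (l y : ℂ) ^ 2) i m) x) +
        (2 * kb * (l x : ℂ) * ddr a l x * PC k (w x) (kb * (l x : ℂ) ^ 2) i (m + 1) +
          kb * (l x : ℂ) ^ 2 * dd a (fun y => PC k (w y) (kb * (l y : ℂ) ^ 2) i (m + 1)) x) := by
      intro a m
      have e1 : (fun y => PC k (w y) (kb * (l y : ℂ) ^ 2) (i + 1) m) = fun y =>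
          (k * PC k (w y) (kb * (l y : ℂ) ^ 2) i (m - 1) + w y * PC k (w y) (kb * (l y : ℂ) ^ 2) i m)
          + (kb * (l y : ℂ) ^ 2) * PC k (w y) (kb * (l y : ℂ) ^ 2) i (m + 1) := rfl
      rw [e1, dd_add a (((hD (m - 1)).const_mul k).fun_add (hw.fun_mul (hD m)))
          (hcd.fun_mul (hD (m + 1))),
        dd_add a ((hD (m - 1)).const_mul k) (hw.fun_mul (hD m)), dd_const_mul a k (hD (m - 1)),
        dd_mul a hw (hD m), dd_mul a hcd (hD (m + 1)), hdc]
    obtain ⟨P, hP⟩ : ∃ P : ℤ → ℂ, ∀ m, P m = PC k (w x) (kb * (l x : ℂ) ^ 2) i m := ⟨_, fun _ => rfl⟩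
    obtain ⟨D, hDd⟩ : ∃ D : ℤ → ℂ, ∀ m,
      D m = dd al (fun y => PC k (w y) (kb * (l y : ℂ) ^ 2) i m) x := ⟨_, fun _ => rfl⟩
    obtain ⟨Db, hDb⟩ : ∃ D : ℤ → ℂ, ∀ m,
      D m = dd (cj al) (fun y => PC k (w y) (kb * (l y : ℂ) ^ 2) i m) x := ⟨_, fun _ => rfl⟩
    have hPs : ∀ m, PC k (w x) (kb * (l x : ℂ) ^ 2) (i + 1) m =
        k * P (m - 1) + w x * P m + kb * (l x : ℂ) ^ 2 * P (m + 1) := by
      intro m
      rw [PC, hP, hP, hP]
    have i1 : ∀ m : ℤ, D m - t * (l x : ℂ) ^ 2 * D (m + 2) =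
        ((m : ℂ) + 1) * P (m + 1) * A0 + ((m : ℂ) + 2) * P (m + 2) * A1 := by
      intro m
      rw [hDd, hDd, hP, hP]
      exact (ih m).1
    have i2 : ∀ m : ℤ, Db m + (l x : ℂ) * D (m + 1) + 2 * ((m : ℂ) + 1) * ddr al l x * P (m + 1) =
        0 := by
      intro m
      rw [hDd, hDb, hP]
      exact (ih m).2
    simp only [hdd, hPs, ← hDd, ← hDb, ← hP]
    have j1 := i1 (m - 1)
    have j2 := i1 m
    have j3 := i1 (m + 1)
    have k1 := i2 (m - 1)
    have k2 := i2 m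
    have k3 := i2 (m + 1)
    have e1 : m - 1 + 1 = m := by ring
    have e2 : m - 1 + 2 = m + 1 := by ring
    have e3 : m + 1 + 1 = m + 2 := by ring
    have e4 : m + 1 + 2 = m + 3 := by ring
    have e5 : m + 2 - 1 = m + 1 := by ring
    have e6 : m + 2 + 1 = m + 3 := by ring
    have e7 : m + 1 - 1 = m := by ring
    rw [e1, e2] at j1
    rw [e3, e4] at j3
    rw [e1] at k1
    rw [e3] at k3
    push_cast at j1 j3 k1 k3
    rw [e5, e6, e7, e3]
    constructor
    · rw [h1]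
      linear_combination k * j1 + w x * j2 + kb * (l x : ℂ) ^ 2 * j3 -
        (l x : ℂ) ^ 2 * A0 * P (m + 2) * hkt - P (m + 1) * h2 -
        P (m + 3) * (l x : ℂ) ^ 2 * A1 * hkt + P (m + 3) * (l x : ℂ) ^ 2 * t * h2
    · rw [h1, h3]
      linear_combination k * k1 + w x * k2 + kb * (l x : ℂ) ^ 2 * k3 + (l x : ℂ) * P (m + 1) * h4

/-- **Uniqueness.** -/
theorem RelJ_unique (al : Fin 2 → ℂ) (hal : ((starRingEnd ℂ) (al 0) * al 1).im ≠ 0) (l : V2 → ℝ)
    (t : ℂ) (A0 A1 : V2 → ℂ) (S : Set V2) (hS : IsOpen S) (hSc : IsPreconnected S) (M : ℕ)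
    (E : ℤ → V2 → ℂ) (hE : ∀ m, Differentiable ℝ (E m)) (hbig : ∀ (m : ℤ) x, (M : ℤ) < m → E m x = 0)
    (hrel : ∀ x ∈ S, RelJ al l t (A0 x) (A1 x) x E) (x1 : V2) (hx1 : x1 ∈ S)
    (h0 : ∀ m, E m x1 = 0) : ∀ x ∈ S, ∀ m, E m x = 0 := by
  have key : ∀ (n : ℕ) (m : ℤ), (M : ℤ) < m + n → ∀ x ∈ S, E m x = 0 := by
    intro n
    induction n with
    | zero =>
      intro m hm x _
      exact hbig m x (by simpa using hm)
    | succ n ih =>
      intro m hm
      have hz : ∀ (m' : ℤ), m < m' → ∀ x ∈ S, E m' x = 0 ∧ ∀ a, dd a (E m') x = 0 := by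
        intro m' hm' x hx
        have h1 : ∀ y ∈ S, E m' y = 0 := ih m' (by push_cast at hm; omega)
        refine ⟨h1 x hx, fun a => ?_⟩
        have h2 : E m' =ᶠ[𝓝 x] fun _ => (0 : ℂ) := by
          filter_upwards [hS.mem_nhds hx] with y hy
          exact h1 y hy
        unfold dd
        rw [h2.fderiv_eq]
        simp
      have hd : S.EqOn (fderiv ℝ (E m)) 0 := by
        intro x hx
        have h1 := hrel x hx m
        have h2 := hz (m + 1) (by omega) x hx
        have h3 := hz (m + 2) (by omega) x hx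
        rw [h2.1, h3.1, h3.2 al] at h1
        rw [h2.2 al] at h1
        have h4 : dd al (E m) x = 0 := by linear_combination h1.1
        have h5 : dd (cj al) (E m) x = 0 := by linear_combination h1.2
        exact fderiv_zero_of_dd al hal (hE m x) h4 h5
      intro x hx
      rw [hS.is_const_of_fderiv_eq_zero hSc (hE m).differentiableOn hd hx hx1]
      exact h0 m
  intro x hx m
  exact key ((M : ℤ) + 1 - m).toNat m (by omega) x hx

end Pool.W4b1b5d.H63
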