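import Pool.Agent.W_4b1b5d_h63.PlG2
import Pool.Agent.W_4b1b5d_h78.Top
import Pool.Agent.W_4b1b5d_h78.HPops
import Pool.Agent.W_4b1b5d_h66.SHDefs

/-!
# On `S` the function `R_h` is a real polynomial in `κ_h`
-/

set_option autoImplicit false

open Filter Topology Polynomial
open Pool.W4b1b5d.H3 Pool.W4b1b5d.E

namespace Pool.W4b1b5d.H63

/-- `w_h = Re (k b₀)`. -/
noncomputable def wk (I : ID) (V : Uni I) (k : ℂ) (h : ℝ) (x : V2) : ℝ := (k * V.b 0 h x).re

theorem wk_smooth (I : ID) (V : Uni I) (k : ℂ) (h : ℝ) : ContDiff ℝ (⊤ : ℕ∞) (wk I V k h) :=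
  Complex.reCLM.contDiff.comp (contDiff_const.mul ((V.bHP 0).smooth h))

theorem wk_per (I : ID) (V : Uni I) (k : ℂ) (h : ℝ) : Per (wk I V k h) := by
  intro x j
  unfold wk
  rw [(V.bHP 0).per h x j]

theorem wk_eq (I : ID) (V : Uni I) (k : ℂ) (h : ℝ) (x : V2) :
    (wk I V k h x : ℂ) = (1 / 2) * (k * V.b 0 h x) +
      (1 / 2) * (starRingEnd ℂ) (k * V.b 0 h x) := by
  unfold wk
  rw [Complex.re_eq_add_conj]
  ring

theorem cj_cj' (a : Fin 2 → ℂ) : cj (cj a) = a := by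
  funext i
  simp [cj]

theorem wk_dd (I : ID) (V : Uni I) {k t : ℂ} (hkt : t * k = (starRingEnd ℂ) k) {x : V2}
    (hx : GA I V t x) (h : ℝ) :
    dd I.al (fun y => (wk I V k h y : ℂ)) x = k * V.A 0 h x ∧
      dd (cj I.al) (fun y => (wk I V k h y : ℂ)) x = -2 * k * ddr I.al (I.ell h) x := by
  have hb : DifferentiableAt ℝ (V.b 0 h) x :=
    ((V.bHP 0).smooth h).differentiable (by simp) x
  have hkb : DifferentiableAt ℝ (fun y => k * V.b 0 h y) x := hb.const_mul k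
  have hl : DifferentiableAt ℝ (I.ell h) x := (I.ell_smooth h).differentiable (by simp) x
  have hcb : DifferentiableAt ℝ (fun y => (starRingEnd ℂ) (k * V.b 0 h y)) x :=
    (Complex.conjCLE : ℂ →L[ℝ] ℂ).differentiableAt.comp x hkb
  have e : (fun y => (wk I V k h y : ℂ)) = fun y => (1 / 2 : ℂ) * (k * V.b 0 h y) +
      (1 / 2) * (starRingEnd ℂ) (k * V.b 0 h y) := by
    funext y
    exact wk_eq I V k h y
  have hdd : ∀ a, dd a (fun y => (wk I V k h y : ℂ)) x = (1 / 2 : ℂ) * (k * dd a (V.b 0 h) x) +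
      (1 / 2) * (starRingEnd ℂ) (k * dd (cj a) (V.b 0 h) x) := by
    intro a
    have h1 := dd_conj (cj a) hkb
    rw [cj_cj', dd_const_mul (cj a) k hb] at h1
    rw [e, dd_add a (hkb.const_mul _) (hcb.const_mul _), dd_const_mul a _ hkb,
      dd_const_mul a _ hcb, h1, dd_const_mul a k hb]
  have h0 := (hx h).1
  rw [V.A0] at h0
  rw [hdd, hdd, cj_cj', V.db0, V.A0, h0, ddr_conj I.al hl]
  simp only [map_mul, map_neg, Complex.conj_conj, map_ofNat]
  have hkt' : (starRingEnd ℂ) t * (starRingEnd ℂ) k = k := by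
    rw [← map_mul, hkt, Complex.conj_conj]
  constructor
  · linear_combination (-(starRingEnd ℂ) (ddr I.al (I.ell h) x)) * hkt * (-1)
  · linear_combination (-(ddr I.al (I.ell h) x)) * hkt'

/-- `R_h` and the powers of `κ_h` satisfy the same relations. -/
theorem RelJ_Bt (I : ID) (V : Uni I) {t : ℂ} {x : V2} (hx : GA I V t x) (h : ℝ) :
    RelJ I.al (I.ell h) t (V.A 0 h x) (V.A 1 h x) x (fun m => Bt I h m) := fun m =>
  ⟨J_rel I V hx h m, Bt_trans I h m x⟩

theorem RelJ_kappa (I : ID) (V : Uni I) {k t : ℂ} (hkt : t * k = (starRingEnd ℂ) k) {x : V2}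
    (hx : GA I V t x) (h : ℝ) (i : ℕ) :
    RelJ I.al (I.ell h) t (V.A 0 h x) (V.A 1 h x) x
      (fun m y => PC k (wk I V k h y) ((starRingEnd ℂ) k * (I.ell h y : ℂ) ^ 2) i m) := by
  have hl : DifferentiableAt ℝ (I.ell h) x := (I.ell_smooth h).differentiable (by simp) x
  have hw : DifferentiableAt ℝ (fun y => (wk I V k h y : ℂ)) x :=
    (Complex.ofRealCLM.differentiableAt).comp x ((wk_smooth I V k h).differentiable (by simp) x)
  obtain ⟨h1, h3⟩ := wk_dd I V hkt hx h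
  refine RelJ_PC I.al hl hw hkt h1 ?_ h3 ?_ i
  · rw [(hx h).2.1]
    linear_combination (2 * (I.ell h x : ℂ) * ddr I.al (I.ell h) x) * hkt
  · rw [(hx h).1]
    linear_combination (-2 * ddr (cj I.al) (I.ell h) x) * hkt

theorem Bt_low (I : ID) (h : ℝ) (M : ℕ) (hbig : ∀ (k : ℤ) (x : V2), (M : ℤ) < k → Bt I h k x = 0)
    (m : ℤ) (x : V2) (hm : (M : ℤ) < |m|) : Bt I h m x = 0 := by
  rcases lt_abs.1 hm with h1 | h1
  · exact hbig m x h1
  · have h2 := Bt_neg I h (-m).toNat x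
    have h3 : (((-m).toNat : ℕ) : ℤ) = -m := by omega
    rw [h3, neg_neg, hbig (-m) x h1, map_zero, mul_zero] at h2
    exact h2

/-- **Transport.**  If `R_h = g(κ_h)` at one point of `S`, then on all of `S`. -/
theorem transport (I : ID) (V : Uni I) {k t : ℂ} (hkt : t * k = (starRingEnd ℂ) k) (S : Set V2)
    (hS : IsOpen S) (hSc : IsPreconnected S) (hSG : ∀ x ∈ S, GA I V t x) (h : ℝ) (M : ℕ)
    (hbig : ∀ (k : ℤ) (x : V2), (M : ℤ) < k → Bt I h k x = 0) (g : ℂ[X]) (hg : g.natDegree ≤ M)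
    (x1 : V2) (hx1 : x1 ∈ S)
    (h1 : ∀ Y : ℂ, Y ≠ 0 → SN M (fun m => Bt I h m x1) Y =
      g.eval (k * Y + wk I V k h x1 + (starRingEnd ℂ) k * (I.ell h x1 : ℂ) ^ 2 / Y)) :
    ∀ x ∈ S, ∀ m : ℤ, Bt I h m x =
      PG M g.coeff k (wk I V k h x) ((starRingEnd ℂ) k * (I.ell h x : ℂ) ^ 2) m := by
  have hlc : ContDiff ℝ (⊤ : ℕ∞) (fun y => (starRingEnd ℂ) k * (I.ell h y : ℂ) ^ 2) :=
    contDiff_const.mul ((Complex.ofRealCLM.contDiff.comp (I.ell_smooth h)).pow 2)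
  have hwc : ContDiff ℝ (⊤ : ℕ∞) (fun y => (wk I V k h y : ℂ)) :=
    Complex.ofRealCLM.contDiff.comp (wk_smooth I V k h)
  have hPCd : ∀ (i : ℕ) (m : ℤ), Differentiable ℝ
      (fun y => PC k (wk I V k h y) ((starRingEnd ℂ) k * (I.ell h y : ℂ) ^ 2) i m) := fun i m =>
    (PC_smooth k hwc hlc i m).differentiable (by simp)
  have hPGd : ∀ m : ℤ, Differentiable ℝ
      (fun y => PG M g.coeff k (wk I V k h y) ((starRingEnd ℂ) k * (I.ell h y : ℂ) ^ 2) m) := by
    intro m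
    unfold PG
    exact Differentiable.fun_sum fun i _ => (hPCd i m).const_mul _
  have hBd : ∀ m : ℤ, Differentiable ℝ (Bt I h m) := fun m =>
    (Bt_smooth I h m).differentiable (by simp)
  have key := RelJ_unique I.al I.hal (I.ell h) t (V.A 0 h) (V.A 1 h) S hS hSc M
    (fun m y => Bt I h m y -
      PG M g.coeff k (wk I V k h y) ((starRingEnd ℂ) k * (I.ell h y : ℂ) ^ 2) m)
    (fun m => (hBd m).fun_sub (hPGd m)) ?_ ?_ x1 hx1 ?_
  · intro x hx m
    exact sub_eq_zero.1 (key x hx m)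
  · intro m x hm
    beta_reduce
    rw [hbig m x hm, PG_big M _ _ _ _ m (by rw [lt_abs]; exact Or.inl hm), sub_zero]
  · intro x hx
    refine RelJ_sub (fun m => hBd m x) (fun m => hPGd m x) (RelJ_Bt I V (hSG x hx) h) ?_
    exact RelJ_sum (Finset.range (M + 1)) g.coeff
      (fun i m y => PC k (wk I V k h y) ((starRingEnd ℂ) k * (I.ell h y : ℂ) ^ 2) i m)
      (fun i m => hPCd i m x) fun i => RelJ_kappa I V hkt (hSG x hx) h i
  · intro m
    by_cases hm : |m| ≤ M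
    · refine SN_ext M (fun m => Bt I h m x1 -
        PG M g.coeff k (wk I V k h x1) ((starRingEnd ℂ) k * (I.ell h x1 : ℂ) ^ 2) m)
        Set.univ Set.infinite_univ ?_ m hm
      intro Y _ hY
      rw [SN_sub, h1 Y hY]
      have h2 := SN_PG M g hg k (wk I V k h x1) ((starRingEnd ℂ) k * (I.ell h x1 : ℂ) ^ 2) hY
      rw [← h2, sub_self]
    · push Not at hm
      rw [Bt_low I h M hbig m x1 hm, PG_big M _ _ _ _ m hm, sub_zero]

end Pool.W4b1b5d.H63
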