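import Pool.Agent.W_4b1b5d_h63.PlG3

/-!
# `R_h = g_h(κ_h)` on `S` with a real polynomial `g_h`, for every energy
-/

set_option autoImplicit false

open Filter Topology Polynomial
open Pool.W4b1b5d.H3 Pool.W4b1b5d.E

namespace Pool.W4b1b5d.H63

/-- A complex polynomial which is real at infinitely many real points is real. -/
theorem real_poly (p : ℂ[X]) (T : Set ℝ) (hT : T.Infinite)
    (h : ∀ t ∈ T, (starRingEnd ℂ) (p.eval (t : ℂ)) = p.eval (t : ℂ)) :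
    p.map (starRingEnd ℂ) = p := by
  refine Polynomial.eq_of_infinite_eval_eq _ _ ?_
  refine (hT.image (f := fun t : ℝ => (t : ℂ)) (Complex.ofReal_injective.injOn)).mono ?_
  rintro z ⟨t, ht, rfl⟩
  show (p.map (starRingEnd ℂ)).eval (t : ℂ) = p.eval (t : ℂ)
  have h1 := Polynomial.eval_map_apply (f := starRingEnd ℂ) (p := p) (x := (t : ℂ))
  rw [Complex.conj_ofReal] at h1
  rw [h1, h t ht]

theorem real_poly_coeff {p : ℂ[X]} (h : p.map (starRingEnd ℂ) = p) (i : ℕ) :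
    (starRingEnd ℂ) (p.coeff i) = p.coeff i := by
  have h1 := congrArg (fun q : ℂ[X] => q.coeff i) h
  simpa [Polynomial.coeff_map] using h1

theorem real_poly_eval {p : ℂ[X]} (h : p.map (starRingEnd ℂ) = p) (z : ℂ) :
    p.eval ((starRingEnd ℂ) z) = (starRingEnd ℂ) (p.eval z) := by
  have h1 := Polynomial.eval_map_apply (f := starRingEnd ℂ) (p := p) (x := z)
  rw [h] at h1
  exact h1

/-- A Laurent sum with `f (-m) = l^(2m) conj (f m)` is real on the circle `|Y| = |l|`. -/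
theorem SN_real (N : ℕ) (f : ℤ → ℂ) (l : ℝ) (hl : l ≠ 0)
    (hf : ∀ m : ℕ, f (-(m : ℤ)) = (l : ℂ) ^ (2 * m) * (starRingEnd ℂ) (f m)) (Y : ℂ)
    (hY : Y * (starRingEnd ℂ) Y = (l : ℂ) ^ 2) :
    (starRingEnd ℂ) (SN N f Y) = SN N f Y := by
  have hlc : (l : ℂ) ≠ 0 := by exact_mod_cast hl
  have hY0 : Y ≠ 0 := by
    rintro rfl
    rw [zero_mul] at hY
    exact (pow_ne_zero 2 hlc) hY.symm
  have hcY : (starRingEnd ℂ) Y = (l : ℂ) ^ 2 / Y := by
    field_simp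
    linear_combination hY
  have hterm : ∀ m : ℤ, (starRingEnd ℂ) (f (-m)) * ((starRingEnd ℂ) Y) ^ (-m) = f m * Y ^ m := by
    intro m
    obtain ⟨n, rfl | rfl⟩ := m.eq_nat_or_neg
    · rw [hf n, map_mul, Complex.conj_conj, map_pow, Complex.conj_ofReal, hcY, zpow_neg,
        zpow_natCast, zpow_natCast, div_pow, ← pow_mul]
      field_simp
    · rw [neg_neg, hf n, hcY, zpow_neg, zpow_natCast, zpow_natCast, div_pow, ← pow_mul]
      field_simp
  unfold SN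
  rw [map_sum, ← Finset.sum_range_reflect]
  refine Finset.sum_congr rfl fun j hj => ?_
  rw [Finset.mem_range] at hj
  have e1 : ((2 * N + 1 - 1 - j : ℕ) : ℤ) - N = -((j : ℤ) - N) := by omega
  rw [e1, map_mul, map_zpow₀, hterm]

/-- The sum in symmetric form. -/
theorem SN_symm (N : ℕ) (f : ℤ → ℂ) (Y : ℂ) : SN N f Y = f 0 + ∑ m ∈ Finset.range N,
    (f ((m : ℤ) + 1) * Y ^ ((m : ℤ) + 1) + f (-((m : ℤ) + 1)) * Y ^ (-((m : ℤ) + 1))) := by
  induction N with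
  | zero => simp [SN]
  | succ N ih =>
    rw [Finset.sum_range_succ, ← add_assoc, ← ih]
    unfold SN
    rw [show 2 * (N + 1) + 1 = (2 * N + 1) + 1 + 1 by ring, Finset.sum_range_succ',
      Finset.sum_range_succ]
    have e1 : ((2 * N + 1 + 1 : ℕ) : ℤ) - ((N + 1 : ℕ) : ℤ) = (N : ℤ) + 1 := by push_cast; ring
    have e2 : ((0 : ℕ) : ℤ) - ((N + 1 : ℕ) : ℤ) = -((N : ℤ) + 1) := by push_cast; ring
    rw [e1, e2]
    have e3 : ∀ j : ℕ, ((j + 1 : ℕ) : ℤ) - ((N + 1 : ℕ) : ℤ) = (j : ℤ) - N := by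
      intro j
      push_cast
      ring
    simp only [e3]
    ring

/-- Surjectivity of the circle onto the interval. -/
theorem circle_param (k : ℂ) (hk : ‖k‖ = 1) (l w τ : ℝ) (hl : l ≠ 0)
    (hτ : τ ∈ Set.Icc (w - 2 * |l|) (w + 2 * |l|)) :
    ∃ Y : ℂ, Y ≠ 0 ∧ Y * (starRingEnd ℂ) Y = (l : ℂ) ^ 2 ∧
      k * Y + w + (starRingEnd ℂ) k * (l : ℂ) ^ 2 / Y = τ := by
  have hl0 : 0 < |l| := abs_pos.2 hl
  have hkk : k * (starRingEnd ℂ) k = 1 := by
    rw [Complex.mul_conj, Complex.normSq_eq_norm_sq, hk]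
    norm_num
  obtain ⟨φ, hφ⟩ : ∃ φ : ℝ, Real.cos φ = (τ - w) / (2 * |l|) := by
    refine ⟨Real.arccos ((τ - w) / (2 * |l|)), Real.cos_arccos ?_ ?_⟩
    · rw [le_div_iff₀ (by positivity)]
      linarith [hτ.1]
    · rw [div_le_iff₀ (by positivity)]
      linarith [hτ.2]
  have hE : Complex.exp (φ * Complex.I) * Complex.exp (-(φ * Complex.I)) = 1 := by
    rw [← Complex.exp_add, add_neg_cancel, Complex.exp_zero]
  have hEc : (starRingEnd ℂ) (Complex.exp (φ * Complex.I)) = Complex.exp (-(φ * Complex.I)) := by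
    rw [← Complex.exp_conj, map_mul, Complex.conj_ofReal, Complex.conj_I]
    congr 1
    ring
  have hcos : Complex.exp (φ * Complex.I) + Complex.exp (-(φ * Complex.I)) =
      2 * ((Real.cos φ : ℝ) : ℂ) := by
    rw [Complex.ofReal_cos, Complex.two_cos]
    congr 2
    ring
  have hll : ((|l| : ℝ) : ℂ) ^ 2 = (l : ℂ) ^ 2 := by
    rw [← Complex.ofReal_pow, sq_abs, Complex.ofReal_pow]
  have hlc : ((|l| : ℝ) : ℂ) ≠ 0 := by exact_mod_cast hl0.ne'
  have hkc : (starRingEnd ℂ) k ≠ 0 := by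
    intro h0
    rw [h0, mul_zero] at hkk
    exact zero_ne_one hkk
  obtain ⟨E, hEd⟩ : ∃ E, E = Complex.exp (φ * Complex.I) := ⟨_, rfl⟩
  obtain ⟨F, hFd⟩ : ∃ F, F = Complex.exp (-(φ * Complex.I)) := ⟨_, rfl⟩
  rw [← hEd, ← hFd] at hE hcos
  rw [← hEd, ← hFd] at hEc
  have hE0 : E ≠ 0 := by
    rw [hEd]
    exact Complex.exp_ne_zero _
  refine ⟨(starRingEnd ℂ) k * ((|l| : ℝ) : ℂ) * E, mul_ne_zero (mul_ne_zero hkc hlc) hE0, ?_, ?_⟩
  · rw [map_mul, map_mul, Complex.conj_conj, Complex.conj_ofReal, hEc, ← hll]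
    linear_combination (((|l| : ℝ) : ℂ) ^ 2 * E * F) * hkk + ((|l| : ℝ) : ℂ) ^ 2 * hE
  · have h1 : (starRingEnd ℂ) k * (l : ℂ) ^ 2 / ((starRingEnd ℂ) k * ((|l| : ℝ) : ℂ) * E) =
        ((|l| : ℝ) : ℂ) * F := by
      rw [← hll]
      field_simp
      linear_combination (-1 : ℂ) * hE
    rw [h1]
    have h2 : (τ : ℂ) = w + 2 * ((|l| : ℝ) : ℂ) * ((Real.cos φ : ℝ) : ℂ) := by
      rw [hφ]
      push_cast
      field_simp
      ring
    rw [h2]
    linear_combination (((|l| : ℝ) : ℂ) * E) * hkk + ((|l| : ℝ) : ℂ) * hcos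

/-- Laurent sum without negative powers. -/
theorem SN_pos (N : ℕ) (f : ℤ → ℂ) (hf : ∀ m : ℤ, m < 0 → f m = 0) (Y : ℂ) :
    SN N f Y = ∑ m ∈ Finset.range (N + 1), f m * Y ^ m := by
  rw [SN_symm, Finset.sum_range_succ']
  have h1 : ∀ m ∈ Finset.range N, (f ((m : ℤ) + 1) * Y ^ ((m : ℤ) + 1) +
      f (-((m : ℤ) + 1)) * Y ^ (-((m : ℤ) + 1))) = f ((m + 1 : ℕ) : ℤ) * Y ^ (m + 1) := by
    intro m _
    rw [hf (-((m : ℤ) + 1)) (by omega), zero_mul, add_zero, ← zpow_natCast]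
    push_cast
    rfl
  rw [Finset.sum_congr rfl h1]
  simp
  ring

theorem pow_conj_mul {k : ℂ} (hk : ‖k‖ = 1) (m : ℕ) : k ^ m * (starRingEnd ℂ) k ^ m = 1 := by
  rw [← mul_pow, Complex.mul_conj, Complex.normSq_eq_norm_sq, hk]
  norm_num

end Pool.W4b1b5d.H63
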