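import Pool.Agent.W_4b1b5d_h63.PlG4

/-!
# `R_h = g_h(κ_h)` on `S`: existence of the real polynomial `g_h`, and the end of the plateau case
-/

set_option autoImplicit false

open Filter Topology Polynomial
open Pool.W4b1b5d.H3 Pool.W4b1b5d.E Pool.W4b1b5d.SH

namespace Pool.W4b1b5d.H63

theorem LB_eq_SN (M : ℕ) (B : ℤ → V2 → ℂ) (x : V2) (Y : ℂ) :
    LB M B 0 x Y = SN M (fun m => B m x) Y := by
  unfold LB Lk SN
  refine Finset.sum_congr rfl fun j _ => ?_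
  have h1 : fall ((j : ℤ) - M) 0 = 1 := by simp [fall]
  rw [h1, mul_one]
  norm_num

/-- Energies in `U(S)`: there `R_h(x', ·)` is a polynomial in `Y`, hence `R_h = g(κ_h)` on `S`. -/
theorem poly_of_zero (I : ID) (V : Uni I) {k t : ℂ} (hk : ‖k‖ = 1)
    (hkt : t * k = (starRingEnd ℂ) k) (S : Set V2)
    (hS : IsOpen S) (hSc : IsPreconnected S) (hSG : ∀ x ∈ S, GA I V t x) (h : ℝ) (M : ℕ)
    (hbig : ∀ (k : ℤ) (x : V2), (M : ℤ) < k → Bt I h k x = 0)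
    (x' : V2) (hx' : x' ∈ S) (hl0 : I.ell h x' = 0) :
    ∃ g : ℂ[X], g.natDegree ≤ M ∧ ∀ x ∈ S, ∀ m : ℤ, Bt I h m x =
      PG M g.coeff k (wk I V k h x) ((starRingEnd ℂ) k * (I.ell h x : ℂ) ^ 2) m := by
  have hk0 : k ≠ 0 := by
    rintro rfl
    simp at hk
  have hneg : ∀ m : ℤ, m < 0 → Bt I h m x' = 0 := by
    intro m hm
    have h1 := Bt_neg I h (-m).toNat x'
    have h2 : (((-m).toNat : ℕ) : ℤ) = -m := by omega
    rw [h2, neg_neg, hl0, Complex.ofReal_zero, zero_pow (by omega), zero_mul] at h1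
    exact h1
  obtain ⟨g, hgd⟩ : ∃ g : ℂ[X], g = ∑ m ∈ Finset.range (M + 1),
    C (Bt I h m x') * (C k⁻¹ * (X - C ((wk I V k h x' : ℝ) : ℂ))) ^ m := ⟨_, rfl⟩
  have hgdeg : g.natDegree ≤ M := by
    rw [hgd]
    refine Polynomial.natDegree_sum_le_of_forall_le _ _ fun m hm => ?_
    rw [Finset.mem_range] at hm
    refine (Polynomial.natDegree_C_mul_le _ _).trans ?_
    refine (Polynomial.natDegree_pow_le).trans ?_
    have h1 : (C k⁻¹ * (X - C ((wk I V k h x' : ℝ) : ℂ))).natDegree ≤ 1 :=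
      (Polynomial.natDegree_C_mul_le _ _).trans (Polynomial.natDegree_X_sub_C_le _)
    calc m * (C k⁻¹ * (X - C ((wk I V k h x' : ℝ) : ℂ))).natDegree ≤ m * 1 :=
          Nat.mul_le_mul_left _ h1
      _ ≤ M := by omega
  refine ⟨g, hgdeg, transport I V hkt S hS hSc hSG h M hbig g hgdeg x' hx' ?_⟩
  intro Y hY
  rw [SN_pos M _ hneg, hl0, hgd, Polynomial.eval_finsetSum]
  refine Finset.sum_congr rfl fun m _ => ?_
  rw [eval_mul, eval_C, eval_pow, eval_mul, eval_C, eval_sub, eval_X, eval_C, Complex.ofReal_zero]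
  congr 2
  field_simp
  ring

/-- `conj(k)^m B_m` is real on `S`, for energies in `U(S)`. -/
theorem real_of_zero (I : ID) (V : Uni I) {k t : ℂ} (hk : ‖k‖ = 1)
    (hkt : t * k = (starRingEnd ℂ) k) (S : Set V2)
    (hS : IsOpen S) (hSc : IsPreconnected S) (hSG : ∀ x ∈ S, GA I V t x)
    (hSU : ∃ x ∈ S, ∃ y ∈ S, I.U x ≠ I.U y) (h : ℝ) (M : ℕ)
    (hbig : ∀ (k : ℤ) (x : V2), (M : ℤ) < k → Bt I h k x = 0)
    (x' : V2) (hx' : x' ∈ S) (hl0 : I.U x' = h) (x : V2) (hx : x ∈ S) (m : ℕ) :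
    (starRingEnd ℂ) ((starRingEnd ℂ) k ^ m * Bt I h m x) = (starRingEnd ℂ) k ^ m * Bt I h m x := by
  have hk0 : k ≠ 0 := by
    rintro rfl
    simp at hk
  have hkk : k * (starRingEnd ℂ) k = 1 := by
    have := pow_conj_mul hk 1
    simpa using this
  have hki : (starRingEnd ℂ) k = 1 / k := by
    field_simp
    linear_combination hkk
  obtain ⟨g, hgdeg, hg⟩ := poly_of_zero I V hk hkt S hS hSc hSG h M hbig x' hx' (by
    unfold ID.ell
    rw [hl0, sub_self, zero_div])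
  -- a point of `S` with `l ≠ 0`
  obtain ⟨y, hy, hyU⟩ : ∃ y ∈ S, I.U y ≠ h := by
    obtain ⟨a, ha, b, hb, hab⟩ := hSU
    by_cases h1 : I.U a = h
    · exact ⟨b, hb, fun h2 => hab (h1.trans h2.symm)⟩
    · exact ⟨a, ha, h1⟩
  have hly : I.ell h y ≠ 0 := by
    unfold ID.ell
    exact div_ne_zero (sub_ne_zero.2 (Ne.symm hyU)) (I.mupos y).ne'
  have hgr : g.map (starRingEnd ℂ) = g := by
    refine real_poly g (Set.Icc (wk I V k h y - 2 * |I.ell h y|) (wk I V k h y + 2 * |I.ell h y|))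
      (Set.Icc_infinite (by linarith [abs_pos.2 hly])) ?_
    intro τ hτ
    obtain ⟨Y, hY0, hY1, hY2⟩ := circle_param k hk (I.ell h y) (wk I V k h y) τ hly hτ
    have h1 := SN_real M (fun m => Bt I h m y) (I.ell h y) hly (fun m => Bt_neg I h m y) Y hY1
    have h2 : SN M (fun m => Bt I h m y) Y = g.eval (τ : ℂ) := by
      rw [← hY2, ← SN_PG M g hgdeg k _ _ hY0]
      congr 1
      funext m
      exact hg y hy m
    rw [h2] at h1
    exact h1
  rw [hg x hx m, hki, show (1 / k) * (I.ell h x : ℂ) ^ 2 = (I.ell h x : ℂ) ^ 2 / k by ring]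
  unfold PG
  have h3 : ∀ i ∈ Finset.range (M + 1), g.coeff i *
      PC k (wk I V k h x) ((I.ell h x : ℂ) ^ 2 / k) i m =
      k ^ m * (g.coeff i * PC 1 (wk I V k h x) ((I.ell h x : ℂ) ^ 2) i m) := by
    intro i _
    rw [PC_k k _ _ hk0, zpow_natCast]
    ring
  rw [Finset.sum_congr rfl h3, ← Finset.mul_sum, ← mul_assoc]
  have h4 : (1 / k) ^ m * k ^ m = 1 := by
    rw [← mul_pow, one_div, inv_mul_cancel₀ hk0, one_pow]
  rw [h4, one_mul, map_sum]
  refine Finset.sum_congr rfl fun i _ => ?_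
  rw [map_mul, real_poly_coeff hgr]
  obtain ⟨r, hr⟩ := PC_real (wk I V k h x) (I.ell h x ^ 2) i m
  rw [Complex.ofReal_pow] at hr
  rw [hr, Complex.conj_ofReal]

/-- `conj(k)^m B_m` is real on `S`, for all energies. -/
theorem real_all (I : ID) (V : Uni I) {k t : ℂ} (hk : ‖k‖ = 1)
    (hkt : t * k = (starRingEnd ℂ) k) (S : Set V2)
    (hS : IsOpen S) (hSc : IsPreconnected S) (hSG : ∀ x ∈ S, GA I V t x)
    (hSU : ∃ x ∈ S, ∃ y ∈ S, I.U x ≠ I.U y) (M : ℕ)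
    (hbig : ∀ (k : ℤ) (h : ℝ) (x : V2), (M : ℤ) < k → Bt I h k x = 0)
    (h : ℝ) (x : V2) (hx : x ∈ S) (m : ℕ) :
    (starRingEnd ℂ) ((starRingEnd ℂ) k ^ m * Bt I h m x) = (starRingEnd ℂ) k ^ m * Bt I h m x := by
  obtain ⟨p, -, hp⟩ := (HP.smul ((starRingEnd ℂ) k ^ m) (HP.Bt I m)).poly x
  have hp' : ∀ h : ℝ, (starRingEnd ℂ) k ^ m * Bt I h m x = p.eval (h : ℂ) := hp
  obtain ⟨a, ha, b, hb, hab⟩ : ∃ a ∈ S, ∃ b ∈ S, I.U a < I.U b := by
    obtain ⟨a, ha, b, hb, hab⟩ := hSU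
    rcases lt_or_gt_of_ne hab with h1 | h1
    · exact ⟨a, ha, b, hb, h1⟩
    · exact ⟨b, hb, a, ha, h1⟩
  have hUc : Continuous I.U := I.Usm.continuous
  have hIcc : Set.Icc (I.U a) (I.U b) ⊆ I.U '' S :=
    (hSc.image I.U hUc.continuousOn).Icc_subset ⟨a, ha, rfl⟩ ⟨b, hb, rfl⟩
  have hpr : p.map (starRingEnd ℂ) = p := by
    refine real_poly p (Set.Icc (I.U a) (I.U b)) (Set.Icc_infinite hab) ?_
    intro τ hτ
    obtain ⟨x', hx', hxU⟩ := hIcc hτ
    rw [← hp']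
    exact real_of_zero I V hk hkt S hS hSc hSG hSU τ M (fun k x => hbig k τ x) x' hx' hxU x hx m
  rw [hp']
  have h1 := real_poly_eval hpr (h : ℂ)
  rw [Complex.conj_ofReal] at h1
  exact h1.symm

/-- **The polynomial `g_h`.** -/
theorem exists_g (I : ID) (V : Uni I) {k t : ℂ} (hk : ‖k‖ = 1)
    (hkt : t * k = (starRingEnd ℂ) k) (S : Set V2)
    (hS : IsOpen S) (hSc : IsPreconnected S) (hSG : ∀ x ∈ S, GA I V t x)
    (hSU : ∃ x ∈ S, ∃ y ∈ S, I.U x ≠ I.U y) (M : ℕ)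
    (hbig : ∀ (k : ℤ) (h : ℝ) (x : V2), (M : ℤ) < k → Bt I h k x = 0)
    (h : ℝ) (a : ℂ) (ha : a ≠ 0) (htop : ∀ x, Bt I h M x = a) :
    ∃ g : ℂ[X], (∀ T : ℂ, g.eval ((starRingEnd ℂ) T) = (starRingEnd ℂ) (g.eval T)) ∧
      g.natDegree = M ∧ ∀ x ∈ S, ∀ Y : ℂ, Y ≠ 0 → LB M (Bt I h) 0 x Y =
        g.eval (k * Y + wk I V k h x + (starRingEnd ℂ) k * (I.ell h x : ℂ) ^ 2 / Y) := by
  have hk0 : k ≠ 0 := by
    rintro rfl
    simp at hk
  have hkk : k * (starRingEnd ℂ) k = 1 := by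
    have := pow_conj_mul hk 1
    simpa using this
  obtain ⟨x1, hx1⟩ : ∃ x1, x1 ∈ S := by
    obtain ⟨x1, hx1, -⟩ := hSU
    exact ⟨x1, hx1⟩
  have hreal := real_all I V hk hkt S hS hSc hSG hSU M hbig h x1 hx1
  obtain ⟨r, hr⟩ : ∃ r : ℕ → ℝ, ∀ m : ℕ, (r m : ℂ) = (starRingEnd ℂ) k ^ m * Bt I h m x1 :=
    ⟨fun m => ((starRingEnd ℂ) k ^ m * Bt I h m x1).re, fun m =>
      Complex.conj_eq_iff_re.1 (hreal m)⟩
  have hB : ∀ m : ℕ, Bt I h m x1 = k ^ m * r m := by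
    intro m
    rw [hr]
    linear_combination (-(Bt I h m x1)) * pow_conj_mul hk m
  obtain ⟨l, hl⟩ : ∃ l : ℝ, l = I.ell h x1 := ⟨_, rfl⟩
  obtain ⟨w, hw⟩ : ∃ w : ℝ, w = wk I V k h x1 := ⟨_, rfl⟩
  obtain ⟨gr, hgrd⟩ : ∃ gr : ℝ[X], gr = C (r 0) + ∑ m ∈ Finset.range M,
    C (r (m + 1)) * (dickson 1 (l ^ 2) (m + 1)).comp (X - C w) := ⟨_, rfl⟩
  have hgrdeg : gr.natDegree ≤ M := by
    rw [hgrd]
    refine (Polynomial.natDegree_add_le _ _).trans (max_le ?_ ?_)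
    · rw [natDegree_C]
      exact Nat.zero_le _
    · refine Polynomial.natDegree_sum_le_of_forall_le _ _ fun m hm => ?_
      rw [Finset.mem_range] at hm
      refine (Polynomial.natDegree_C_mul_le _ _).trans ?_
      refine (Polynomial.natDegree_comp_le).trans ?_
      rw [Polynomial.natDegree_X_sub_C, mul_one]
      exact (dickson_deg (l ^ 2) (m + 1)).trans (by omega)
  obtain ⟨g, hg⟩ : ∃ g : ℂ[X], g = gr.map (algebraMap ℝ ℂ) := ⟨_, rfl⟩
  have hgdeg : g.natDegree ≤ M := by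
    rw [hg]
    exact (Polynomial.natDegree_map_le).trans hgrdeg
  have hgreal : ∀ T : ℂ, g.eval ((starRingEnd ℂ) T) = (starRingEnd ℂ) (g.eval T) := by
    have h1 : g.map (starRingEnd ℂ) = g := by
      rw [hg, Polynomial.map_map]
      congr 1
      ext r
      simp
    exact real_poly_eval h1
  have hpt : ∀ Y : ℂ, Y ≠ 0 → SN M (fun m => Bt I h m x1) Y =
      g.eval (k * Y + wk I V k h x1 + (starRingEnd ℂ) k * (I.ell h x1 : ℂ) ^ 2 / Y) := by
    intro Y hY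
    have hkY : k * Y ≠ 0 := mul_ne_zero hk0 hY
    rw [SN_symm, hg, hgrd, Polynomial.map_add, Polynomial.map_sum, eval_add,
      Polynomial.eval_finsetSum, map_C, eval_C]
    have e0 : (algebraMap ℝ ℂ) (r 0) = Bt I h 0 x1 := by
      have := hB 0
      rw [pow_zero, one_mul] at this
      exact this.symm
    rw [e0]
    congr 1
    refine Finset.sum_congr rfl fun m _ => ?_
    rw [Polynomial.map_mul, eval_mul, map_C, eval_C, Polynomial.map_comp, eval_comp,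
      Polynomial.map_sub, map_X, map_C, eval_sub, eval_X, eval_C]
    have e1 : k * Y + (wk I V k h x1 : ℂ) + (starRingEnd ℂ) k * (I.ell h x1 : ℂ) ^ 2 / Y -
        (algebraMap ℝ ℂ) w = k * Y + ((l ^ 2 : ℝ) : ℂ) / (k * Y) := by
      have h2 : (algebraMap ℝ ℂ) w = (wk I V k h x1 : ℂ) := by
        rw [hw]
        rfl
      rw [h2, hl]
      push_cast
      field_simp
      linear_combination ((I.ell h x1 : ℂ) ^ 2) * hkk
    rw [e1, dickson_eval' (l ^ 2) hkY (m + 1)]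
    have e2 := hB (m + 1)
    have e3 := Bt_neg I h (m + 1) x1
    rw [e2, map_mul, map_pow, Complex.conj_ofReal] at e3
    have e4 : ((m + 1 : ℕ) : ℤ) = (m : ℤ) + 1 := by push_cast; ring
    rw [e4] at e2 e3
    have e5 : (algebraMap ℝ ℂ) (r (m + 1)) = (r (m + 1) : ℂ) := rfl
    rw [e2, e3, e5, ← e4, zpow_neg, zpow_natCast, ← hl]
    have e6 : (starRingEnd ℂ) k = 1 / k := by
      field_simp
      linear_combination hkk
    have hkm : k ^ (m + 1) ≠ 0 := pow_ne_zero _ hk0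
    have hYm : Y ^ (m + 1) ≠ 0 := pow_ne_zero _ hY
    rw [e6]
    simp only [div_pow, mul_pow, one_pow, Complex.ofReal_pow, ← pow_mul]
    field_simp
  have hall := transport I V hkt S hS hSc hSG h M (fun k x => hbig k h x) g hgdeg x1 hx1 hpt
  refine ⟨g, hgreal, ?_, ?_⟩
  · have h1 := hall x1 hx1 M
    rw [PG_top, htop] at h1
    have h2 : g.coeff M ≠ 0 := by
      intro h0
      rw [h0, zero_mul] at h1
      exact ha h1
    exact le_antisymm hgdeg (Polynomial.le_natDegree_of_ne_zero h2)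
  · intro x hx Y hY
    rw [LB_eq_SN, ← SN_PG M g hgdeg k _ _ hY]
    congr 1
    funext m
    exact hall x hx m

end Pool.W4b1b5d.H63
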