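import Pool.Agent.W_4b1b5d_h63.PlG5

/-!
# The end of the plateau case: `R_h(x,Y) = g(k Y + A(x) + conj k l²/Y)` for all `x`
-/

set_option autoImplicit false

open Filter Topology Polynomial
open Pool.W4b1b5d.H3 Pool.W4b1b5d.E Pool.W4b1b5d.SH

namespace Pool.W4b1b5d.H63

theorem A0_of_g (I : ID) (V : Uni I) {k t : ℂ} (hk : ‖k‖ = 1)
    (hkt : t * k = (starRingEnd ℂ) k) (M : ℕ) (hM : 1 ≤ M) (h : ℝ)
    (hbig : ∀ (k : ℤ) (x : V2), (M : ℤ) < k → Bt I h k x = 0)
    (a : ℂ) (ha : a ≠ 0) (htop : ∀ x, Bt I h M x = a) (g : ℂ[X]) (hg : g.natDegree ≤ M)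
    (A : V2 → ℝ) (hstr : ∀ x, ∀ Y : ℂ, Y ≠ 0 → LB M (Bt I h) 0 x Y =
        g.eval (k * Y + A x + (starRingEnd ℂ) k * (I.ell h x : ℂ) ^ 2 / Y)) (x : V2) :
    V.A 0 h x = -2 * t * ddr (cj I.al) (I.ell h) x := by
  have hk0 : k ≠ 0 := by
    rintro rfl
    simp at hk
  obtain ⟨m, rfl⟩ : ∃ m, M = m + 1 := ⟨M - 1, by omega⟩
  have hcoef : ∀ (j : ℤ) (x : V2), |j| ≤ ((m + 1 : ℕ) : ℤ) → Bt I h j x =
      PG (m + 1) g.coeff k (A x) ((starRingEnd ℂ) k * (I.ell h x : ℂ) ^ 2) j := by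
    intro j x hj
    refine sub_eq_zero.1 (SN_ext (m + 1) (fun j => Bt I h j x -
        PG (m + 1) g.coeff k (A x) ((starRingEnd ℂ) k * (I.ell h x : ℂ) ^ 2) j)
        Set.univ Set.infinite_univ ?_ j hj)
    intro Y _ hY
    have h1 := hstr x Y hY
    rw [LB_eq_SN, ← SN_PG (m + 1) g hg k _ _ hY] at h1
    rw [SN_sub, h1]
    exact sub_self _
  have htop' : g.coeff (m + 1) * k ^ (m + 1) = a := by
    have h1 := hcoef ((m + 1 : ℕ) : ℤ) x (by rw [abs_of_nonneg (by omega)])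
    rw [PG_top, htop] at h1
    exact h1.symm
  have hgM : g.coeff (m + 1) ≠ 0 := by
    intro h0
    rw [h0, zero_mul] at htop'
    exact ha htop'.symm
  have hsub : ∀ x, Bt I h m x = g.coeff m * k ^ m + g.coeff (m + 1) * (((m : ℂ) + 1) * k ^ m * A x) := by
    intro x
    have h1 := hcoef (m : ℤ) x (by rw [abs_of_nonneg (by omega)]; omega)
    rw [PG_sub] at h1
    exact h1
  have hm1 : ((m : ℂ) + 1) ≠ 0 := by exact_mod_cast Nat.succ_ne_zero m
  have hkm : k ^ m ≠ 0 := pow_ne_zero _ hk0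
  obtain ⟨α, hα⟩ : ∃ α : ℂ, α = k / (((m : ℂ) + 1) * a) := ⟨_, rfl⟩
  obtain ⟨β, hβ⟩ : ∃ β : ℂ, β = -(α * (g.coeff m * k ^ m)) := ⟨_, rfl⟩
  have hαa : α * (((m : ℂ) + 1) * a) = k := by
    rw [hα]
    field_simp
  have hA : ∀ x, (A x : ℂ) = α * Bt I h m x + β := by
    intro x
    rw [hβ, hsub x]
    have h1 : α * (g.coeff (m + 1) * (((m : ℂ) + 1) * k ^ m)) = 1 := by
      have h2 : k * (α * (g.coeff (m + 1) * (((m : ℂ) + 1) * k ^ m))) = k := by
        rw [← htop'] at hαa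
        linear_combination hαa
      exact mul_left_cancel₀ hk0 (by rw [h2, mul_one])
    linear_combination (-(A x : ℂ)) * h1
  have hBd : DifferentiableAt ℝ (Bt I h m) x := (Bt_smooth I h m).differentiable (by simp) x
  have hAfun : (fun y => (A y : ℂ)) = fun y => α * Bt I h m y + β := funext hA
  have hAd : DifferentiableAt ℝ A x := by
    have h1 : A = fun y => (α * Bt I h m y + β).re := by
      funext y
      rw [← hA y, Complex.ofReal_re]
    rw [h1]
    exact (Complex.reCLM.differentiableAt).comp x ((hBd.const_mul α).add_const β)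
  have hdA : ∀ b : Fin 2 → ℂ, dd b (fun y => (A y : ℂ)) x = α * dd b (Bt I h m) x := by
    intro b
    rw [hAfun, dd_add b (hBd.const_mul α) (differentiableAt_const β), dd_const_mul b α hBd,
      dd_const, add_zero]
  -- the two relations
  have hrel : dd I.al (Bt I h m) x = ((m : ℂ) + 1) * a * V.A 0 h x := by
    have h1 := V.rel h m x (I.n + 1) (by push_cast; omega)
    rw [Finset.sum_range_succ', Finset.sum_eq_zero, zero_add] at h1
    · rw [h1]
      have e1 : (m : ℤ) + ((0 : ℕ) : ℤ) + 1 = ((m + 1 : ℕ) : ℤ) := by push_cast; ring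
      rw [e1, htop]
      push_cast
      ring
    · intro j _
      have e1 : Bt I h ((m : ℤ) + ((j + 1 : ℕ) : ℤ) + 1) x = 0 :=
        hbig _ x (by push_cast; omega)
      rw [e1, mul_zero, zero_mul]
  have htr : dd (cj I.al) (Bt I h m) x = -2 * ((m : ℂ) + 1) * a * ddr I.al (I.ell h) x := by
    have h1 := Bt_trans I h m x
    have e1 : (m : ℤ) + 1 = ((m + 1 : ℕ) : ℤ) := by push_cast; ring
    have e2 : dd I.al (Bt I h ((m : ℤ) + 1)) x = 0 := by
      have e3 : Bt I h ((m : ℤ) + 1) = fun _ => a := by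
        funext y
        rw [e1]
        exact htop y
      rw [e3, dd_const]
    rw [e2, e1, htop] at h1
    push_cast at h1
    linear_combination h1
  have k1 : dd I.al (fun y => (A y : ℂ)) x = k * V.A 0 h x := by
    rw [hdA, hrel]
    linear_combination (V.A 0 h x) * hαa
  have k2 : dd (cj I.al) (fun y => (A y : ℂ)) x = -2 * k * ddr I.al (I.ell h) x := by
    rw [hdA, htr]
    linear_combination (-2 * ddr I.al (I.ell h) x) * hαa
  have hl : DifferentiableAt ℝ (I.ell h) x := (I.ell_smooth h).differentiable (by simp) x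
  have k3 := ddr_conj I.al hAd
  unfold ddr at k3
  rw [k1, k2] at k3
  have k4 := congrArg (starRingEnd ℂ) k3
  rw [Complex.conj_conj, map_mul, map_mul, map_neg, map_ofNat, ← ddr_conj I.al hl] at k4
  have k5 : k * (V.A 0 h x - -2 * t * ddr (cj I.al) (I.ell h) x) = 0 := by
    linear_combination -k4 + 2 * ddr (cj I.al) (I.ell h) x * hkt
  exact sub_eq_zero.1 ((mul_eq_zero.1 k5).resolve_left hk0)

/-- **End of the plateau case**, in the form delivered by the label function: at two energies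
`R_h(x,Y)` is, for every `x`, a polynomial in `k Y + A(x) + conj k l²/Y`. -/
theorem quad_of_g (I : ID) (V : Uni I) (G : Matrix (Fin 2) (Fin 2) ℝ) (hG : G.PosDef)
    (hal2 : ∀ i j, ((G i j : ℝ) : ℂ)
      = I.al i * (starRingEnd ℂ) (I.al j) + I.al j * (starRingEnd ℂ) (I.al i))
    {k t : ℂ} (hk : ‖k‖ = 1) (hkt : t * k = (starRingEnd ℂ) k) (M : ℕ) (hM : 1 ≤ M)
    (hbig : ∀ (k : ℤ) (h : ℝ) (x : V2), (M : ℤ) < k → Bt I h k x = 0)
    (a : ℝ → ℂ) (htop : ∀ h x, Bt I h M x = a h)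
    (h1 h2 : ℝ) (hne : h1 ≠ h2)
    (hend : ∀ h, h = h1 ∨ h = h2 → a h ≠ 0 ∧ ∃ (g : ℂ[X]) (A : V2 → ℝ), g.natDegree ≤ M ∧
      ∀ x, ∀ Y : ℂ, Y ≠ 0 → LB M (Bt I h) 0 x Y =
        g.eval (k * Y + A x + (starRingEnd ℂ) k * (I.ell h x : ℂ) ^ 2 / Y)) :
    ∃ F : (Fin 2 → ℝ) → MvPolynomial (Fin 2) ℝ,
      Pool.Agent.U4b.IsInt (Pool.Agent.U4b.Ham (fun x => I.mu x • G) I.U) F ∧
      (∀ x, (F x).totalDegree ≤ 2) ∧
      ¬ ∃ q : Polynomial ℝ, ∀ x p, MvPolynomial.eval p (F x) =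
        q.eval (Pool.Agent.U4b.Ham (fun x => I.mu x • G) I.U x p) := by
  have hA : ∀ h, h = h1 ∨ h = h2 → ∀ x, V.A 0 h x = -2 * t * ddr (cj I.al) (I.ell h) x := by
    intro h hh x
    obtain ⟨ha, g, A, hg, hstr⟩ := hend h hh
    exact A0_of_g I V hk hkt M hM h (fun k x => hbig k h x) (a h) ha (htop h) g hg A hstr x
  have hk0 : k ≠ 0 := by
    rintro rfl
    simp at hk
  have ht : ‖t‖ = 1 := by
    have e1 := congrArg norm hkt
    rw [norm_mul, hk, mul_one, RCLike.norm_conj, hk] at e1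
    exact e1
  exact quad_of_two I V G hG hal2 t ht h1 h2 hne (hA h1 (Or.inl rfl)) (hA h2 (Or.inr rfl))

/-- A number `k` of modulus one with `conj k = θ k`. -/
theorem exists_k (t : ℂ) (ht : ‖t‖ = 1) : ∃ k : ℂ, ‖k‖ = 1 ∧ t * k = (starRingEnd ℂ) k := by
  obtain ⟨s, hs⟩ : ∃ s : ℂ, s ^ 2 = t := IsAlgClosed.exists_pow_nat_eq t (by norm_num)
  have hsn : ‖s‖ = 1 := by
    have h1 := congrArg norm hs
    rw [norm_pow, ht] at h1
    exact (pow_eq_one_iff_of_nonneg (norm_nonneg s) (by norm_num)).1 h1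
  have hss : s * (starRingEnd ℂ) s = 1 := by
    rw [Complex.mul_conj, Complex.normSq_eq_norm_sq, hsn]
    norm_num
  refine ⟨(starRingEnd ℂ) s, by rw [RCLike.norm_conj, hsn], ?_⟩
  rw [Complex.conj_conj, ← hs]
  linear_combination s * hss

end Pool.W4b1b5d.H63
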